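import Pool.Agent.E14.CP.Tri
import Pool.Agent.Y69.TK.ArtK
import Pool.Agent.Y563.SL.Tri
import Pool.Agent.Y778.SL.YY

/-!
# Artin induction for `K₁(R[G])`, `R` a commutative ring of prime characteristic
-/

namespace Pool.Agent.E14.CP

open H970SH MonoidAlgebra Pool.Agent.Y69.TK.ArtK
open H842 (cl cl_mul cl_one cl_inv blow blow_apply K1_exists XX artin_matrix)
open Pool.Agent.Y778.SL (hat hat_mul hat_one pm pm_intertwine dvd_of_val)

noncomputable section

section tw

variable {k : Type} [CommRing k] {G : Type} [Group G] {Z : Type}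

/-- twisted matrix -/
def tw (r : G → Matrix Z Z ℤ) (x y : Z) : MonoidAlgebra k G →+ MonoidAlgebra k G where
  toFun a := a.coeff.sum fun g c => (single g (c * ((r g x y : ℤ) : k)) : MonoidAlgebra k G)
  map_zero' := by rw [coeff_zero]; exact Finsupp.sum_zero_index
  map_add' a b := by
    rw [coeff_add]
    apply Finsupp.sum_add_index'
    · intro g; rw [zero_mul, single_zero]
    · intro g c d; rw [add_mul, single_add]

theorem tw_single (r : G → Matrix Z Z ℤ) (x y : Z) (g : G) (c : k) :
    tw r x y (single g c) = single g (c * ((r g x y : ℤ) : k)) := by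
  show (single g c : MonoidAlgebra k G).coeff.sum
    (fun g c => (single g (c * ((r g x y : ℤ) : k)) : MonoidAlgebra k G)) = _
  rw [coeff_single, Finsupp.sum_single_index]
  rw [zero_mul, single_zero]

theorem tw_zero (r : G → Matrix Z Z ℤ) (x y : Z) (h : ∀ g, ((r g x y : ℤ) : k) = 0)
    (a : MonoidAlgebra k G) : tw r x y a = 0 := by
  induction a using MonoidAlgebra.induction_linear with
  | zero => exact map_zero _
  | add a b ha hb => rw [map_add, ha, hb, add_zero]
  | single g c => rw [tw_single, h, mul_zero, single_zero]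

theorem conj_entry {X : Type} [Fintype X] [DecidableEq X] [MulAction G X] [Fintype Z]
    [DecidableEq Z] (U' : Matrix Z X ℤ) (U : Matrix X Z ℤ) (a : MonoidAlgebra k G) (x y : Z) :
    ∑ x', ∑ y', ((U' x x' : ℤ) : MonoidAlgebra k G) * th G X a x' y' *
      ((U y' y : ℤ) : MonoidAlgebra k G) = tw (fun g => U' * pm X g * U) x y a := by
  induction a using MonoidAlgebra.induction_linear with
  | zero => simp
  | add a b ha hb =>
    have h0 := map_add (tw (fun g => U' * pm X g * U) x y) a b
    rw [h0, ← ha, ← hb, ← Finset.sum_add_distrib]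
    refine Finset.sum_congr rfl fun x' _ => ?_
    rw [← Finset.sum_add_distrib]
    refine Finset.sum_congr rfl fun y' _ => ?_
    rw [map_add, Matrix.add_apply, mul_add, add_mul]
  | single g c =>
    rw [tw_single]
    have h1 : ∀ x' y', ((U' x x' : ℤ) : MonoidAlgebra k G) * th G X (single g c) x' y' *
        ((U y' y : ℤ) : MonoidAlgebra k G) =
        single g (c * ((U' x x' * pm X g x' y' * U y' y : ℤ) : k)) := by
      intro x' y'
      rw [th_single]
      unfold pm
      rw [Matrix.of_apply]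
      have h2 : ∀ n : ℤ, ((n : ℤ) : MonoidAlgebra k G) = single 1 (n : k) := by
        intro n
        exact MonoidAlgebra.intCast_def n
      split_ifs
      · rw [h2, h2, single_mul_single, single_mul_single, one_mul, mul_one]
        congr 1
        push_cast
        ring
      · rw [mul_zero, zero_mul, mul_zero, zero_mul, Int.cast_zero, mul_zero, single_zero]
    simp only [h1]
    have h3 : ∀ (s : Finset X) (f : X → k), ∑ i ∈ s, (single g (f i) : MonoidAlgebra k G) =
        single g (∑ i ∈ s, f i) := by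
      intro s f
      exact (map_sum (MonoidAlgebra.singleAddHom g) f s).symm
    simp only [h3]
    congr 1
    rw [Matrix.mul_apply]
    simp only [Matrix.mul_apply, Finset.sum_mul, Int.cast_sum, Finset.mul_sum]
    rw [Finset.sum_comm]

end tw

section main

variable {k : Type} [CommRing k] {G : Type} [Group G] {X Z : Type} [MulAction G X] [Fintype X]
  [DecidableEq X] [Fintype Z] [DecidableEq Z] {ι : Type} [Fintype ι] [DecidableEq ι]

/-- the blown up matrix -/
def bw (w : (Matrix ι ι (MonoidAlgebra k G))ˣ) : Matrix (ι × X) (ι × X) (MonoidAlgebra k G) :=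
  Units.val (blow (th G X) w)

theorem bw_inv (w : (Matrix ι ι (MonoidAlgebra k G))ˣ) : bw (X := X) w * bw (X := X) w⁻¹ = 1 := by
  unfold bw
  rw [← Units.val_mul, ← map_mul, mul_inv_cancel, map_one, Units.val_one]

theorem bw_inv' (w : (Matrix ι ι (MonoidAlgebra k G))ˣ) : bw (X := X) w⁻¹ * bw (X := X) w = 1 := by
  unfold bw
  rw [← Units.val_mul, ← map_mul, inv_mul_cancel, map_one, Units.val_one]

omit [MulAction G X] in
theorem hat_inv {X Z : Type} [Fintype X] [DecidableEq X] [Fintype Z] [DecidableEq Z]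
    {U : Matrix X Z ℤ} {U' : Matrix Z X ℤ} (hU : U * U' = 1) :
    hat (MonoidAlgebra k G) ι U * hat (MonoidAlgebra k G) ι U' = 1 := by
  rw [← hat_mul, hU, hat_one]

/-- the conjugated blown up unit -/
def cju {U : Matrix X Z ℤ} {U' : Matrix Z X ℤ} (hU : U * U' = 1) (hU' : U' * U = 1)
    (w : (Matrix ι ι (MonoidAlgebra k G))ˣ) :
    (Matrix (ι × Z) (ι × Z) (MonoidAlgebra k G))ˣ where
  val := hat (MonoidAlgebra k G) ι U' * bw (X := X) w *
    hat (MonoidAlgebra k G) ι U
  inv := hat (MonoidAlgebra k G) ι U' * bw (X := X) w⁻¹ *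
    hat (MonoidAlgebra k G) ι U
  val_inv := by
    calc hat (MonoidAlgebra k G) ι U' * bw (X := X) w *
          hat (MonoidAlgebra k G) ι U * (hat (MonoidAlgebra k G) ι U' *
          bw (X := X) w⁻¹ * hat (MonoidAlgebra k G) ι U)
        = hat (MonoidAlgebra k G) ι U' * bw (X := X) w *
          (hat (MonoidAlgebra k G) ι U * hat (MonoidAlgebra k G) ι U') *
          bw (X := X) w⁻¹ * hat (MonoidAlgebra k G) ι U := by
          simp only [Matrix.mul_assoc]
      _ = hat (MonoidAlgebra k G) ι U' * (bw (X := X) w *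
          bw (X := X) w⁻¹) * hat (MonoidAlgebra k G) ι U := by
          rw [hat_inv hU, Matrix.mul_one, Matrix.mul_assoc (hat (MonoidAlgebra k G) ι U')]
      _ = 1 := by
          rw [bw_inv, Matrix.mul_one, ← hat_mul, hU', hat_one]
  inv_val := by
    calc hat (MonoidAlgebra k G) ι U' * bw (X := X) w⁻¹ *
          hat (MonoidAlgebra k G) ι U * (hat (MonoidAlgebra k G) ι U' *
          bw (X := X) w * hat (MonoidAlgebra k G) ι U)
        = hat (MonoidAlgebra k G) ι U' * bw (X := X) w⁻¹ *
          (hat (MonoidAlgebra k G) ι U * hat (MonoidAlgebra k G) ι U') *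
          bw (X := X) w * hat (MonoidAlgebra k G) ι U := by
          simp only [Matrix.mul_assoc]
      _ = hat (MonoidAlgebra k G) ι U' * (bw (X := X) w⁻¹ *
          bw (X := X) w) * hat (MonoidAlgebra k G) ι U := by
          rw [hat_inv hU, Matrix.mul_one, Matrix.mul_assoc (hat (MonoidAlgebra k G) ι U')]
      _ = 1 := by
          rw [bw_inv', Matrix.mul_one, ← hat_mul, hU', hat_one]

theorem cju_inv {U : Matrix X Z ℤ} {U' : Matrix Z X ℤ} (hU : U * U' = 1) (hU' : U' * U = 1)
    (w : (Matrix ι ι (MonoidAlgebra k G))ˣ) : (cju hU hU' w)⁻¹ = cju hU hU' w⁻¹ := by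
  apply Units.ext
  rfl

theorem cju_apply {U : Matrix X Z ℤ} {U' : Matrix Z X ℤ} (hU : U * U' = 1) (hU' : U' * U = 1)
    (w : (Matrix ι ι (MonoidAlgebra k G))ˣ) (p q : ι × Z) :
    (cju hU hU' w : Matrix (ι × Z) (ι × Z) (MonoidAlgebra k G)) p q =
      tw (fun g => U' * pm X g * U) p.2 q.2 ((w : Matrix ι ι (MonoidAlgebra k G)) p.1 q.1) := by
  rw [← conj_entry]
  show (hat (MonoidAlgebra k G) ι U' * bw (X := X) w *
    hat (MonoidAlgebra k G) ι U) p q = _
  rw [Matrix.mul_assoc, Matrix.mul_apply, Fintype.sum_prod_type, Finset.sum_eq_single p.1]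
  · refine Finset.sum_congr rfl fun x' _ => ?_
    rw [Matrix.mul_apply, Fintype.sum_prod_type, Finset.sum_eq_single q.1]
    · rw [Finset.mul_sum]
      refine Finset.sum_congr rfl fun y' _ => ?_
      unfold hat
      simp only [Matrix.of_apply, if_true]
      rw [mul_assoc]
      rfl
    · intro j _ hj
      refine Finset.sum_eq_zero fun y' _ => ?_
      unfold hat
      simp [hj]
    · intro h; exact absurd (Finset.mem_univ _) h
  · intro j _ hj
    refine Finset.sum_eq_zero fun x' _ => ?_
    have : hat (MonoidAlgebra k G) ι U' p (j, x') = 0 := by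
      unfold hat
      simp [Ne.symm hj]
    rw [this, zero_mul]
  · intro h; exact absurd (Finset.mem_univ _) h

theorem cju_val {U : Matrix X Z ℤ} {U' : Matrix Z X ℤ} (hU : U * U' = 1) (hU' : U' * U = 1)
    (w : (Matrix ι ι (MonoidAlgebra k G))ˣ) :
    (cju hU hU' w : Matrix (ι × Z) (ι × Z) (MonoidAlgebra k G)) =
      hat (MonoidAlgebra k G) ι U' * bw (X := X) w * hat (MonoidAlgebra k G) ι U := rfl

theorem cl_cju {U : Matrix X Z ℤ} {U' : Matrix Z X ℤ} (hU : U * U' = 1) (hU' : U' * U = 1)
    (w : (Matrix ι ι (MonoidAlgebra k G))ˣ) : cl (cju hU hU' w) = yy X w := by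
  rw [yy_eq]
  symm
  have h3 : bw (X := X) w * hat (MonoidAlgebra k G) ι U =
      hat (MonoidAlgebra k G) ι U *
        (cju hU hU' w : Matrix (ι × Z) (ι × Z) (MonoidAlgebra k G)) := by
    rw [cju_val, ← Matrix.mul_assoc, ← Matrix.mul_assoc, hat_inv hU, Matrix.one_mul]
  exact cl_rect (S := MonoidAlgebra k G) (blow (th G X) w) (cju hU hU' w) _ _ (hat_inv hU) (hat_inv hU') h3

end main

section cp

variable {k : Type} [CommRing k] {G : Type} [Group G]

/-- **Comparison of permutation modules in characteristic `p`.** -/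
theorem yy_compare_cp (p : ℕ) (hp : p.Prime) [CharP k p] {X Y : Type} [MulAction G X] [Fintype X]
    [DecidableEq X] [MulAction G Y] [Fintype Y] [DecidableEq Y] (P : Matrix X Y ℤ)
    (Q : Matrix Y X ℤ) (δ : ℕ) (hδ : 0 < δ) (h1 : P * Q = (δ : Matrix X X ℤ))
    (h2 : Q * P = (δ : Matrix Y Y ℤ)) (h3 : ∀ (g : G) x y, P (g • x) (g • y) = P x y)
    {ι : Type} [Fintype ι] [DecidableEq ι] (w : (Matrix ι ι (MonoidAlgebra k G))ˣ) :
    yy X w = yy Y w := by
  have hpF : Fact p.Prime := ⟨hp⟩
  obtain ⟨Z, _, _, U, U', V, V', d, hU, hU', hV, hV', hd, hP⟩ :=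
    Pool.Agent.Y563.SL.snf X Y P Q δ hδ h1 h2
  let a : Z → ℕ := fun z => padicValInt p (d z)
  let r1 : G → Matrix Z Z ℤ := fun g => U' * pm X g * U
  let r2 : G → Matrix Z Z ℤ := fun g => V * pm Y g * V'
  have hr : ∀ g x y, r1 g x y * d y = d x * r2 g x y := by
    intro g x y
    have e1 : r1 g * Matrix.diagonal d = Matrix.diagonal d * r2 g := by
      have e2 := pm_intertwine P h3 g
      have e3 : U' * (pm X g * P) * V' = U' * (P * pm Y g) * V' := by rw [e2]
      rw [hP] at e3
      have e4 : U' * (pm X g * (U * Matrix.diagonal d * V)) * V' =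
          U' * pm X g * U * Matrix.diagonal d * (V * V') := by
        simp only [Matrix.mul_assoc]
      have e5 : U' * (U * Matrix.diagonal d * V * pm Y g) * V' =
          (U' * U) * Matrix.diagonal d * (V * pm Y g * V') := by
        simp only [Matrix.mul_assoc]
      rw [e4, e5, hV, hU', Matrix.mul_one, Matrix.one_mul] at e3
      exact e3
    have e6 := congrFun (congrFun e1 x) y
    rwa [Matrix.mul_diagonal, Matrix.diagonal_mul] at e6
  have hcast : ∀ n : ℤ, (p : ℤ) ∣ n → ((n : ℤ) : k) = 0 := fun n hn =>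
    (CharP.intCast_eq_zero_iff k p n).2 hn
  have z1 : ∀ (w : (Matrix ι ι (MonoidAlgebra k G))ˣ) (x y : ι × Z), a y.2 < a x.2 →
      (cju hU hU' w : Matrix (ι × Z) (ι × Z) (MonoidAlgebra k G)) x y = 0 := by
    intro w x y hxy
    rw [cju_apply]
    apply tw_zero
    intro g
    apply hcast
    exact dvd_of_val hp (hd x.2) (hd y.2) (hr g x.2 y.2) hxy
  have z2 : ∀ (w : (Matrix ι ι (MonoidAlgebra k G))ˣ) (x y : ι × Z), a x.2 < a y.2 →
      (cju hV' hV w : Matrix (ι × Z) (ι × Z) (MonoidAlgebra k G)) x y = 0 := by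
    intro w x y hxy
    rw [cju_apply]
    apply tw_zero
    intro g
    apply hcast
    have := hr g x.2 y.2
    exact dvd_of_val hp (hd y.2) (hd x.2) (b := r1 g x.2 y.2) (by
      show r2 g x.2 y.2 * d x.2 = d y.2 * r1 g x.2 y.2
      rw [mul_comm, ← this, mul_comm]) hxy
  rw [← cl_cju (G := G) (X := X) hU hU' w, ← cl_cju (G := G) (X := Y) hV' hV w]
  -- conjugation by the prime-to-`p` parts
  have hd' : ∀ z, ∃ e f : ℤ, d z = (p : ℤ) ^ a z * e ∧ ((e : ℤ) : k) * ((f : ℤ) : k) = 1 := by
    intro z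
    obtain ⟨e, he⟩ : (p : ℤ) ^ a z ∣ d z := (padicValInt_dvd_iff _ _).2 (Or.inr le_rfl)
    have hpe : ¬ (p : ℤ) ∣ e := by
      rintro ⟨f, hf⟩
      have h5 : (p : ℤ) ^ (a z + 1) ∣ d z := ⟨f, by rw [he, hf, pow_succ]; ring⟩
      rcases (padicValInt_dvd_iff _ _).1 h5 with h6 | h6
      · exact hd z h6
      · exact absurd h6 (by show ¬ (a z + 1 ≤ a z); omega)
    have hco : IsCoprime e (p : ℤ) := by
      rw [isCoprime_comm]
      exact (Prime.coprime_iff_not_dvd (Nat.prime_iff_prime_int.1 hp)).2 hpe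
    obtain ⟨f, g, hfg⟩ := hco
    refine ⟨e, f, he, ?_⟩
    have h6 := congrArg (Int.cast : ℤ → k) hfg
    push_cast at h6
    rw [CharP.cast_eq_zero k p, mul_zero, add_zero] at h6
    rw [mul_comm]
    exact h6
  choose e f he hef using hd'
  let E : (Matrix (ι × Z) (ι × Z) (MonoidAlgebra k G))ˣ :=
    { val := Matrix.diagonal fun x => single 1 ((e x.2 : ℤ) : k)
      inv := Matrix.diagonal fun x => single 1 ((f x.2 : ℤ) : k)
      val_inv := by
        rw [Matrix.diagonal_mul_diagonal, ← Matrix.diagonal_one]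
        congr 1
        funext i
        rw [single_mul_single, one_mul, hef, one_def]
      inv_val := by
        rw [Matrix.diagonal_mul_diagonal, ← Matrix.diagonal_one]
        congr 1
        funext i
        rw [single_mul_single, one_mul, mul_comm, hef, one_def] }
  have hfin : dg (fun x : ι × Z => a x.2)
      (cju hU hU' w : Matrix (ι × Z) (ι × Z) (MonoidAlgebra k G)) *
        Matrix.diagonal (fun x : ι × Z => (single 1 ((e x.2 : ℤ) : k) : MonoidAlgebra k G)) =
      Matrix.diagonal (fun x : ι × Z => (single 1 ((e x.2 : ℤ) : k) : MonoidAlgebra k G)) *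
        dg (fun x : ι × Z => a x.2)
          (cju hV' hV w : Matrix (ι × Z) (ι × Z) (MonoidAlgebra k G)) := by
    ext ⟨i, x⟩ ⟨j, y⟩ : 1
    rw [Matrix.mul_diagonal, Matrix.diagonal_mul]
    unfold dg
    rw [Matrix.of_apply, Matrix.of_apply]
    by_cases hxy : a x = a y
    swap
    · rw [if_neg hxy, if_neg hxy, mul_zero, zero_mul]
    rw [if_pos hxy, if_pos hxy, cju_apply, cju_apply]
    show tw r1 x y ((w : Matrix ι ι (MonoidAlgebra k G)) i j) * single 1 _ =
      single 1 _ * tw r2 x y ((w : Matrix ι ι (MonoidAlgebra k G)) i j)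
    generalize (w : Matrix ι ι (MonoidAlgebra k G)) i j = b
    induction b using MonoidAlgebra.induction_linear with
    | zero => simp
    | add b b' hb hb' => rw [map_add, map_add, add_mul, hb, hb', mul_add]
    | single g c =>
      rw [tw_single, tw_single, single_mul_single, single_mul_single, one_mul, mul_one]
      congr 1
      have h6 : r1 g x y * e y = e x * r2 g x y := by
        have h7 := hr g x y
        rw [he x, he y, hxy] at h7
        have h8 : ((p : ℤ) ^ a y) ≠ 0 := pow_ne_zero _ (by exact_mod_cast hp.ne_zero)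
        apply mul_left_cancel₀ h8
        linarith
      have h9 : ((r1 g x y : ℤ) : k) * (e y : k) = (e x : k) * ((r2 g x y : ℤ) : k) := by
        exact_mod_cast congrArg (Int.cast : ℤ → k) h6
      linear_combination c * h9
  exact cl_two (S := MonoidAlgebra k G) (fun x : ι × Z => a x.2) (cju hU hU' w) (cju hV' hV w) E
    (z1 w) (z1 w⁻¹) (z2 w) (z2 w⁻¹) hfin

/-- Artin induction for `K₁(R[G])`, `R` of prime characteristic. -/
theorem artin_cp (p : ℕ) (hp : p.Prime) [CharP k p] {G : Type} [Group G] [Finite G]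
    (x : K1 (MonoidAlgebra k G)) :
    ∃ m : ℕ, 0 < m ∧ m • x ∈ cyc k G := by
  obtain ⟨N, w, rfl⟩ := K1_exists x
  obtain ⟨n, m, B, B', s, hs, ⟨l₁, l₂, hl₁, hl₂, hB, hB'⟩, f1, d1, f2, d2, P, Q, δ, hδ, h1, h2, h3⟩ :=
    artin_matrix G
  have h := yy_compare_cp p hp P Q δ hδ h1 h2 h3 w
  refine ⟨s, hs, ?_⟩
  have e1 : ∀ (n : ℕ) (B : Fin n → Subgroup G), yy (XX B) w =
      ((List.ofFn B).map fun C => yy (G ⧸ C) w).sum := by
    intro n B
    rw [yy_XX, List.map_ofFn, List.sum_ofFn]
    rfl
  rw [e1, e1, hB, hB'] at h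
  rw [List.map_append, List.sum_append, List.map_replicate, List.sum_replicate] at h
  have e2 : yy (G ⧸ (⊤ : Subgroup G)) w = cl w := by
    have : Subsingleton (G ⧸ (⊤ : Subgroup G)) := QuotientGroup.subsingleton_quotient_top
    let _ : Unique (G ⧸ (⊤ : Subgroup G)) :=
      ⟨⟨((1 : G) : G ⧸ (⊤ : Subgroup G))⟩, fun _ => Subsingleton.elim _ _⟩
    exact yy_point w
  rw [e2] at h
  have h4 : s • cl w = (l₂.map fun C => yy (G ⧸ C) w).sum -
      (l₁.map fun C => yy (G ⧸ C) w).sum := by
    rw [← h]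
    abel
  rw [h4]
  exact AddSubgroup.sub_mem _ (list_mem_cyc w l₂ hl₂) (list_mem_cyc w l₁ hl₁)

end cp

end

end Pool.Agent.E14.CP
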