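import Pool.Agent.E14.CP.Sw2

/-!
# Artin induction for `K₁(R[G])`, `R` any commutative ring
-/

namespace Pool.Agent.E14.CP

open H970SH MonoidAlgebra Pool.Agent.Y69.TK.ArtK
open H842 (cl cl_mul cl_one cl_inv cl_congr blow blow_apply K1_exists XX artin_matrix)
open Pool.Agent.Y778.SL (hat hat_mul hat_one pm pm_intertwine dvd_of_val)

noncomputable section

variable {k : Type} [CommRing k] {G : Type} [Group G]

/-- the permutation representation -/
def pmHom (X : Type) [Fintype X] [DecidableEq X] [MulAction G X] : G →* Matrix X X ℤ where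
  toFun g := pm X g
  map_one' := by
    ext x y
    unfold pm
    rw [Matrix.of_apply, one_smul, Matrix.one_apply]
    simp only [eq_comm]
  map_mul' g h := by
    ext x z
    rw [Matrix.mul_apply, Finset.sum_eq_single (h • z)]
    · unfold pm
      simp only [Matrix.of_apply, mul_smul]
      split_ifs <;> simp
    · intro b _ hb
      unfold pm
      simp [Ne.symm hb]
    · simp

theorem Phi_pm (X : Type) [Fintype X] [DecidableEq X] [MulAction G X] {ι : Type} [Fintype ι]
    [DecidableEq ι] (w : (Matrix ι ι (MonoidAlgebra k G))ˣ) :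
    Phi (pmHom X) (cl w) = yy X w := by
  have h0 : (twHom (pmHom X) : MonoidAlgebra k G →+* _) = th G X := ?_
  · rw [Phi_cl, yy_eq, h0]
  apply RingHom.ext
  intro a
  ext x y : 1
  refine twHom_ext (twE (pmHom X) x y)
    { toFun := fun a => th G X a x y
      map_zero' := by rw [map_zero]; rfl
      map_add' := fun a b => by rw [map_add]; rfl } (fun g c => ?_) a
  show twHom (pmHom X) (single g c) x y = th G X (single g c) x y
  rw [twHom_single, th_single]
  show single g (c * ((pm X g x y : ℤ) : k)) = _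
  unfold pm
  rw [Matrix.of_apply]
  split_ifs
  · rw [Int.cast_one, mul_one]
  · rw [Int.cast_zero, mul_zero, single_zero]

/-- rationally equivalent permutation representations -/
theorem perm_sq {X Y : Type} [Fintype X] [DecidableEq X] [MulAction G X] [Fintype Y]
    [DecidableEq Y] [MulAction G Y] (P : Matrix X Y ℤ) (Q : Matrix Y X ℤ) (δ : ℕ) (hδ : 0 < δ)
    (h1 : P * Q = (δ : Matrix X X ℤ)) (h2 : Q * P = (δ : Matrix Y Y ℤ))
    (h3 : ∀ (g : G) x y, P (g • x) (g • y) = P x y) (z : K1 (MonoidAlgebra k G)) :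
    Phi (pmHom Y) (Phi (pmHom Y) z - Phi (pmHom X) z) -
      Phi (pmHom X) (Phi (pmHom Y) z - Phi (pmHom X) z) = 0 := by
  obtain ⟨Z, _, _, U, U', V, V', d, hU, hU', hV, hV', hd, hP⟩ :=
    Pool.Agent.Y563.SL.snf X Y P Q δ hδ h1 h2
  have hr : ∀ (g : G) (x y : Z), (U' * pm X g * U) x y * d y = d x * (V * pm Y g * V') x y := by
    intro g x y
    have e1 : (U' * pm X g * U) * Matrix.diagonal d = Matrix.diagonal d * (V * pm Y g * V') := by
      have e2 := pm_intertwine P h3 g
      have e3 : U' * (pm X g * P) * V' = U' * (P * pm Y g) * V' := by rw [e2]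
      rw [hP] at e3
      have e4 : U' * (pm X g * (U * Matrix.diagonal d * V)) * V' =
          U' * pm X g * U * Matrix.diagonal d * (V * V') := by
        simp only [Matrix.mul_assoc]
      have e5 : U' * (U * Matrix.diagonal d * V * pm Y g) * V' =
          (U' * U) * Matrix.diagonal d * (V * pm Y g * V') := by
        simp only [Matrix.mul_assoc]
      rw [e4, e5, hV, hU', Matrix.mul_one, Matrix.one_mul] at e3
      exact e3
    have e6 := congrFun (congrFun e1 x) y
    rwa [Matrix.mul_diagonal, Matrix.diagonal_mul] at e6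
  let r : G →* Matrix Z Z ℤ := cnj (pmHom X) U U' hU hU'
  let S : Matrix Z Z ℤ := Matrix.diagonal fun z => (d z).sign
  have hs1 : ∀ z, (d z).sign * (d z).sign = 1 := fun z => by
    rcases lt_or_gt_of_ne (hd z) with h | h
    · rw [Int.sign_eq_neg_one_of_neg h]; rfl
    · rw [Int.sign_eq_one_of_pos h]; rfl
  have hSS : S * S = 1 := by
    show Matrix.diagonal _ * Matrix.diagonal _ = 1
    rw [Matrix.diagonal_mul_diagonal, ← Matrix.diagonal_one]
    congr 1
    funext z
    exact hs1 z
  have hW : (V' * S) * (S * V) = 1 := by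
    calc (V' * S) * (S * V) = V' * (S * S) * V := by simp only [Matrix.mul_assoc]
      _ = 1 := by rw [hSS, Matrix.mul_one, hV']
  have hW' : (S * V) * (V' * S) = 1 := by
    calc (S * V) * (V' * S) = S * (V * V') * S := by simp only [Matrix.mul_assoc]
      _ = 1 := by rw [hV, Matrix.mul_one, hSS]
  let s : G →* Matrix Z Z ℤ := cnj (pmHom Y) (V' * S) (S * V) hW hW'
  have hs : ∀ (g : G) (x y : Z), (((d x).natAbs : ℕ) : ℤ) * s g x y = r g x y * (((d y).natAbs : ℕ) : ℤ) := by
    intro g x y
    have e1 : s g x y = (d x).sign * (V * pm Y g * V') x y * (d y).sign := by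
      show ((S * V) * pm Y g * (V' * S)) x y = _
      have : (S * V) * pm Y g * (V' * S) = S * (V * pm Y g * V') * S := by
        simp only [Matrix.mul_assoc]
      rw [this]
      show ((Matrix.diagonal (fun z => (d z).sign) : Matrix Z Z ℤ) * (V * pm Y g * V') *
        Matrix.diagonal (fun z => (d z).sign)) x y = _
      rw [Matrix.mul_diagonal, Matrix.diagonal_mul]
    have e2 : (((d x).natAbs : ℕ) : ℤ) * (d x).sign = d x := by
      rw [mul_comm]; exact Int.sign_mul_natAbs (d x)
    have e3 : (((d y).natAbs : ℕ) : ℤ) = d y * (d y).sign := by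
      have h5 : (d y).sign * (((d y).natAbs : ℕ) : ℤ) = d y := Int.sign_mul_natAbs (d y)
      calc (((d y).natAbs : ℕ) : ℤ) = ((d y).sign * (d y).sign) * (((d y).natAbs : ℕ) : ℤ) := by
            rw [hs1, one_mul]
        _ = (d y).sign * ((d y).sign * (((d y).natAbs : ℕ) : ℤ)) := by ring
        _ = d y * (d y).sign := by rw [h5]; ring
    have e4 := hr g x y
    rw [e1, e3]
    show _ = (U' * pm X g * U) x y * (d y * (d y).sign)
    generalize (U' * pm X g * U) x y = M at *
    generalize (V * pm Y g * V') x y = W at *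
    linear_combination (W * (d y).sign) * e2 - (d y).sign * e4
  have hst : Stb r (fun z => (d z).natAbs) :=
    Stb.of r _ (fun z => Int.natAbs_pos.2 (hd z)) s hs
  have hcj : cj r _ hst = s := cj_eq r _ hst s hs
  have hK : ∀ z : K1 (MonoidAlgebra k G), Kap r _ hst z = Phi (pmHom Y) z - Phi (pmHom X) z := by
    intro z
    unfold Kap
    rw [hcj]
    show Phi (cnj (pmHom Y) _ _ hW hW') z - Phi (cnj (pmHom X) U U' hU hU') z = _
    rw [Phi_cnj, Phi_cnj]
  have h := Kap_mul_zero r r _ _ hst hst z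
  rw [hK, hK] at h
  exact h

/-- **Artin induction for `K₁(R[G])`**, `R` any commutative ring, `G` a finite group. -/
theorem artin_gen [Finite G] (x : K1 (MonoidAlgebra k G)) :
    ∃ m : ℕ, 0 < m ∧ m • x ∈ cyc k G := by
  obtain ⟨n, m, B, B', s, hs, ⟨l₁, l₂, hl₁, hl₂, hB, hB'⟩, f1, d1, f2, d2, P, Q, δ, hδ, h1, h2, h3⟩ :=
    artin_matrix G
  have h := perm_sq (k := k) P Q δ hδ h1 h2 h3 x
  have e1 : ∀ {N : ℕ} (w : (Matrix (Fin N) (Fin N) (MonoidAlgebra k G))ˣ) (n : ℕ)
      (B : Fin n → Subgroup G), yy (XX B) w = ((List.ofFn B).map fun C => yy (G ⧸ C) w).sum := by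
    intro N w n B
    rw [yy_XX, List.map_ofFn, List.sum_ofFn]
    rfl
  have e2 : ∀ z : K1 (MonoidAlgebra k G), Phi (pmHom (XX B')) z ∈ cyc k G := by
    intro z
    obtain ⟨N, w, rfl⟩ := K1_exists z
    rw [Phi_pm, e1, hB']
    exact list_mem_cyc w l₂ hl₂
  have e3 : ∀ z : K1 (MonoidAlgebra k G), Phi (pmHom (XX B)) z - s • z ∈ cyc k G := by
    intro z
    obtain ⟨N, w, rfl⟩ := K1_exists z
    have e4 : yy (G ⧸ (⊤ : Subgroup G)) w = cl w := by
      have : Subsingleton (G ⧸ (⊤ : Subgroup G)) := QuotientGroup.subsingleton_quotient_top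
      let _ : Unique (G ⧸ (⊤ : Subgroup G)) :=
        ⟨⟨((1 : G) : G ⧸ (⊤ : Subgroup G))⟩, fun _ => Subsingleton.elim _ _⟩
      exact yy_point w
    rw [Phi_pm, e1, hB, List.map_append, List.sum_append, List.map_replicate,
      List.sum_replicate, e4, add_sub_cancel_left]
    exact list_mem_cyc w l₁ hl₁
  refine ⟨s * s, Nat.mul_pos hs hs, ?_⟩
  have e5 := e3 x
  have e6 := e3 (Phi (pmHom (XX B')) x - Phi (pmHom (XX B)) x)
  have e7 := e2 (Phi (pmHom (XX B')) x - Phi (pmHom (XX B)) x)
  have e8 := e2 x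
  generalize Phi (pmHom (XX B')) (Phi (pmHom (XX B')) x - Phi (pmHom (XX B)) x) = a at h e7
  generalize Phi (pmHom (XX B)) (Phi (pmHom (XX B')) x - Phi (pmHom (XX B)) x) = b at h e6
  generalize Phi (pmHom (XX B')) x = c at *
  generalize Phi (pmHom (XX B)) x = d at *
  have e9 : (s * s) • x = (b - s • (c - d)) - a + s • c - s • (d - s • x) + (a - b) := by
    rw [smul_sub, smul_sub, mul_smul]
    abel
  rw [e9, h, add_zero]
  exact AddSubgroup.sub_mem _ (AddSubgroup.add_mem _ (AddSubgroup.sub_mem _ e6 e7)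
    (AddSubgroup.nsmul_mem _ e8 s)) (AddSubgroup.nsmul_mem _ e5 s)

end

end Pool.Agent.E14.CP
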