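import Pool.Agent.E14.CP.Val
import Pool.Agent.E14.CP.Sw3

/-!
# Combination of values; the part of determinant one
-/

open Matrix

namespace Pool.Agent.E14.CP

open H970SH MonoidAlgebra Pool.Agent.Y69 Pool.Agent.Y69.Main Pool.Agent.Y69.TK.Dsc
  Pool.Agent.Y69.StepC Pool.Agent.Y69.Thy Pool.Agent.Y69.Uni
open Pool.Agent.Y69.Tra (nrm)
open H842 hiding ps psHom ps_of ps_th

noncomputable section

section comb

variable {A : Type} [CommRing A] {E : ℕ} {I : Type} (V : I → Val A E)

/-- the combined ring of values -/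
abbrev LmV : Type := ∀ i, (V i).Λ

/-- the combined values -/
def bV {C : Type} [CommGroup C] (u : (MonoidAlgebra A C)ˣ) (c : C) : LmV V := fun i => (V i).b u c

/-- the theory of units of group rings -/
def vtheory (ht : ∀ {C : Type} [CommGroup C] [Finite C], Nat.card C ∣ E →
    ∀ u : (MonoidAlgebra A C)ˣ, (∀ i c, (V i).b u c = 0) → ∃ N : ℕ, 0 < N ∧ u ^ N = 1) :
    Theory (LmV V) E where
  U C _ := Additive (MonoidAlgebra A C)ˣ
  grp C _ := inferInstance
  map f := umap A f
  b u := bV V u.toMul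
  b_add := by
    intro C _ _ hC u v
    funext c i
    exact (V i).b_mul hC u.toMul v.toMul c
  b_map := by
    intro C D _ _ _ _ hD f hf u c
    funext i
    exact (V i).b_map hD f hf u.toMul c
  b_map_not := by
    intro C D _ _ _ _ hD f hf u d hd
    funext i
    exact (V i).b_map_not hD f hf u.toMul d hd
  res := by
    intro C _ _ hC D u
    classical
    have : Fintype (C ⧸ D) := Fintype.ofFinite _
    refine ⟨Fintype.card (C ⧸ D), Additive.ofMul (Units.map (nrm A D) u.toMul),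
      Fintype.card_pos, ?_⟩
    intro d
    funext i
    exact (V i).b_nrm hC D u.toMul d
  tors := by
    intro C _ _ hC u hu
    obtain ⟨N, hN, h1⟩ := ht hC u.toMul (fun i c => congrFun (congrFun hu c) i)
    refine ⟨N, hN, ?_⟩
    apply Additive.toMul.injective
    rw [toMul_nsmul, toMul_zero]
    exact h1

/-- the traces -/
def TV {G : Type} [Group G] (h : G → ℤ) : K1 (MonoidAlgebra A G) →+ LmV V := by
  classical
  exact if hh : ∀ x y, h (x * y) = h (y * x) then
    AddMonoidHom.pi fun i : I => (V i).T h hh else 0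

theorem TV_unit {G : Type} [Group G] (h : G → ℤ) (hh : ∀ x y, h (x * y) = h (y * x)) (C : Type)
    [CommGroup C] [Fintype C] (hC : Nat.card C ∣ E) (φ : C →* G)
    (u : Additive (MonoidAlgebra A C)ˣ) :
    TV V h (cl (mapUnit (mapDomainRingHom A φ) (unit1 u.toMul))) =
      ∑ c, bV V u.toMul c * ((h (φ c) : ℤ) : LmV V) := by
  unfold TV
  rw [dif_pos hh]
  funext i
  show (V i).T h hh _ = _
  rw [(V i).T_unit h hh hC φ u.toMul, Finset.sum_apply]
  rfl

/-- **Separation.** -/
theorem sepV (ht : ∀ {C : Type} [CommGroup C] [Finite C], Nat.card C ∣ E →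
    ∀ u : (MonoidAlgebra A C)ˣ, (∀ i c, (V i).b u c = 0) → ∃ N : ℕ, 0 < N ∧ u ^ N = 1) {G : Type}
    [Group G] {y : K1Colim A G} (hy : y ∈ SE A G E)
    (h0 : ∀ h : G → ℤ, TV V h (K1assembly A G y) = 0) : ∃ k : ℕ, 0 < k ∧ k • y = 0 := by
  refine Theory.main (S := vtheory V ht) (G := G) (𝒜 := K1Colim A G)
    (fun {C} _ _ φ => sym A φ) ?_ (fun h => (TV V h).comp (K1assembly A G)) ?_ hy
    (fun h _ => h0 h)
  · intro C D _ _ _ _ φ ψ f g h u
    exact sym_map A φ ψ f g h u
  · intro h hh C _ _ hC φ u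
    exact (congrArg (TV V h) (assembly_sym A φ u)).trans (TV_unit V h hh C hC φ u)

end comb

/-! ### the part of determinant one -/

section sk

variable (A : Type) [CommRing A] (G : Type) [Group G]

/-- the classes of determinant one of the finite cyclic groups -/
def SKc : AddSubgroup (K1Colim A G) := AddSubgroup.closure
  {z | ∃ (C : Type) (_ : CommGroup C) (_ : Finite C) (_ : IsCyclic C) (H : FinSub G) (φ : C →* H.1)
    (_ : Function.Injective φ) (n : ℕ) (M : (Matrix (Fin n) (Fin n) (MonoidAlgebra A C))ˣ),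
    DT.detU M = 1 ∧ z = Colim.ι _ _ H (cl (mapUnit (mapDomainRingHom A φ) M))}

variable {A G}

theorem TV_sk {E : ℕ} {I : Type} (V : I → Val A E) (h : G → ℤ) {z : K1Colim A G}
    (hz : z ∈ SKc A G) : TV V h (K1assembly A G z) = 0 := by
  unfold SKc at hz
  induction hz using AddSubgroup.closure_induction with
  | mem z hz =>
    obtain ⟨C, _, _, _, H, φ, hφ, n, M, hM, rfl⟩ := hz
    rw [K1assembly_ι, K1map_cl, mapUnit_mapUnit]
    have h1 : (mapDomainRingHom A H.1.subtype).comp (mapDomainRingHom A φ) =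
        mapDomainRingHom A (H.1.subtype.comp φ) := by
      apply RingHom.coe_addMonoidHom_injective
      apply addMonoidHom_ext
      intro m r
      show mapDomainRingHom A _ (mapDomainRingHom A _ (single m r)) =
        mapDomainRingHom A _ (single m r)
      rw [mapDomainRingHom_apply, mapDomainRingHom_apply, mapDomainRingHom_apply,
        mapDomain_single, mapDomain_single, mapDomain_single]
      rfl
    rw [h1]
    unfold TV
    split_ifs with hh
    · funext i
      exact (V i).T_sk h hh _ M hM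
    · rfl
  | zero => rw [map_zero, map_zero]
  | add x y _ _ hx hy => rw [map_add, map_add, hx, hy, add_zero]
  | neg x _ hx => rw [map_neg, map_neg, hx, neg_zero]

theorem cmap_SK {B : Type} [CommRing B] (f : A →+* B) {y : K1Colim A G} (hy : y ∈ SKc A G) :
    cmap f y ∈ SKc B G := by
  unfold SKc at hy
  induction hy using AddSubgroup.closure_induction with
  | mem y hy =>
    obtain ⟨C, i1, i2, i3, H, φ, hφ, n, M, hM, rfl⟩ := hy
    rw [cmap_ι, K1map_cl, mapUnit_mapUnit, mapRing_mapDomain, ← mapUnit_mapUnit]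
    refine AddSubgroup.subset_closure ⟨C, i1, i2, i3, H, φ, hφ, n, _, ?_, rfl⟩
    rw [detU_map, hM, map_one]
  | zero => rw [map_zero]; exact AddSubgroup.zero_mem _
  | add x y _ _ hx hy => rw [map_add]; exact AddSubgroup.add_mem _ hx hy
  | neg x _ hx => rw [map_neg]; exact AddSubgroup.neg_mem _ hx

open Filter

theorem ev_SK {k : Type} [CommRing k] (S : Sys k) {y : K1Colim k G} (hy : y ∈ SKc k G) :
    ∀ᶠ t : Finset k in atTop, ∃ y' ∈ SKc (S.A t) G, cmap (S.inA t) y' = y := by
  unfold SKc at hy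
  induction hy using AddSubgroup.closure_induction with
  | mem y hy =>
    obtain ⟨C, i1, i2, i3, H, φ, hφ, n, M, hM, rfl⟩ := hy
    filter_upwards [ev_lift S C M] with t ht
    obtain ⟨M', hM'⟩ := ht
    refine ⟨_, AddSubgroup.subset_closure ⟨C, i1, i2, i3, H, φ, hφ, n, M', ?_, rfl⟩, ?_⟩
    · have h1 := hM
      rw [← hM', detU_map] at h1
      apply Units.ext
      apply inc_injective S C t
      rw [Units.val_one, map_one]
      exact congrArg Units.val h1
    · rw [cmap_ι, K1map_cl, mapUnit_mapUnit, mapRing_mapDomain, ← mapUnit_mapUnit]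
      congr 3
  | zero => exact Eventually.of_forall fun t => ⟨0, AddSubgroup.zero_mem _, map_zero _⟩
  | add x y _ _ hx hy =>
    filter_upwards [hx, hy] with t h1 h2
    obtain ⟨a, ha, rfl⟩ := h1
    obtain ⟨b, hb, rfl⟩ := h2
    exact ⟨a + b, AddSubgroup.add_mem _ ha hb, map_add _ _ _⟩
  | neg x _ hx =>
    filter_upwards [hx] with t h1
    obtain ⟨a, ha, rfl⟩ := h1
    exact ⟨-a, AddSubgroup.neg_mem _ ha, map_neg _ _⟩

/-! ### covering -/

/-- a multiple is the sum of an element of `SE` and an element of the part of determinant one -/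
def Cov2 (z : K1Colim A G) : Prop :=
  ∃ (k E : ℕ) (a : K1Colim A G), 0 < k ∧ 0 < E ∧ a ∈ SKc A G ∧ k • z - a ∈ SE A G E

theorem Cov2.zero : Cov2 (0 : K1Colim A G) :=
  ⟨1, 1, 0, one_pos, one_pos, AddSubgroup.zero_mem _, by
    rw [smul_zero, sub_zero]; exact AddSubgroup.zero_mem _⟩

theorem Cov2.add {x y : K1Colim A G} (hx : Cov2 x) (hy : Cov2 y) : Cov2 (x + y) := by
  obtain ⟨k, E, a, hk, hE, ha, h1⟩ := hx
  obtain ⟨l, F, b, hl, hF, hb, h2⟩ := hy
  refine ⟨k * l, E * F, l • a + k • b, Nat.mul_pos hk hl, Nat.mul_pos hE hF,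
    AddSubgroup.add_mem _ (AddSubgroup.nsmul_mem _ ha l) (AddSubgroup.nsmul_mem _ hb k), ?_⟩
  have h3 : (k * l) • (x + y) - (l • a + k • b) = l • (k • x - a) + k • (l • y - b) := by
    rw [smul_sub, smul_sub, smul_smul, smul_smul, smul_add, mul_comm l k]
    abel
  rw [h3]
  exact AddSubgroup.add_mem _ (AddSubgroup.nsmul_mem _ (SE_mono A (dvd_mul_right E F) h1) l)
    (AddSubgroup.nsmul_mem _ (SE_mono A (dvd_mul_left F E) h2) k)

theorem Cov2.neg {x : K1Colim A G} (hx : Cov2 x) : Cov2 (-x) := by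
  obtain ⟨k, E, a, hk, hE, ha, h1⟩ := hx
  refine ⟨k, E, -a, hk, hE, AddSubgroup.neg_mem _ ha, ?_⟩
  rw [smul_neg, ← neg_sub', sub_eq_add_neg]
  rw [← sub_eq_add_neg]
  exact AddSubgroup.neg_mem _ h1

theorem Cov2.of_nsmul {x : K1Colim A G} (l : ℕ) (hl : 0 < l) (hx : Cov2 (l • x)) : Cov2 x := by
  obtain ⟨k, E, a, hk, hE, ha, h1⟩ := hx
  exact ⟨k * l, E, a, Nat.mul_pos hk hl, hE, ha, by rw [mul_smul]; exact h1⟩

theorem Cov2.of_cov {x : K1Colim A G} (hx : Cov A x) : Cov2 x := by
  obtain ⟨k, E, hk, hE, h1⟩ := hx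
  exact ⟨k, E, 0, hk, hE, AddSubgroup.zero_mem _, by rwa [sub_zero]⟩

theorem Cov2.of_sk {x : K1Colim A G} (hx : x ∈ SKc A G) : Cov2 x :=
  ⟨1, 1, x, one_pos, one_pos, hx, by
    rw [one_smul, sub_self]; exact AddSubgroup.zero_mem _⟩

/-- classes of units -/
theorem cov_unit {H : FinSub G} {C : Type} [CommGroup C] [Finite C] (φ : C →* H.1)
    (hφ : Function.Injective φ) (u : (MonoidAlgebra A C)ˣ) :
    Cov A (Colim.ι _ _ H (cl (mapUnit (mapDomainRingHom A φ) (unit1 u))) : K1Colim A G) := by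
  have hinj : Function.Injective (H.1.subtype.comp φ) := Subtype.val_injective.comp hφ
  have h2 := Cov.sym A (H.1.subtype.comp φ) hinj (Additive.ofMul u)
  -- the inclusion of the image
  have hmem : ∀ y : (rg (H.1.subtype.comp φ)).1, (y : G) ∈ H.1 := by
    rintro ⟨_, x, rfl⟩
    exact (φ x).2
  let θ : (rg (H.1.subtype.comp φ)).1 →* H.1 :=
    { toFun := fun y => ⟨(y : G), hmem y⟩
      map_one' := rfl
      map_mul' := fun y z => rfl }
  have h3 := Colim.ι_rel (G := G) (fun H => K1 (MonoidAlgebra A H))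
    (fun φ => K1map (mapDomainRingHom A φ)) (rg (H.1.subtype.comp φ)) H 1 θ
    (fun y => by
      show (y : G) = 1 * (y : G) * 1⁻¹
      group)
    (cl (mapUnit (mapDomainRingHom A (rrg (H.1.subtype.comp φ))) (unit1 u)))
  rw [sym_apply] at h2
  have h4 : θ.comp (rrg (H.1.subtype.comp φ)) = φ := by
    ext x
    rfl
  rw [K1map_cl, Main.mapUnit_comp, h4] at h3
  rw [h3]
  exact h2

/-- classes of matrices over group rings of cyclic groups -/
theorem cov2_cyc {H : FinSub G} {C : Type} [CommGroup C] [Finite C] [IsCyclic C] (φ : C →* H.1)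
    (hφ : Function.Injective φ) {n : ℕ} (M : (Matrix (Fin n) (Fin n) (MonoidAlgebra A C))ˣ) :
    Cov2 (Colim.ι _ _ H (cl (mapUnit (mapDomainRingHom A φ) M)) : K1Colim A G) := by
  have h1 := Cov2.of_cov (cov_unit (G := G) φ hφ (DT.detU M))
  let e : Fin n ⊕ Unit ≃ Fin (n + 1) :=
    (Equiv.sumCongr (Equiv.refl _) (Equiv.ofUnique Unit (Fin 1))).trans finSumFinEquiv
  let N : (Matrix (Fin (n + 1)) (Fin (n + 1)) (MonoidAlgebra A C))ˣ :=
    reindexUnit e (diagU M (unit1 (DT.detU M)⁻¹))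
  have hN : DT.detU N = 1 := by
    apply Units.ext
    show (N : Matrix (Fin (n + 1)) (Fin (n + 1)) (MonoidAlgebra A C)).det = 1
    rw [reindexUnit_val, Matrix.det_reindex_self, diagU_val, Matrix.det_fromBlocks_zero₂₁]
    have h2 : ((unit1 (DT.detU M)⁻¹ : (Matrix Unit Unit (MonoidAlgebra A C))ˣ) :
        Matrix Unit Unit (MonoidAlgebra A C)).det =
          (((DT.detU M)⁻¹ : (MonoidAlgebra A C)ˣ) : MonoidAlgebra A C) := by
      show (Matrix.of fun _ _ => _ : Matrix Unit Unit (MonoidAlgebra A C)).det = _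
      rw [Matrix.det_unique]
      rfl
    rw [h2]
    exact Units.mul_inv (DT.detU M)
  have h2 : (Colim.ι _ _ H (cl (mapUnit (mapDomainRingHom A φ) N)) : K1Colim A G) ∈ SKc A G :=
    AddSubgroup.subset_closure ⟨C, inferInstance, inferInstance, inferInstance, H, φ, hφ, _, N,
      hN, rfl⟩
  have h3 : cl (mapUnit (mapDomainRingHom A φ) N) = cl (mapUnit (mapDomainRingHom A φ) M) -
      cl (mapUnit (mapDomainRingHom A φ) (unit1 (DT.detU M))) := by
    rw [← K1map_cl, ← K1map_cl, ← K1map_cl, ← map_sub, cl_reindex]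
    congr 1
    have h4 : diagU M (unit1 (DT.detU M)⁻¹) = diagU M (1 : (Matrix Unit Unit (MonoidAlgebra A C))ˣ) *
        diagU (1 : (Matrix (Fin n) (Fin n) (MonoidAlgebra A C))ˣ) (unit1 (DT.detU M)⁻¹) := by
      apply Units.ext
      rw [Units.val_mul, diagU_val, diagU_val, diagU_val, fromBlocks_multiply]
      simp
    have h5 : (unit1 (DT.detU M)⁻¹ : (Matrix Unit Unit (MonoidAlgebra A C))ˣ) =
        (unit1 (DT.detU M))⁻¹ := rfl
    rw [h4, cl_mul, cl_stab, cl_stab', h5, H842.cl_inv, sub_eq_add_neg]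
  have h4 : (Colim.ι _ _ H (cl (mapUnit (mapDomainRingHom A φ) M)) : K1Colim A G) =
      Colim.ι _ _ H (cl (mapUnit (mapDomainRingHom A φ) N)) +
      Colim.ι _ _ H (cl (mapUnit (mapDomainRingHom A φ) (unit1 (DT.detU M)))) := by
    rw [h3, ← Colim.ι_add, sub_add_cancel]
  rw [h4]
  exact Cov2.add (Cov2.of_sk h2) h1

theorem cov2 (z : K1Colim A G) : Cov2 z := by
  induction z using Colim.induction with
  | h0 => exact Cov2.zero
  | hadd x y hx hy => exact Cov2.add hx hy
  | hneg x hx => exact Cov2.neg hx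
  | hι H x =>
    have := H.2
    obtain ⟨m, hm, h1⟩ := artin_gen x
    apply Cov2.of_nsmul m hm
    have h2 : m • (Colim.ι _ _ H x : K1Colim A G) = Colim.ι _ _ H (m • x) :=
      ((Colim.ιHom (G := G) (fun H => K1 (MonoidAlgebra A H))
        (fun φ => K1map (mapDomainRingHom A φ)) H).map_nsmul m _).symm
    rw [h2]
    generalize m • x = y at h1 ⊢
    unfold TK.ArtK.cyc at h1
    induction h1 using AddSubgroup.closure_induction with
    | mem y hy =>
      obtain ⟨C, hC, n, M, rfl⟩ := hy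
      exact @cov2_cyc A _ G _ H C (IsCyclic.commGroup) _ _ C.subtype Subtype.val_injective n M
    | zero =>
      have : (Colim.ι _ _ H (0 : K1 (MonoidAlgebra A H.1)) : K1Colim A G) = 0 :=
        (Colim.ιHom (G := G) (fun H => K1 (MonoidAlgebra A H))
          (fun φ => K1map (mapDomainRingHom A φ)) H).map_zero
      rw [this]
      exact Cov2.zero
    | add x y _ _ hx hy =>
      rw [Colim.ι_add]
      exact Cov2.add hx hy
    | neg x _ hx =>
      have : (Colim.ι _ _ H (-x) : K1Colim A G) = - Colim.ι _ _ H x :=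
        (Colim.ιHom (G := G) (fun H => K1 (MonoidAlgebra A H))
          (fun φ => K1map (mapDomainRingHom A φ)) H).map_neg x
      rw [this]
      exact Cov2.neg hx

end sk

/-! ### the main argument -/

section main

variable {R : Type} [CommRing R] {G : Type} [Group G]

/-- enough values -/
def Enough (A : Type) [CommRing A] : Prop := ∀ E : ℕ, 0 < E → ∃ (I : Type) (V : I → Val A E),
  ∀ {C : Type} [CommGroup C] [Finite C], Nat.card C ∣ E →
    ∀ u : (MonoidAlgebra A C)ˣ, (∀ i c, (V i).b u c = 0) → ∃ N : ℕ, 0 < N ∧ u ^ N = 1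

theorem main_V (S : Sys R) (hS : ∀ t, Enough (S.A t)) (x : K1Colim R G) (n : ℕ) (hn : 0 < n)
    (hx : n • K1assembly R G x = 0) : ∃ l : ℕ, 0 < l ∧ l • x ∈ SKc R G := by
  obtain ⟨m, E, a, hm, hE, ha, h1⟩ := cov2 x
  obtain ⟨s, ⟨y, hy, hyx⟩, ⟨b, hb, hba⟩⟩ := ((ev_SE S G h1).and (ev_SK S ha)).exists
  have h2 : K1map (inc S G s) (n • K1assembly (S.A s) G (y + b)) = 0 := by
    rw [map_nsmul]
    have h3 := assembly_cmap (S.inA s) (y + b)
    rw [map_add, hyx, hba, sub_add_cancel, map_nsmul] at h3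
    show n • K1map (mapRingHom G (S.inA s)) _ = 0
    rw [← h3, smul_smul, mul_comm, mul_smul, hx, smul_zero]
  obtain ⟨t, hst, ht⟩ := descend S G s _ h2
  obtain ⟨I, V, hV⟩ := hS t E hE
  have h4 : n • cmap (S.inAA hst) y ∈ SE (S.A t) G E :=
    AddSubgroup.nsmul_mem _ (cmap_SE _ hy) n
  have hb' : n • cmap (S.inAA hst) b ∈ SKc (S.A t) G :=
    AddSubgroup.nsmul_mem _ (cmap_SK _ hb) n
  obtain ⟨l, hl, h5⟩ := sepV V hV h4 (by
    intro h
    have h6 : TV V h (K1assembly (S.A t) G (n • cmap (S.inAA hst) y + n • cmap (S.inAA hst) b)) =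
        0 := by
      rw [← smul_add, ← map_add, map_nsmul, assembly_cmap, ← map_nsmul (K1map _), ht, map_zero]
    rw [map_add, map_add, TV_sk V h hb', add_zero] at h6
    exact h6)
  have h6 := congrArg (cmap (S.inA t)) h5
  rw [map_nsmul, map_nsmul, map_zero, cmap_cmap, S.comp hst, hyx] at h6
  refine ⟨l * n * m, Nat.mul_pos (Nat.mul_pos hl hn) hm, ?_⟩
  have h7 : (l * n * m) • x = l • (n • (m • x - a)) + (l * n) • a := by
    rw [smul_sub, smul_sub, smul_smul, smul_smul, smul_smul, sub_add_cancel, mul_assoc]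
  rw [h7, h6, zero_add]
  exact AddSubgroup.nsmul_mem _ ha _

end main

end

end Pool.Agent.E14.CP
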