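import Mathlib

/-!
# Specialisation of finitely generated rings
-/

namespace Pool.Agent.E14.CP

open Polynomial

open scoped nonZeroDivisors

noncomputable section

/-- specialisation to a finite extension of a subfield -/
theorem spec {K Ω A : Type} [Field K] [Field Ω] [CommRing A] (κ : K →+* Ω) (s : Finset A)
    (hs : Subring.closure (s : Set A) = ⊤) (f : A →+* Ω) :
    ∃ (L : Type) (_ : Field L) (B : Subring Ω) (q : B →+* L) (_ : ∀ a, f a ∈ B)
      (hK : ∀ x, κ x ∈ B), (q.comp (κ.codRestrict B hK)).Finite := by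
  classical
  let _ : Algebra K Ω := κ.toAlgebra
  let B0 : Subalgebra K Ω := Algebra.adjoin K ((s.image f : Finset Ω) : Set Ω)
  have hfg : Algebra.FiniteType K B0 := (Subalgebra.fg_iff_finiteType _).1 ⟨s.image f, rfl⟩
  obtain ⟨M, hM⟩ := Ideal.exists_maximal B0
  let _ : Field (B0 ⧸ M) := Ideal.Quotient.field M
  have hft : Algebra.FiniteType K (B0 ⧸ M) := Algebra.FiniteType.of_surjective
    (Ideal.Quotient.mkₐ K M) Ideal.Quotient.mk_surjective
  have hfin : Module.Finite K (B0 ⧸ M) := finite_of_finite_type_of_isJacobsonRing K (B0 ⧸ M)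
  have hA : ∀ a, f a ∈ B0.toSubring := by
    intro a
    have h1 : Subring.closure (s : Set A) ≤ B0.toSubring.comap f := by
      rw [Subring.closure_le]
      intro x hx
      show f x ∈ B0
      apply Algebra.subset_adjoin
      rw [Finset.coe_image]
      exact ⟨x, hx, rfl⟩
    rw [hs] at h1
    exact h1 (Subring.mem_top a)
  have hK : ∀ x, κ x ∈ B0.toSubring := fun x => B0.algebraMap_mem x
  refine ⟨B0 ⧸ M, inferInstance, B0.toSubring, (Ideal.Quotient.mk M : B0 →+* B0 ⧸ M), hA, hK, ?_⟩
  have h2 : ((Ideal.Quotient.mk M : B0 →+* B0 ⧸ M).comp (κ.codRestrict B0.toSubring hK)) =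
      algebraMap K (B0 ⧸ M) := rfl
  rw [h2]
  exact RingHom.finite_algebraMap.2 hfin

/-- every nonzero element of the algebraic closure of a finite prime field is a root of unity -/
theorem finite_order (p : ℕ) [Fact p.Prime] (w : AlgebraicClosure (ZMod p)) (hw : w ≠ 0) :
    ∃ N : ℕ, 0 < N ∧ w ^ N = 1 := by
  have hint : IsIntegral (ZMod p) w := (Algebra.IsAlgebraic.isAlgebraic w).isIntegral
  let E : IntermediateField (ZMod p) (AlgebraicClosure (ZMod p)) :=
    IntermediateField.adjoin (ZMod p) {w}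
  have hfd : FiniteDimensional (ZMod p) E := IntermediateField.adjoin.finiteDimensional hint
  have hfin : Finite E := Module.finite_of_finite (ZMod p)
  let x : E := ⟨w, IntermediateField.mem_adjoin_simple_self (ZMod p) w⟩
  have hx : x ≠ 0 := fun h => hw (congrArg Subtype.val h)
  have h1 := isOfFinOrder_of_finite (Units.mk0 x hx)
  obtain ⟨N, hN, h2⟩ := isOfFinOrder_iff_pow_eq_one.1 h1
  refine ⟨N, hN, ?_⟩
  have h3 := congrArg (fun y : Eˣ => ((y : E) : AlgebraicClosure (ZMod p))) h2
  simpa using h3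

/-- integral elements over an algebraically closed field -/
theorem mem_of_int {k Ω : Type} [Field k] [IsAlgClosed k] [Field Ω] (ι : k →+* Ω) (x : Ω)
    (hx : ι.IsIntegralElem x) : ∃ w, ι w = x := by
  let _ : Algebra k Ω := ι.toAlgebra
  have hint : IsIntegral k x := hx
  have h1 := IsAlgClosed.degree_eq_one_of_irreducible k (minpoly.irreducible hint)
  exact minpoly.mem_range_of_degree_eq_one k x h1

/-- embeddings of `𝔽̄ₚ` -/
theorem exists_emb (p : ℕ) [Fact p.Prime] (Ω : Type) [Field Ω] [IsAlgClosed Ω] [CharP Ω p] :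
    Nonempty (AlgebraicClosure (ZMod p) →+* Ω) := by
  let _ : Algebra (ZMod p) Ω := ZMod.algebra Ω p
  exact ⟨(IsAlgClosed.lift : AlgebraicClosure (ZMod p) →ₐ[ZMod p] Ω).toRingHom⟩

/-- extension to rational functions -/
theorem exists_kappa {k Ω : Type} [Field k] [Field Ω] (ι : k →+* Ω) (x : Ω)
    (hx : ¬ ι.IsIntegralElem x) : ∃ κ : RatFunc k →+* Ω, (∀ a, κ (RatFunc.C a) = ι a) ∧
      κ RatFunc.X = x := by
  let _ : Algebra k Ω := ι.toAlgebra
  have htr : Transcendental k x := fun h => hx h.isIntegral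
  have hinj := transcendental_iff_injective.1 htr
  have hle : k[X]⁰ ≤ Ω⁰.comap (aeval (R := k) x : k[X] →ₐ[k] Ω).toRingHom := by
    intro q hq
    rw [Submonoid.mem_comap, mem_nonZeroDivisors_iff_ne_zero]
    intro h
    apply nonZeroDivisors.ne_zero hq
    apply hinj
    rw [map_zero]
    exact h
  refine ⟨RatFunc.liftRingHom (aeval (R := k) x : k[X] →ₐ[k] Ω).toRingHom hle, ?_, ?_⟩
  · intro a
    rw [← RatFunc.algebraMap_C]
    have h1 := RatFunc.liftRingHom_apply_div (aeval (R := k) x : k[X] →ₐ[k] Ω).toRingHom hle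
      (Polynomial.C a) 1
    rw [map_one, div_one, map_one, div_one] at h1
    rw [h1]
    show aeval x (Polynomial.C a) = _
    rw [aeval_C]
    rfl
  · rw [← RatFunc.algebraMap_X]
    have h1 := RatFunc.liftRingHom_apply_div (aeval (R := k) x : k[X] →ₐ[k] Ω).toRingHom hle
      (Polynomial.X) 1
    rw [map_one, div_one, map_one, div_one] at h1
    rw [h1]
    exact aeval_X x

/-- a finite extension as matrices -/
theorem exists_mat {K L : Type} [Field K] [Field L] (g : K →+* L) (hg : g.Finite) :
    ∃ (d : ℕ) (_ : 0 < d) (m : L →+* Matrix (Fin d) (Fin d) K),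
      ∀ x, m (g x) = Matrix.scalar (Fin d) x := by
  let _ : Algebra K L := g.toAlgebra
  have hfin : Module.Finite K L := hg
  refine ⟨Module.finrank K L, Module.finrank_pos,
    (Algebra.leftMulMatrix (Module.finBasis K L)).toRingHom, ?_⟩
  intro x
  show Algebra.leftMulMatrix (Module.finBasis K L) (algebraMap K L x) = _
  rw [AlgHom.commutes]
  rfl

end

end Pool.Agent.E14.CP
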