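import Pool.Agent.E14.CP.XL
import Pool.Agent.E14.CP.Spc

/-!
# The residue traces detect the units of the group rings of finite abelian groups
-/

open Matrix

namespace Pool.Agent.E14.CP

open H970SH MonoidAlgebra Pool.Agent.Y69
open H842 hiding ps psHom ps_of ps_th

noncomputable section

section

variable (p : ℕ) [hp : Fact p.Prime] (k : Type) [Field k] [CharP k p] [IsAlgClosed k]

/-- the embedding of the polynomials -/
def gamP : Polynomial k →+* LaurentSeries k :=
  (HahnSeries.ofPowerSeries ℤ k).comp Polynomial.coeToPowerSeries.ringHom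

omit [IsAlgClosed k] in
theorem gamP_inj : Function.Injective (gamP k) :=
  HahnSeries.ofPowerSeries_injective.comp (Polynomial.coe_injective k)

/-- the embedding of the rational functions -/
def gam : RatFunc k →+* LaurentSeries k :=
  IsFractionRing.lift (A := Polynomial k) (K := RatFunc k) (L := LaurentSeries k) (gamP_inj k)

omit [IsAlgClosed k] in
theorem gam_X : gam k RatFunc.X = HahnSeries.single 1 1 := by
  unfold gam
  rw [← RatFunc.algebraMap_X, IsFractionRing.lift_algebraMap]
  show HahnSeries.ofPowerSeries ℤ k ((Polynomial.X : Polynomial k) : PowerSeries k) = _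
  rw [Polynomial.coe_X]
  exact PowerSeries.coe_X

omit [IsAlgClosed k] in
theorem gam_C (a : k) : gam k (RatFunc.C a) = HahnSeries.C a := by
  unfold gam
  rw [← RatFunc.algebraMap_C, IsFractionRing.lift_algebraMap]
  show HahnSeries.ofPowerSeries ℤ k ((Polynomial.C a : Polynomial k) : PowerSeries k) = _
  rw [Polynomial.coe_C]
  exact PowerSeries.coe_C a

/-- evaluation at a character -/
def evC {C : Type} [CommGroup C] (χ : C →* k) :
    MonoidAlgebra (LaurentSeries k) C →+* LaurentSeries k :=
  MonoidAlgebra.liftNCRingHom (RingHom.id _)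
    ((HahnSeries.C : k →+* LaurentSeries k).toMonoidHom.comp χ) (fun _ _ => Commute.all _ _)

omit [IsAlgClosed k] in
theorem evC_single {C : Type} [CommGroup C] (χ : C →* k) (c : C) (s : LaurentSeries k) :
    evC k χ (MonoidAlgebra.single c s) = s * HahnSeries.C (χ c) := by
  unfold evC
  rw [MonoidAlgebra.liftNCRingHom_single]
  rfl

/-- **Detection.** -/
theorem detect {A : Type} [CommRing A] (s : Finset A) (hs : Subring.closure (s : Set A) = ⊤)
    {C : Type} [CommGroup C] [Fintype C] {Ω : Type} [Field Ω] (ι : k →+* Ω)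
    (θ : MonoidAlgebra A C →+* Ω) (u : (MonoidAlgebra A C)ˣ)
    (hu : ∀ (d : ℕ) (ψ : A →+* Matrix (Fin d) (Fin d) (LaurentSeries k)) (n : ℕ) (c : C),
      bt (XL p k n) (Nu ψ u) c = 0) :
    ∃ w : k, ι w = θ (u : MonoidAlgebra A C) := by
  -- the character
  have hχ : ∀ c : C, ∃ w : k, ι w = θ (MonoidAlgebra.of A C c) := by
    intro c
    apply mem_of_int ι
    refine ⟨Polynomial.X ^ Fintype.card C - Polynomial.C 1,
      Polynomial.monic_X_pow_sub_C 1 Fintype.card_ne_zero, ?_⟩
    rw [Polynomial.eval₂_sub, Polynomial.eval₂_pow, Polynomial.eval₂_X, Polynomial.eval₂_C,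
      map_one, ← map_pow, ← map_pow, pow_card_eq_one, map_one, map_one, sub_self]
  choose χ0 hχ0 using hχ
  let χ : C →* k :=
    { toFun := χ0
      map_one' := ι.injective (by rw [hχ0, map_one, map_one, map_one])
      map_mul' := fun a b => ι.injective (by
        rw [hχ0, map_mul, map_mul, map_mul, hχ0, hχ0]) }
  apply mem_of_int ι
  by_contra hcon
  obtain ⟨κ, hκ1, hκ2⟩ := exists_kappa ι _ hcon
  let f : A →+* Ω := θ.comp MonoidAlgebra.singleOneRingHom
  obtain ⟨L, _, B, q, hA, hK, hfin⟩ := spec κ s hs f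
  obtain ⟨d, hd, mm, hmm⟩ := exists_mat _ hfin
  -- values in `B`
  have hθs : ∀ (c : C) (a : A), θ (MonoidAlgebra.single c a) = f a * κ (RatFunc.C (χ c)) := by
    intro c a
    rw [hκ1]
    show _ = θ (MonoidAlgebra.single 1 a) * ι (χ0 c)
    rw [hχ0, ← map_mul, MonoidAlgebra.of_apply, single_mul_single, one_mul, mul_one]
  have hθB : ∀ y, θ y ∈ B := by
    intro y
    induction y using MonoidAlgebra.induction_linear with
    | zero => rw [map_zero]; exact B.zero_mem
    | add x y hx hy => rw [map_add]; exact B.add_mem hx hy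
    | single c a => rw [hθs]; exact B.mul_mem (hA a) (hK _)
  let ρ : MonoidAlgebra A C →+* Matrix (Fin d) (Fin d) (LaurentSeries k) :=
    ((gam k).mapMatrix.comp mm).comp (q.comp (θ.codRestrict B hθB))
  let ψ : A →+* Matrix (Fin d) (Fin d) (LaurentSeries k) :=
    ((gam k).mapMatrix.comp mm).comp (q.comp (f.codRestrict B hA))
  have hsc : ∀ z : RatFunc k, ((gam k).mapMatrix.comp mm) (q (κ.codRestrict B hK z)) =
      Matrix.scalar (Fin d) (gam k z) := by
    intro z
    show (gam k).mapMatrix (mm ((q.comp (κ.codRestrict B hK)) z)) = _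
    rw [hmm]
    ext i j : 1
    rw [RingHom.mapMatrix_apply, Matrix.map_apply, Matrix.scalar_apply, Matrix.scalar_apply,
      Matrix.diagonal_apply, Matrix.diagonal_apply]
    split_ifs
    · rfl
    · rw [map_zero]
  have hρ : ∀ (y : MonoidAlgebra A C) (i j : Fin d), evC k χ (Psi ψ C y i j) = ρ y i j := by
    intro y i j
    induction y using MonoidAlgebra.induction_linear with
    | zero => simp
    | add x y hx hy =>
      rw [map_add, Matrix.add_apply, map_add, hx, hy, map_add, Matrix.add_apply]
    | single c a =>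
      rw [Psi_single, evC_single]
      have h1 : ρ (MonoidAlgebra.single c a) = ψ a *
          Matrix.scalar (Fin d) (gam k (RatFunc.C (χ c))) := by
        rw [← hsc]
        show ((gam k).mapMatrix.comp mm) (q _) = ((gam k).mapMatrix.comp mm) (q _) * _
        rw [← map_mul ((gam k).mapMatrix.comp mm), ← map_mul q]
        congr 2
        apply Subtype.ext
        exact hθs c a
      rw [h1, Matrix.scalar_apply, Matrix.mul_diagonal, gam_C]
  have hval : evC k χ (Nu ψ u : MonoidAlgebra (LaurentSeries k) C) =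
      (HahnSeries.single 1 1) ^ d := by
    rw [Nu_val, RingHom.map_det]
    have h1 : (evC k χ).mapMatrix (Psi ψ C (u : MonoidAlgebra A C)) =
        Matrix.scalar (Fin d) (gam k RatFunc.X) := by
      rw [← hsc]
      ext i j : 1
      rw [RingHom.mapMatrix_apply, Matrix.map_apply, hρ]
      have h2 : θ.codRestrict B hθB (u : MonoidAlgebra A C) = κ.codRestrict B hK RatFunc.X := by
        apply Subtype.ext
        exact hκ2.symm
      show ((gam k).mapMatrix.comp mm) (q (θ.codRestrict B hθB (u : MonoidAlgebra A C))) i j = _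
      rw [h2]
    rw [h1, Matrix.scalar_apply, Matrix.det_diagonal, Finset.prod_const, Finset.card_univ,
      Fintype.card_fin, gam_X]
  obtain ⟨n, hn⟩ := int_ne p k (d : ℤ) (by exact_mod_cast hd.ne')
  apply hn
  rw [Int.cast_natCast]
  exact d_zero p k n χ (evC k χ) (evC_single k χ) (Nu ψ u) (hu d ψ n) d hval

end

/-! ### torsion -/

section tors

variable (p : ℕ) [hp : Fact p.Prime]

/-- the algebraic closure of the prime field -/
abbrev Fb : Type := AlgebraicClosure (ZMod p)

theorem pow_of_nil {B : Type} [CommRing B] [CharP B p] (x : B) (hx : IsNilpotent (x - 1)) :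
    ∃ m : ℕ, x ^ p ^ m = 1 := by
  obtain ⟨N, hN⟩ := hx
  obtain ⟨m, hm⟩ : ∃ m, N ≤ p ^ m := ⟨N, (Nat.lt_pow_self hp.out.one_lt).le⟩
  refine ⟨m, ?_⟩
  have h1 : (x - 1) ^ p ^ m = 0 := pow_eq_zero_of_le hm hN
  rw [sub_pow_char_pow, one_pow, sub_eq_zero] at h1
  exact h1

theorem charP_alg {A : Type} [CommRing A] [CharP A p] (C : Type) [CommGroup C] :
    CharP (MonoidAlgebra A C) p := by
  have : Function.Injective (MonoidAlgebra.singleOneRingHom : A →+* MonoidAlgebra A C) := by
    intro a b h
    have h2 := congrArg (fun z => z.coeff 1) h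
    simpa using h2
  exact charP_of_injective_ringHom this p

/-- **Units with vanishing residue traces are torsion.** -/
theorem unit_tors {A : Type} [CommRing A] [CharP A p] (s : Finset A)
    (hs : Subring.closure (s : Set A) = ⊤) {C : Type} [CommGroup C] [Fintype C]
    (u : (MonoidAlgebra A C)ˣ)
    (hu : ∀ (d : ℕ) (ψ : A →+* Matrix (Fin d) (Fin d) (LaurentSeries (Fb p))) (n : ℕ) (c : C),
      bt (XL p (Fb p) n) (Nu ψ u) c = 0) : ∃ N : ℕ, 0 < N ∧ u ^ N = 1 := by
  have hZ : Algebra.FiniteType ℤ A := by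
    refine ⟨⟨s, ?_⟩⟩
    rw [eq_top_iff]
    intro x _
    have h1 : Subring.closure (s : Set A) ≤ (Algebra.adjoin ℤ (s : Set A)).toSubring :=
      Subring.closure_le.2 Algebra.subset_adjoin
    rw [hs] at h1
    exact h1 (Subring.mem_top x)
  have hNA : IsNoetherianRing A := Algebra.FiniteType.isNoetherianRing ℤ A
  have hMF : Module.Finite A (MonoidAlgebra A C) :=
    Module.Finite.equiv (MonoidAlgebra.coeffLinearEquiv (S := A) (M := C) A).symm
  have hFT : Algebra.FiniteType A (MonoidAlgebra A C) := inferInstance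
  have hN : IsNoetherianRing (MonoidAlgebra A C) :=
    Algebra.FiniteType.isNoetherianRing A (MonoidAlgebra A C)
  have hcp : CharP (MonoidAlgebra A C) p := charP_alg p C
  -- minimal primes
  have hfin : (minimalPrimes (MonoidAlgebra A C)).Finite :=
    minimalPrimes.finite_of_isNoetherianRing (MonoidAlgebra A C)
  have hloc : ∀ Q : minimalPrimes (MonoidAlgebra A C), ∃ N : ℕ, 0 < N ∧
      (u : MonoidAlgebra A C) ^ N - 1 ∈ Q.1 := by
    rintro ⟨Q, hQ⟩
    have hQp : Q.IsPrime := hQ.1.1
    let E := MonoidAlgebra A C ⧸ Q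
    have hcpE : CharP (AlgebraicClosure (FractionRing E)) p := by
      let g : MonoidAlgebra A C →+* AlgebraicClosure (FractionRing E) :=
        ((algebraMap (FractionRing E) (AlgebraicClosure (FractionRing E))).comp
          (algebraMap E (FractionRing E))).comp (Ideal.Quotient.mk Q)
      have h0 : ((p : ℕ) : AlgebraicClosure (FractionRing E)) = 0 := by
        rw [← map_natCast g, CharP.cast_eq_zero, map_zero]
      exact (CharP.charP_iff_prime_eq_zero hp.out).2 h0
    obtain ⟨ι⟩ := exists_emb p (AlgebraicClosure (FractionRing E))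
    let g : MonoidAlgebra A C →+* AlgebraicClosure (FractionRing E) :=
        ((algebraMap (FractionRing E) (AlgebraicClosure (FractionRing E))).comp
          (algebraMap E (FractionRing E))).comp (Ideal.Quotient.mk Q)
    obtain ⟨w, hw⟩ := detect p (Fb p) s hs ι g u hu
    have hw0 : w ≠ 0 := by
      rintro rfl
      rw [map_zero] at hw
      have h1 := (u.isUnit.map g).ne_zero
      exact h1 hw.symm
    obtain ⟨N, hN0, hN1⟩ := finite_order p w hw0
    refine ⟨N, hN0, ?_⟩
    have h2 : g ((u : MonoidAlgebra A C) ^ N - 1) = 0 := by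
      rw [map_sub, map_pow, ← hw, ← map_pow, hN1, map_one, map_one, sub_self]
    rw [← Ideal.Quotient.eq_zero_iff_mem]
    apply IsFractionRing.injective E (FractionRing E)
    apply (algebraMap (FractionRing E) (AlgebraicClosure (FractionRing E))).injective
    rw [map_zero, map_zero]
    exact h2
  choose f hf0 hf using hloc
  have := hfin.fintype
  let N : ℕ := ∏ Q : minimalPrimes (MonoidAlgebra A C), f Q
  have hN0 : 0 < N := Finset.prod_pos fun Q _ => hf0 Q
  have hnil : IsNilpotent ((u : MonoidAlgebra A C) ^ N - 1) := by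
    rw [← mem_nilradical]
    show (u : MonoidAlgebra A C) ^ N - 1 ∈ (⊥ : Ideal (MonoidAlgebra A C)).radical
    rw [← Ideal.sInf_minimalPrimes, Submodule.mem_sInf]
    intro Q hQ
    have h1 := hf ⟨Q, hQ⟩
    obtain ⟨M, hM⟩ : f ⟨Q, hQ⟩ ∣ N :=
      Finset.dvd_prod_of_mem f (Finset.mem_univ (⟨Q, hQ⟩ : minimalPrimes (MonoidAlgebra A C)))
    rw [hM, pow_mul]
    have h2 := sub_dvd_pow_sub_pow ((u : MonoidAlgebra A C) ^ f ⟨Q, hQ⟩) 1 M
    rw [one_pow] at h2
    exact Ideal.mem_of_dvd Q h2 h1
  obtain ⟨m, hm⟩ := pow_of_nil p ((u : MonoidAlgebra A C) ^ N) hnil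
  refine ⟨N * p ^ m, Nat.mul_pos hN0 (pow_pos hp.out.pos m), ?_⟩
  apply Units.ext
  rw [Units.val_pow_eq_pow_val, pow_mul, hm, Units.val_one]

end tors

end

end Pool.Agent.E14.CP
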