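import Pool.Agent.E14.CP.Ten

/-!
# Enough values for finitely generated commutative rings
-/

open Matrix

namespace Pool.Agent.E14.CP

open H970SH MonoidAlgebra Pool.Agent.Y69 Pool.Agent.Y69.Main Pool.Agent.Y69.TK.Dsc
  Pool.Agent.Y69.StepC Pool.Agent.Y69.Thy Pool.Agent.Y69.Uni
open H842 hiding ps psHom ps_of ps_th

noncomputable section

/-- a unipotent element of finite order is trivial -/
theorem unip {B : Type} [CommRing B] [Algebra ℚ B] (x : B) (hx : IsNilpotent x) (M : ℕ)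
    (hM : 0 < M) (h : (1 + x) ^ M = 1) : x = 0 := by
  obtain ⟨k, hk⟩ := one_add_pow x M
  rw [hk, add_assoc, add_eq_left] at h
  have h1 : x * ((M : B) + x * k) = 0 := by
    rw [← h]
    ring
  have h2 : IsUnit (M : B) := by
    have h3 : (M : B) = algebraMap ℚ B M := by simp
    rw [h3]
    exact (isUnit_iff_ne_zero.2 (by exact_mod_cast hM.ne')).map _
  have h3 : IsUnit ((M : B) + x * k) := by
    apply IsNilpotent.isUnit_add_left_of_commute _ h2 (Commute.all _ _)
    exact (Commute.all _ _).isNilpotent_mul_right hx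
  obtain ⟨w, hw⟩ := h3
  rw [← hw] at h1
  exact (Units.mul_left_eq_zero w).1 h1

/-- a unipotent element with torsion nilpotent part has finite order -/
theorem pow_unip {B : Type} [CommRing B] (x : B) (hx : IsNilpotent x) (m : ℕ) (hm : 0 < m)
    (h : (m : B) * x = 0) : ∃ K : ℕ, 0 < K ∧ (1 + x) ^ K = 1 := by
  have h1 : ∀ j : ℕ, ∃ k, (1 + x) ^ m ^ j = 1 + x ^ (j + 1) * k := by
    intro j
    induction j with
    | zero => exact ⟨1, by rw [pow_zero, pow_one, zero_add, pow_one, mul_one]⟩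
    | succ j ih =>
      obtain ⟨k, hk⟩ := ih
      obtain ⟨l, hl⟩ := one_add_pow (x ^ (j + 1) * k) m
      refine ⟨x ^ j * k ^ 2 * l, ?_⟩
      have h2 : (m : B) * (x ^ (j + 1) * k) = 0 := by
        calc (m : B) * (x ^ (j + 1) * k) = ((m : B) * x) * (x ^ j * k) := by ring
          _ = 0 := by rw [h, zero_mul]
      rw [pow_succ, pow_mul, hk, hl, h2, add_zero]
      ring
  obtain ⟨N, hN⟩ := hx
  obtain ⟨k, hk⟩ := h1 N
  refine ⟨m ^ N, pow_pos hm N, ?_⟩
  rw [hk, pow_succ, hN, zero_mul, zero_mul, add_zero]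

section loc

variable {A : Type} [CommRing A]

theorem loc_p (p : ℕ) [hp : Fact p.Prime] (s : Finset A)
    (hs : Subring.closure (s : Set A) = ⊤) {C : Type} [CommGroup C] [Fintype C]
    (u : (MonoidAlgebra A C)ˣ)
    (hu : ∀ (d : ℕ) (ψ : A →+* Matrix (Fin d) (Fin d) (LaurentSeries (Fb p))) (n : ℕ) (c : C),
      bt (XL p (Fb p) n) (Nu ψ u) c = 0) (Q : Ideal (MonoidAlgebra A C)) [hQp : Q.IsPrime]
    (hp0 : ((p : ℕ) : MonoidAlgebra A C) ∈ Q) :
    ∃ N : ℕ, 0 < N ∧ (u : MonoidAlgebra A C) ^ N - 1 ∈ Q := by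
  let E := MonoidAlgebra A C ⧸ Q
  let g : MonoidAlgebra A C →+* AlgebraicClosure (FractionRing E) :=
    ((algebraMap (FractionRing E) (AlgebraicClosure (FractionRing E))).comp
      (algebraMap E (FractionRing E))).comp (Ideal.Quotient.mk Q)
  have hcpE : CharP (AlgebraicClosure (FractionRing E)) p := by
    have h0 : ((p : ℕ) : AlgebraicClosure (FractionRing E)) = 0 := by
      rw [← map_natCast g]
      show (algebraMap (FractionRing E) (AlgebraicClosure (FractionRing E)))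
        ((algebraMap E (FractionRing E)) (Ideal.Quotient.mk Q _)) = 0
      rw [Ideal.Quotient.eq_zero_iff_mem.2 hp0, map_zero, map_zero]
    exact (CharP.charP_iff_prime_eq_zero hp.out).2 h0
  obtain ⟨ι⟩ := exists_emb p (AlgebraicClosure (FractionRing E))
  obtain ⟨w, hw⟩ := detect p (Fb p) s hs ι g u hu
  have hw0 : w ≠ 0 := by
    rintro rfl
    rw [map_zero] at hw
    have h1 := (u.isUnit.map g).ne_zero
    exact h1 hw.symm
  obtain ⟨N, hN0, hN1⟩ := finite_order p w hw0
  refine ⟨N, hN0, ?_⟩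
  have h2 : g ((u : MonoidAlgebra A C) ^ N - 1) = 0 := by
    rw [map_sub, map_pow, ← hw, ← map_pow, hN1, map_one, map_one, sub_self]
  rw [← Ideal.Quotient.eq_zero_iff_mem]
  apply IsFractionRing.injective E (FractionRing E)
  apply (algebraMap (FractionRing E) (AlgebraicClosure (FractionRing E))).injective
  rw [map_zero, map_zero]
  exact h2

theorem loc_0 (P : Ideal A) {q : ℕ} [Fact q.Prime] (j : A ⧸ P →+* ℤ_[q])
    (hj : Function.Injective j) {C : Type} [CommGroup C] [Finite C] (hC : Nat.card C ∣ q - 1)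
    (u : (MonoidAlgebra A C)ˣ)
    (hu : ∀ c, Thy.bb (j.comp (Ideal.Quotient.mk P)) (Additive.ofMul u) c = 0) :
    mapRingHom C (Ideal.Quotient.mk P) (u : MonoidAlgebra A C) ^ ((q - 1) * q) = 1 := by
  have h1 := Uni.pow_eq_one (pow_p hC) (ju_mul (j.comp (Ideal.Quotient.mk P)) u)
      (fun n c => congrFun (hu c) n)
  have h3 : ∀ x : MonoidAlgebra A C, mapRingHom C (j.comp (Ideal.Quotient.mk P)) x =
      mapRingHom C j (mapRingHom C (Ideal.Quotient.mk P) x) := by
    intro x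
    ext m
    rw [MonoidAlgebra.coeff_mapRingHom, MonoidAlgebra.coeff_mapRingHom,
      MonoidAlgebra.coeff_mapRingHom]
    rfl
  rw [h3, ← map_pow, ← map_one (mapRingHom C j)] at h1
  exact mapRingHom_inj j hj C h1

theorem mem_of_map {C : Type} [CommGroup C] (Q : Ideal (MonoidAlgebra A C)) (P : Ideal A)
    (hP : ∀ a ∈ P, MonoidAlgebra.single (1 : C) a ∈ Q) (x : MonoidAlgebra A C)
    (hx : mapRingHom C (Ideal.Quotient.mk P) x = 0) : x ∈ Q := by
  have h1 : ∀ c, x.coeff c ∈ P := by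
    intro c
    rw [← Ideal.Quotient.eq_zero_iff_mem, ← MonoidAlgebra.coeff_mapRingHom, hx]
    rfl
  have h2 : x = ∑ c ∈ x.coeff.support, MonoidAlgebra.single c (x.coeff c) := by
    apply MonoidAlgebra.coeff_injective
    rw [MonoidAlgebra.coeff_sum]
    simp only [MonoidAlgebra.coeff_single]
    exact (Finsupp.sum_single x.coeff).symm
  rw [h2]
  refine Ideal.sum_mem _ fun c _ => ?_
  have h3 : MonoidAlgebra.single c (x.coeff c) =
      MonoidAlgebra.single (1 : C) (x.coeff c) * MonoidAlgebra.single c 1 := by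
    rw [single_mul_single, one_mul, mul_one]
  rw [h3]
  exact Ideal.mul_mem_right _ _ (hP _ (h1 c))

end loc

theorem mapRing_comp {A B D : Type} [CommRing A] [CommRing B] [CommRing D] (f : A →+* B)
    (g : B →+* D) {C : Type} [Group C] (x : MonoidAlgebra A C) :
    mapRingHom C g (mapRingHom C f x) = mapRingHom C (g.comp f) x := by
  ext m
  rw [MonoidAlgebra.coeff_mapRingHom, MonoidAlgebra.coeff_mapRingHom,
    MonoidAlgebra.coeff_mapRingHom]
  rfl

theorem enough {A : Type} [CommRing A] (s : Finset A)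
    (hs : Subring.closure (s : Set A) = ⊤) : Enough A := by
  intro E hE
  have hZ : Algebra.FiniteType ℤ A := by
    refine ⟨⟨s, ?_⟩⟩
    rw [eq_top_iff]
    intro x _
    have h1 : Subring.closure (s : Set A) ≤ (Algebra.adjoin ℤ (s : Set A)).toSubring :=
      Subring.closure_le.2 Algebra.subset_adjoin
    rw [hs] at h1
    exact h1 (Subring.mem_top x)
  have hNA : IsNoetherianRing A := Algebra.FiniteType.isNoetherianRing ℤ A
  let Z := {P : Ideal A // P.IsPrime ∧ CharZero (A ⧸ P)}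
  have hq : ∀ P : Z, ∃ (q : ℕ) (_ : Fact q.Prime), 2 < q ∧ E ∣ q - 1 ∧
      ∃ ψ : A ⧸ P.1 →+* ℤ_[q], Function.Injective ψ := by
    rintro ⟨P, hP, hc⟩
    have h2 : @Algebra.FiniteType ℤ (A ⧸ P) _ _ (Ring.toIntAlgebra _) :=
      Algebra.FiniteType.of_surjective (Ideal.Quotient.mk P).toIntAlgHom
        Ideal.Quotient.mk_surjective
    exact Pool.Agent.Y69.TK.Emb.exists_embedding (A := A ⧸ P) E 2 hE
  choose q iq hq2 hqE ψ hψ using hq
  have hT : ∀ (P : Z) (n : ℕ), ∃ D : Tn A, (∀ a ∈ P.1, D.P.σ (D.f a) = 0) ∧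
      ∀ (_ : P.1.IsPrime), ∀ a, D.f a = 0 → algebraMap A (Localization.AtPrime P.1) a ∈
        IsLocalRing.maximalIdeal (Localization.AtPrime P.1) ^ (n + 1) := by
    rintro ⟨P, hP, hc⟩ n
    obtain ⟨D, h1, h2⟩ := exists_tn P hc n
    exact ⟨D, h1, fun _ => h2⟩
  choose D hD1 hD2 using hT
  let V1 : Z → Val A E := fun P =>
    @valQ A _ (q P) (iq P) ((iq P).out.odd_of_ne_two (by have := hq2 P; omega))
      ((ψ P).comp (Ideal.Quotient.mk P.1)) E (hqE P)
  let V2 : (Σ p : {p : ℕ // p.Prime}, @Ix p.1 ⟨p.2⟩ A _) → Val A E := fun x =>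
    haveI : Fact x.1.1.Prime := ⟨x.1.2⟩
    valP x.1.1 E x.2.d x.2.ψ x.2.n
  let V3 : Z × ℕ → Val A E := fun x => valL (D x.1 x.2).P (D x.1 x.2).f E
  refine ⟨Z ⊕ ((Σ p : {p : ℕ // p.Prime}, @Ix p.1 ⟨p.2⟩ A _) ⊕ (Z × ℕ)),
    Sum.elim V1 (Sum.elim V2 V3), ?_⟩
  intro C _ _ hC u hu
  have hu1 : ∀ (P : Z) c, (V1 P).b u c = 0 := fun P c => hu (Sum.inl P) c
  have hu2 : ∀ x c, (V2 x).b u c = 0 := fun x c => hu (Sum.inr (Sum.inl x)) c
  have hu3 : ∀ x c, (V3 x).b u c = 0 := fun x c => hu (Sum.inr (Sum.inr x)) c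
  have : Fintype C := Fintype.ofFinite C
  have hMF : Module.Finite A (MonoidAlgebra A C) :=
    Module.Finite.equiv (MonoidAlgebra.coeffLinearEquiv (S := A) (M := C) A).symm
  have hFT : Algebra.FiniteType A (MonoidAlgebra A C) := inferInstance
  have hN : IsNoetherianRing (MonoidAlgebra A C) :=
    Algebra.FiniteType.isNoetherianRing A (MonoidAlgebra A C)
  have h0 : ∀ P : Z, mapRingHom C (Ideal.Quotient.mk P.1) (u : MonoidAlgebra A C) ^
      ((q P - 1) * q P) = 1 := fun P =>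
    @loc_0 A _ P.1 (q P) (iq P) (ψ P) (hψ P) C _ _ (hC.trans (hqE P)) u (hu1 P)
  have hq0 : ∀ P : Z, 0 < (q P - 1) * q P := fun P => by
    have := hq2 P
    exact Nat.mul_pos (by omega) (by omega)
  have hloc : ∀ Q : Ideal (MonoidAlgebra A C), Q.IsPrime → ∃ N : ℕ, 0 < N ∧
      (u : MonoidAlgebra A C) ^ N - 1 ∈ Q := by
    intro Q hQ
    obtain ⟨p, hp⟩ := CharP.exists (MonoidAlgebra A C ⧸ Q)
    rcases CharP.char_is_prime_or_zero (MonoidAlgebra A C ⧸ Q) p with h1 | h1
    · have : Fact p.Prime := ⟨h1⟩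
      apply loc_p p s hs u (fun d ψ n c => hu2 ⟨⟨p, h1⟩, ⟨d, ψ, n⟩⟩ c) Q
      apply Ideal.Quotient.eq_zero_iff_mem.1
      rw [map_natCast, CharP.cast_eq_zero]
    · subst h1
      have h2 : CharZero (MonoidAlgebra A C ⧸ Q) := CharP.charP_to_charZero _
      let P : Ideal A := Q.comap (MonoidAlgebra.singleOneRingHom : A →+* MonoidAlgebra A C)
      have hP : P.IsPrime := Ideal.IsPrime.comap _
      have hPc : CharZero (A ⧸ P) := by
        apply charZero_of_inj_zero
        intro n hn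
        have h3 : ((n : ℕ) : A) ∈ P := by
          apply Ideal.Quotient.eq_zero_iff_mem.1
          rw [map_natCast]
          exact hn
        have h4 : ((n : ℕ) : MonoidAlgebra A C) ∈ Q := by
          have h5 : (MonoidAlgebra.singleOneRingHom : A →+* MonoidAlgebra A C) (n : A) ∈ Q := h3
          rwa [map_natCast] at h5
        have h5 := Ideal.Quotient.eq_zero_iff_mem.2 h4
        rw [map_natCast] at h5
        exact_mod_cast h5
      refine ⟨_, hq0 ⟨P, hP, hPc⟩, ?_⟩
      apply mem_of_map Q P (fun a ha => ha)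
      rw [map_sub, map_pow, map_one, h0 ⟨P, hP, hPc⟩, sub_self]
  have hfin : (minimalPrimes (MonoidAlgebra A C)).Finite :=
    minimalPrimes.finite_of_isNoetherianRing (MonoidAlgebra A C)
  have hloc' : ∀ Q : minimalPrimes (MonoidAlgebra A C), ∃ N : ℕ, 0 < N ∧
      (u : MonoidAlgebra A C) ^ N - 1 ∈ Q.1 := fun Q => hloc Q.1 Q.2.1.1
  choose f hf0 hf using hloc'
  have := hfin.fintype
  let N : ℕ := ∏ Q : minimalPrimes (MonoidAlgebra A C), f Q
  have hN0 : 0 < N := Finset.prod_pos fun Q _ => hf0 Q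
  have hnil : IsNilpotent ((u : MonoidAlgebra A C) ^ N - 1) := by
    rw [← mem_nilradical]
    show (u : MonoidAlgebra A C) ^ N - 1 ∈ (⊥ : Ideal (MonoidAlgebra A C)).radical
    rw [← Ideal.sInf_minimalPrimes, Submodule.mem_sInf]
    intro Q hQ
    have h1 := hf ⟨Q, hQ⟩
    obtain ⟨M, hM⟩ : f ⟨Q, hQ⟩ ∣ N :=
      Finset.dvd_prod_of_mem f (Finset.mem_univ (⟨Q, hQ⟩ : minimalPrimes (MonoidAlgebra A C)))
    rw [hM, pow_mul]
    have h2 := sub_dvd_pow_sub_pow ((u : MonoidAlgebra A C) ^ f ⟨Q, hQ⟩) 1 M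
    rw [one_pow] at h2
    exact Ideal.mem_of_dvd Q h2 h1
  set ν := (u : MonoidAlgebra A C) ^ N - 1 with hν
  -- the nilpotent part is torsion
  have hz : ∀ (P : Z) (n : ℕ), mapRingHom C (D P n).f ν = 0 := by
    intro P n
    have h1 := bl_tors (D P n).P _ (hu3 (P, n))
    have h2 : mapRingHom C (D P n).f (u : MonoidAlgebra A C) =
        mapRingHom C ((D P n).P.σ.comp (D P n).f) (u : MonoidAlgebra A C) := by
      rw [← mapRing_comp]
      exact h1
    let κ : A ⧸ P.1 →+* (D P n).B := Ideal.Quotient.lift P.1 ((D P n).P.σ.comp (D P n).f)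
      (fun a ha => hD1 P n a ha)
    have h3 : mapRingHom C ((D P n).P.σ.comp (D P n).f) (u : MonoidAlgebra A C) =
        mapRingHom C κ (mapRingHom C (Ideal.Quotient.mk P.1) (u : MonoidAlgebra A C)) := by
      rw [mapRing_comp]
      rfl
    have h4 : (1 + mapRingHom C (D P n).f ν) ^ ((q P - 1) * q P) = 1 := by
      have h5 : 1 + mapRingHom C (D P n).f ν =
          mapRingHom C (D P n).f (u : MonoidAlgebra A C) ^ N := by
        rw [hν, map_sub, map_one, map_pow]
        ring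
      rw [h5, ← pow_mul, mul_comm, pow_mul, h2, h3, ← map_pow, h0 P, map_one, one_pow]
    exact unip _ (hnil.map _) _ (hq0 P) h4
  have hm : ∀ c : C, ∃ m : ℕ, 0 < m ∧ (m : A) * ν.coeff c = 0 := by
    intro c
    apply tors_of_loc
    intro P hP hPc n
    apply hD2 ⟨P, hP, hPc⟩ n hP
    have h1 := hz ⟨P, hP, hPc⟩ n
    have h2 := congrArg (fun z => z.coeff c) h1
    simp only [MonoidAlgebra.coeff_mapRingHom] at h2
    exact h2
  choose m hm0 hm1 using hm
  classical
  have hmν : ((∏ c, m c : ℕ) : MonoidAlgebra A C) * ν = 0 := by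
    ext c
    rw [← nsmul_eq_mul, MonoidAlgebra.coeff_smul, Finsupp.smul_apply, nsmul_eq_mul,
      ← Finset.mul_prod_erase Finset.univ m (Finset.mem_univ c), Nat.cast_mul, mul_comm (m c : A),
      mul_assoc, hm1, mul_zero]
    rfl
  obtain ⟨K, hK, h1⟩ := pow_unip ν hnil _ (Finset.prod_pos fun c _ => hm0 c) hmν
  refine ⟨N * K, Nat.mul_pos hN0 hK, ?_⟩
  apply Units.ext
  rw [Units.val_pow_eq_pow_val, pow_mul, Units.val_one, ← h1, hν]
  congr 1
  ring

/-! ### the main theorem -/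

section main

variable {R : Type} [CommRing R] {G : Type} [Group G]

/-- **Theorem.** The kernel of `colim K₁(R[H]) → K₁(R[G])` is rationally contained in the part of
determinant one. -/
theorem main_all (x : K1Colim R G) (n : ℕ) (hn : 0 < n)
    (hx : n • K1assembly R G x = 0) : ∃ l : ℕ, 0 < l ∧ l • x ∈ SKc R G :=
  main_V (subSys R) (fun t => by
    obtain ⟨s', hs'⟩ := SX_gen R t
    exact enough s' hs') x n hn hx

end main

end

end Pool.Agent.E14.CP
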