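import Pool.Agent.E14.CP.Men2
import Pool.Agent.E14.SKDef

/-!
# The main theorem for the groups of `KDef`
-/

open Matrix

namespace Pool.Agent.E14.CP

open H970SH MonoidAlgebra Pool.Agent.Y69 Pool.Agent.Y69.Main Pool.Agent.Y69.TK.Dsc
open H842 hiding ps psHom ps_of ps_th

noncomputable section

variable {R : Type} [CommRing R] {G : Type} [Group G]

theorem SKc_le : (SKc R G : Set (K1Colim R G)) ⊆ (Pool.Agent.E14.SK.SKPart R G :
    Set (Pool.Agent.Y69.FJK.ColimK1 R G)) := by
  intro z hz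
  unfold SKc at hz
  induction hz using AddSubgroup.closure_induction with
  | mem z hz =>
    obtain ⟨C, i1, i2, i3, H, φ, hφ, n, M, hM, rfl⟩ := hz
    refine AddSubgroup.subset_closure ⟨C, i1, i2, i3, H, φ, hφ, n, M, congrArg Units.val hM, ?_⟩
    rw [← K1map_cl, cl_fin]
    rfl
  | zero => exact (Pool.Agent.E14.SK.SKPart R G).zero_mem
  | add x y _ _ hx hy => exact (Pool.Agent.E14.SK.SKPart R G).add_mem hx hy
  | neg x _ hx => exact (Pool.Agent.E14.SK.SKPart R G).neg_mem hx

theorem alg_sub [IsDomain R] [CharZero R] [Algebra.IsAlgebraic ℤ R] (s : Finset R) :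
    Ring.KrullDimLE 1 (Subring.closure (s : Set R)) := by
  have h1 : Algebra.IsAlgebraic ℤ (Subring.closure (s : Set R)) := by
    constructor
    intro x
    have h2 := Algebra.IsAlgebraic.isAlgebraic (R := ℤ)
      ((Subring.closure (s : Set R)).subtype.toIntAlgHom x)
    exact (isAlgebraic_algHom_iff (Subring.closure (s : Set R)).subtype.toIntAlgHom
      Subtype.val_injective).1 h2
  have h2 : CharZero (Subring.closure (s : Set R)) := by
    apply charZero_of_injective_ringHom (f := Nat.castRingHom (Subring.closure (s : Set R)))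
    intro a b h
    have h3 := congrArg (Subring.closure (s : Set R)).subtype h
    simpa using h3
  exact dim_alg

theorem final (x : Pool.Agent.Y69.FJK.ColimK1 R G) (n : ℕ) (hn : 0 < n)
    (hx : n • Pool.Agent.Y69.FJK.assembly R G x = 0) :
    (∃ l : ℕ, 0 < l ∧ l • x ∈ Pool.Agent.E14.SK.SKPart R G) ∧
    (Finite (MaximalSpectrum R) ∨
      (∀ s : Finset R, Ring.KrullDimLE 1 (Subring.closure (s : Set R))) ∨
      (IsDomain R ∧ CharZero R ∧ Algebra.IsAlgebraic ℤ R) → ∃ l : ℕ, 0 < l ∧ l • x = 0) := by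
  obtain ⟨l, hl, h1⟩ := main_all (G := G) (R := R) x n hn hx
  refine ⟨⟨l, hl, SKc_le h1⟩, ?_⟩
  intro h
  have h2 : ∃ s : ℕ, 0 < s ∧ s • (l • x : K1Colim R G) = 0 := by
    rcases h with h | h | h
    · exact tor_semilocal h1
    · exact tor_dim h h1
    · obtain ⟨_, _, _⟩ := h
      exact tor_dim alg_sub h1
  obtain ⟨s, hs, h3⟩ := h2
  refine ⟨s * l, Nat.mul_pos hs hl, ?_⟩
  rw [mul_smul]
  exact h3

end

end Pool.Agent.E14.CP
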