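import Pool.Agent.E14.CP.LogD

/-!
# The logarithmic derivative of a determinant
-/

open Matrix

namespace Pool.Agent.E14.CP

open H970SH H842

noncomputable section

section jac

variable {B : Type} [CommRing B] (d : B →+ B) (leib : ∀ a b, d (a * b) = d a * b + a * d b)

/-- the ring homomorphism to the dual numbers given by a derivation -/
def dualHom (h1 : d 1 = 0) : B →+* DualNumber B where
  toFun b := TrivSqZeroExt.inl b + TrivSqZeroExt.inr (d b)
  map_one' := by rw [h1, TrivSqZeroExt.inr_zero, add_zero, TrivSqZeroExt.inl_one]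
  map_zero' := by rw [map_zero, TrivSqZeroExt.inr_zero, add_zero, TrivSqZeroExt.inl_zero]
  map_mul' a b := by
    apply TrivSqZeroExt.ext
    · simp
    · simp [leib]
      ring
  map_add' a b := by
    apply TrivSqZeroExt.ext
    · simp
    · simp

include leib in
theorem jacobi (h1 : d 1 = 0) {n : Type} [Fintype n] [DecidableEq n] (M N : Matrix n n B)
    (hMN : M * N = 1) : d M.det = M.det * ∑ i, (N * M.map d) i i := by
  have e1 : (M.map (dualHom d leib h1)) = M.map (TrivSqZeroExt.inlHom B B) *
      (1 + (DualNumber.eps : DualNumber B) • (N * M.map d).map (TrivSqZeroExt.inlHom B B)) := by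
    rw [mul_add, mul_one, Matrix.mul_smul, ← Matrix.map_mul, ← mul_assoc, hMN, one_mul]
    ext i j : 2
    · simp [dualHom]
    · simp [dualHom]
  have e2 := congrArg Matrix.det e1
  rw [Matrix.det_mul, Matrix.det_one_add_smul] at e2
  have e3 : (M.map (dualHom d leib h1)).det = dualHom d leib h1 M.det :=
    (RingHom.map_det _ _).symm
  have e4 : (M.map (TrivSqZeroExt.inlHom B B)).det = TrivSqZeroExt.inlHom B B M.det :=
    (RingHom.map_det _ _).symm
  rw [e3, e4, pow_two, DualNumber.eps_mul_eps, mul_zero, add_zero] at e2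
  have e5 := congrArg TrivSqZeroExt.snd e2
  have e6 : ((N * M.map d).map (TrivSqZeroExt.inlHom B B)).trace =
      TrivSqZeroExt.inlHom B B (N * M.map d).trace :=
    (AddMonoidHom.map_trace (TrivSqZeroExt.inlHom B B).toAddMonoidHom _).symm
  rw [e6] at e5
  simp [dualHom] at e5
  rw [e5]
  rfl

end jac

namespace DT

variable {B Λ : Type} [CommRing B] [AddCommGroup Λ] (D : DT B Λ)

/-- the unit `det M` -/
def detU {R : Type} [CommRing R] {n : Type} [Fintype n] [DecidableEq n] (M : (Matrix n n R)ˣ) :
    Rˣ := Units.map (Matrix.detMonoidHom (n := n) (R := R)) M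

theorem logd_det {n : Type} [Fintype n] [DecidableEq n] (M : (Matrix n n B)ˣ) :
    (D.mat n).logd M = D.logd (detU M) := by
  have h := jacobi D.d D.leib D.d_one (M : Matrix n n B)
    ((M⁻¹ : (Matrix n n B)ˣ) : Matrix n n B) M.mul_inv
  unfold logd
  rw [mat_t, mat_d, ← map_sum]
  congr 1
  have h2 : ((detU M : Bˣ) : B) = (M : Matrix n n B).det := rfl
  rw [h2, h, ← mul_assoc]
  have h3 : (((detU M)⁻¹ : Bˣ) : B) * (M : Matrix n n B).det = 1 := by
    rw [← h2, Units.inv_mul]
  rw [h3, one_mul]

theorem logd_unit1 (u : Bˣ) : (D.mat Unit).logd (unit1 u) = D.logd u := by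
  rw [logd_det]
  congr 1
  apply Units.ext
  show (Matrix.of fun _ _ => (u : B) : Matrix Unit Unit B).det = _
  rw [Matrix.det_unique]
  rfl

/-- over a commutative ring the value depends only on the determinant -/
theorem L_det {n : Type} [Fintype n] [DecidableEq n] (M : (Matrix n n B)ˣ) :
    D.L (cl M) = D.L (cl (unit1 (detU M))) := by
  rw [L_cl, L_cl, logd_unit1, logd_det]

theorem L_unit1 (u : Bˣ) : D.L (cl (unit1 u)) = D.logd u := by
  rw [L_cl, logd_unit1]

end DT

end

end Pool.Agent.E14.CP
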