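import Pool.Agent.E14.CP.Jac
import Pool.Agent.Y67.SL.Thick

/-!
# Laurent series, their derivation and the residue; group rings
-/

open Matrix

namespace Pool.Agent.E14.CP

open H970SH H842 MonoidAlgebra Pool.Agent.Y490.SL

noncomputable section

section laurent

variable {Q : Type} [CommRing Q]

/-- the operator `x d/dx` -/
def dL : LaurentSeries Q →+ LaurentSeries Q where
  toFun f :=
    { coeff := fun n => n • f.coeff n
      isPWO_support' := f.isPWO_support.mono fun n hn => by
        rw [HahnSeries.mem_support]
        intro h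
        apply hn
        show n • f.coeff n = 0
        rw [h, smul_zero] }
  map_zero' := by
    apply HahnSeries.ext
    funext n
    show n • (0 : LaurentSeries Q).coeff n = 0
    rw [HahnSeries.coeff_zero, smul_zero]
  map_add' f g := by
    apply HahnSeries.ext
    funext n
    show n • (f + g).coeff n = n • f.coeff n + n • g.coeff n
    rw [HahnSeries.coeff_add, smul_add]

theorem dL_coeff (f : LaurentSeries Q) (n : ℤ) : (dL f).coeff n = n • f.coeff n := rfl

theorem dL_support (f : LaurentSeries Q) : (dL f).support ⊆ f.support := by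
  intro n hn
  rw [HahnSeries.mem_support] at hn ⊢
  intro h
  apply hn
  rw [dL_coeff, h, smul_zero]

theorem dL_mul (f g : LaurentSeries Q) : dL (f * g) = dL f * g + f * dL g := by
  apply HahnSeries.ext
  funext n
  rw [HahnSeries.coeff_add, dL_coeff,
    HahnSeries.coeff_mul_left' f.isPWO_support (dL_support f),
    HahnSeries.coeff_mul_right' g.isPWO_support (dL_support g), HahnSeries.coeff_mul,
    Finset.smul_sum, ← Finset.sum_add_distrib]
  refine Finset.sum_congr rfl fun ij hij => ?_
  have h1 : ij.1 + ij.2 = n := (Finset.mem_antidiagonal.1 hij).2.2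
  rw [dL_coeff, dL_coeff, ← h1, add_smul, smul_mul_assoc, mul_smul_comm]

/-- the residue -/
def res0 : LaurentSeries Q →+ Q where
  toFun f := f.coeff 0
  map_zero' := HahnSeries.coeff_zero
  map_add' _ _ := HahnSeries.coeff_add

theorem res0_dL (f : LaurentSeries Q) : res0 (dL f) = 0 := by
  show (0 : ℤ) • f.coeff 0 = 0
  rw [zero_smul]

variable {Q' : Type} [CommRing Q'] (θ : Q →+* Q')

/-- change of coefficients -/
def mapL : LaurentSeries Q →+* LaurentSeries Q' where
  toFun f := f.map θ
  map_one' := HahnSeries.map_one (θ.toMonoidWithZeroHom : Q →*₀ Q')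
  map_mul' f g := HahnSeries.map_mul (θ : Q →ₙ+* Q')
  map_zero' := by
    apply HahnSeries.ext
    funext n
    rw [HahnSeries.map_coeff, HahnSeries.coeff_zero, HahnSeries.coeff_zero, map_zero]
  map_add' f g := HahnSeries.map_add (θ : Q →+ Q')

theorem mapL_coeff (f : LaurentSeries Q) (n : ℤ) : (mapL θ f).coeff n = θ (f.coeff n) := rfl

theorem mapL_dL (f : LaurentSeries Q) : mapL θ (dL f) = dL (mapL θ f) := by
  apply HahnSeries.ext
  funext n
  rw [mapL_coeff, dL_coeff, dL_coeff, mapL_coeff, map_zsmul]

theorem mapL_surjective (h : Function.Surjective θ) : Function.Surjective (mapL θ) := by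
  intro f
  have h1 : ∀ q : Q', ∃ r : Q, θ r = q ∧ (q = 0 → r = 0) := by
    intro q
    by_cases hq : q = 0
    · exact ⟨0, by rw [hq, map_zero], fun _ => rfl⟩
    · obtain ⟨r, hr⟩ := h q
      exact ⟨r, hr, fun h => absurd h hq⟩
  choose g hg hg0 using h1
  refine ⟨⟨fun n => g (f.coeff n), f.isPWO_support.mono ?_⟩, ?_⟩
  · intro n hn
    rw [HahnSeries.mem_support]
    intro h
    exact hn (hg0 _ h)
  · apply HahnSeries.ext
    funext n
    rw [mapL_coeff]
    exact hg _

theorem mapL_ker_pow (N : ℕ) (x : LaurentSeries Q) (hx : x ∈ RingHom.ker (mapL θ) ^ N) (n : ℤ) :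
    x.coeff n ∈ RingHom.ker θ ^ N := by
  induction N generalizing x n with
  | zero => rw [pow_zero, Ideal.one_eq_top]; trivial
  | succ N ih =>
    rw [pow_succ] at hx
    refine Submodule.mul_induction_on hx ?_ ?_
    · intro a ha b hb
      rw [HahnSeries.coeff_mul, pow_succ]
      refine Ideal.sum_mem _ fun ij _ => Ideal.mul_mem_mul (ih a ha _) ?_
      rw [RingHom.mem_ker, ← mapL_coeff, (RingHom.mem_ker).1 hb, HahnSeries.coeff_zero]
    · intro a b ha hb
      rw [HahnSeries.coeff_add]
      exact Ideal.add_mem _ ha hb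

theorem mapL_nil (h : ∃ N : ℕ, RingHom.ker θ ^ N = ⊥) :
    ∃ N : ℕ, RingHom.ker (mapL θ) ^ N = ⊥ := by
  obtain ⟨N, hN⟩ := h
  refine ⟨N, ?_⟩
  rw [eq_bot_iff]
  intro x hx
  rw [Submodule.mem_bot]
  apply HahnSeries.ext
  funext n
  have h1 := mapL_ker_pow θ N x hx n
  rw [hN, Submodule.mem_bot] at h1
  rw [h1, HahnSeries.coeff_zero]

theorem mapL_single (n : ℤ) (q : Q) :
    mapL θ (HahnSeries.single n q) = HahnSeries.single n (θ q) := by
  apply HahnSeries.ext
  funext m
  rw [mapL_coeff]
  by_cases h : m = n
  · subst h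
    rw [HahnSeries.coeff_single_same, HahnSeries.coeff_single_same]
  · rw [HahnSeries.coeff_single_of_ne h, HahnSeries.coeff_single_of_ne h, map_zero]

/-- the data for Laurent series -/
def DTL (Q : Type) [CommRing Q] : DT (LaurentSeries Q) Q where
  d := dL
  leib := dL_mul
  t := res0
  t_comm a b := by rw [mul_comm]
  t_d := res0_dL

theorem dL_single (n : ℤ) (q : Q) :
    dL (HahnSeries.single n q) = HahnSeries.single n (n • q) := by
  apply HahnSeries.ext
  funext m
  rw [dL_coeff]
  by_cases h : m = n
  · subst h
    rw [HahnSeries.coeff_single_same, HahnSeries.coeff_single_same]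
  · rw [HahnSeries.coeff_single_of_ne h, HahnSeries.coeff_single_of_ne h, smul_zero]

end laurent

/-! ### group rings -/

section grp

variable {S Λ : Type} [CommRing S] [AddCommGroup Λ] (D : DT S Λ) {G : Type} [Group G]

/-- the weighted trace of a group ring -/
def tau (t : S →+ Λ) (h : G → ℤ) : MonoidAlgebra S G →+ Λ where
  toFun x := x.coeff.sum fun g s => h g • t s
  map_zero' := by rw [coeff_zero]; exact Finsupp.sum_zero_index
  map_add' x y := by
    rw [coeff_add]
    apply Finsupp.sum_add_index'
    · intro g; rw [map_zero, smul_zero]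
    · intro g a b; rw [map_add, smul_add]

theorem tau_single (t : S →+ Λ) (h : G → ℤ) (g : G) (s : S) :
    tau t h (single g s) = h g • t s := by
  show (single g s : MonoidAlgebra S G).coeff.sum (fun g s => h g • t s) = _
  rw [coeff_single, Finsupp.sum_single_index]
  rw [map_zero, smul_zero]

/-- coefficientwise application -/
def cw {S' : Type} [CommRing S'] (f : S →+ S') : MonoidAlgebra S G →+ MonoidAlgebra S' G where
  toFun := MonoidAlgebra.map f
  map_zero' := MonoidAlgebra.map_zero f
  map_add' := MonoidAlgebra.map_add f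

theorem cw_single {S' : Type} [CommRing S'] (f : S →+ S') (g : G) (s : S) :
    cw f (single g s) = single g (f s) := MonoidAlgebra.map_single _ _ _

/-- the data for group rings -/
def DTG (h : G → ℤ) (hh : ∀ x y, h (x * y) = h (y * x)) : DT (MonoidAlgebra S G) Λ where
  d := cw D.d
  leib a b := by
    induction a using MonoidAlgebra.induction_linear with
    | zero => simp
    | add a a' h1 h2 => rw [add_mul, map_add, h1, h2, map_add, add_mul, add_mul]; abel
    | single g s =>
      induction b using MonoidAlgebra.induction_linear with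
      | zero => simp
      | add b b' h1 h2 => rw [mul_add, map_add, h1, h2, map_add, mul_add, mul_add]; abel
      | single g' s' =>
        rw [single_mul_single, cw_single, cw_single, cw_single, single_mul_single,
          single_mul_single, ← MonoidAlgebra.single_add, D.leib]
  t := tau D.t h
  t_comm a b := by
    induction a using MonoidAlgebra.induction_linear with
    | zero => simp
    | add a a' h1 h2 => rw [add_mul, map_add, h1, h2, mul_add, map_add]
    | single g s =>
      induction b using MonoidAlgebra.induction_linear with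
      | zero => simp
      | add b b' h1 h2 => rw [mul_add, map_add, h1, h2, add_mul, map_add]
      | single g' s' =>
        rw [single_mul_single, single_mul_single, tau_single, tau_single, hh, D.t_comm]
  t_d a := by
    induction a using MonoidAlgebra.induction_linear with
    | zero => simp
    | add a a' h1 h2 => rw [map_add, map_add, h1, h2, add_zero]
    | single g s => rw [cw_single, tau_single, D.t_d, smul_zero]

theorem DTG_t (h : G → ℤ) (hh : ∀ x y, h (x * y) = h (y * x)) (x : MonoidAlgebra S G) :
    (DTG D h hh).t x = tau D.t h x := rfl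

theorem DTG_d (h : G → ℤ) (hh : ∀ x y, h (x * y) = h (y * x)) (x : MonoidAlgebra S G) :
    (DTG D h hh).d x = cw D.d x := rfl

/-- change of coefficients -/
def homG {S' Λ' : Type} [CommRing S'] [AddCommGroup Λ'] {D : DT S Λ} {D' : DT S' Λ'}
    (F : DT.Hom D D') (h : G → ℤ) (hh : ∀ x y, h (x * y) = h (y * x)) :
    DT.Hom (DTG D h hh) (DTG D' h hh) where
  f := mapRingHom G F.f
  g := F.g
  hd x := by
    show mapRingHom G F.f (cw D.d x) = cw D'.d (mapRingHom G F.f x)
    induction x using MonoidAlgebra.induction_linear with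
    | zero => simp
    | add a a' h1 h2 => rw [map_add, map_add, h1, h2, map_add, map_add]
    | single g s => rw [cw_single, mapRingHom_single, mapRingHom_single, cw_single, F.hd]
  ht x := by
    show F.g (tau D.t h x) = tau D'.t h (mapRingHom G F.f x)
    induction x using MonoidAlgebra.induction_linear with
    | zero => simp
    | add a a' h1 h2 => rw [map_add, map_add, h1, h2, map_add, map_add]
    | single g s => rw [tau_single, mapRingHom_single, tau_single, map_zsmul, F.ht]

/-- change of groups -/
def homφ {H : Type} [Group H] (φ : H →* G) (h : G → ℤ) (hh : ∀ x y, h (x * y) = h (y * x)) :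
    DT.Hom (DTG D (fun x => h (φ x)) (fun x y => by rw [map_mul, map_mul, hh])) (DTG D h hh) where
  f := mapDomainRingHom S φ
  g := AddMonoidHom.id Λ
  hd x := by
    show mapDomainRingHom S φ (cw D.d x) = cw D.d (mapDomainRingHom S φ x)
    induction x using MonoidAlgebra.induction_linear with
    | zero => simp
    | add a a' h1 h2 => rw [map_add, map_add, h1, h2, map_add, map_add]
    | single g s =>
      rw [cw_single, mapDomainRingHom_apply, mapDomainRingHom_apply, mapDomain_single,
        mapDomain_single, cw_single]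
  ht x := by
    show tau D.t (fun x => h (φ x)) x = tau D.t h (mapDomainRingHom S φ x)
    induction x using MonoidAlgebra.induction_linear with
    | zero => simp
    | add a a' h1 h2 => rw [map_add, h1, h2, map_add, map_add]
    | single g s =>
      rw [mapDomainRingHom_apply, mapDomain_single, tau_single, tau_single]

end grp

/-! ### the thick data of a field of positive characteristic -/

section wit

variable (p : ℕ) [hp : Fact p.Prime] (k : Type) [Field k] [CharP k p]

/-- the ring of Witt vectors -/
abbrev OO : Type := WittVector p k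

/-- the augmentation ideal -/
def II : Ideal (OO p k) := RingHom.ker (WittVector.constantCoeff : OO p k →+* k)

/-- truncations -/
abbrev On (n : ℕ) : Type := OO p k ⧸ (II p k) ^ (n + 1)

theorem On_le (n : ℕ) (a : OO p k) (ha : a ∈ (II p k) ^ (n + 1)) :
    WittVector.constantCoeff a = 0 :=
  (Ideal.pow_le_self (Nat.succ_ne_zero n)) ha

/-- the projection to the field -/
def pn (n : ℕ) : On p k n →+* k := Ideal.Quotient.lift _ WittVector.constantCoeff (On_le p k n)

theorem pn_surjective (n : ℕ) : Function.Surjective (pn p k n) := by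
  intro a
  refine ⟨Ideal.Quotient.mk _ (WittVector.teichmuller p a), ?_⟩
  unfold pn
  rw [Ideal.Quotient.lift_mk]
  exact WittVector.teichmuller_coeff_zero p a

theorem pn_nil (n : ℕ) : ∃ N : ℕ, RingHom.ker (pn p k n) ^ N = ⊥ := by
  refine ⟨n + 1, ?_⟩
  have hker : RingHom.ker (pn p k n) = (II p k).map (Ideal.Quotient.mk ((II p k) ^ (n + 1))) :=
    Ideal.ker_quotient_lift _ _
  rw [hker, ← Ideal.map_pow, Ideal.map_quotient_self]

/-- a nonzero integer is nonzero in some truncation -/
theorem int_ne (m : ℤ) (hm : m ≠ 0) : ∃ n, ((m : ℤ) : On p k n) ≠ 0 := by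
  have hpr := hp.out
  obtain ⟨s, m', hm', hms⟩ : ∃ (s : ℕ) (m' : ℤ), ¬ (p : ℤ) ∣ m' ∧ m = (p : ℤ) ^ s * m' := by
    have hfin : FiniteMultiplicity (p : ℤ) m := by
      rw [Int.finiteMultiplicity_iff]
      refine ⟨?_, hm⟩
      simpa using hpr.ne_one
    obtain ⟨c, hc1, hc2⟩ := hfin.exists_eq_pow_mul_and_not_dvd
    exact ⟨_, c, hc2, hc1⟩
  refine ⟨s, fun h => ?_⟩
  have hm'u : IsUnit ((m' : ℤ) : OO p k) := by
    apply WittVector.isUnit_of_coeff_zero_ne_zero
    have h1 : (WittVector.constantCoeff : OO p k →+* k) ((m' : ℤ) : OO p k) = (m' : k) :=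
      map_intCast _ _
    intro h2
    apply hm'
    rw [← CharP.intCast_eq_zero_iff k p m', ← h1]
    exact h2
  have h3 : ((m : ℤ) : OO p k) ∈ (II p k) ^ (s + 1) := by
    rw [← Ideal.Quotient.eq_zero_iff_mem, map_intCast]
    exact h
  have h4 : ((p : OO p k)) ^ s ∈ (II p k) ^ (s + 1) := by
    have h5 : ((m : ℤ) : OO p k) = (p : OO p k) ^ s * ((m' : ℤ) : OO p k) := by
      rw [hms]
      push_cast
      ring
    rw [h5] at h3
    obtain ⟨w, hw⟩ := hm'u.exists_right_inv
    have h6 := Ideal.mul_mem_right w _ h3
    rwa [mul_assoc, hw, mul_one] at h6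
  have h7 := Pool.Agent.Y67.SL.pow_coeff p k (s + 1) _ h4 s (Nat.lt_succ_self s)
  rw [WittVector.coeff_p_pow] at h7
  exact one_ne_zero h7

theorem OO_torsionfree (n : ℕ) (x : OO p k) (h : (n + 1) • x = 0) : x = 0 := by
  rw [nsmul_eq_mul] at h
  rcases mul_eq_zero.1 h with h1 | h1
  · exfalso
    obtain ⟨m, hm⟩ := int_ne p k (((n + 1 : ℕ) : ℤ)) (by omega)
    apply hm
    have h2 : (Ideal.Quotient.mk ((II p k) ^ (m + 1))) (((n + 1 : ℕ) : OO p k)) = 0 := by
      rw [h1, map_zero]
    rw [map_natCast] at h2
    rw [Int.cast_natCast]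
    exact h2
  · exact h1

end wit

end

end Pool.Agent.E14.CP
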