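import Pool.Agent.Y69.TK.UnK

/-!
# `K₁` of a commutative semilocal ring
-/

open Matrix

namespace Pool.Agent.E14.CP

open H970SH H842 Pool.Agent.Y69 Pool.Agent.Y69.TK.UnK

noncomputable section

theorem finite_max (R S : Type) [CommRing R] [CommRing S] [Algebra R S] [Module.Finite R S]
    [Finite (MaximalSpectrum R)] : Finite (MaximalSpectrum S) := by
  have h1 : (Set.range (MaximalSpectrum.toPrimeSpectrum (R := R))).Finite := Set.finite_range _
  have h2 := Algebra.QuasiFinite.finite_comap_preimage (R := R) (S := S) h1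
  have h3 : Finite ((PrimeSpectrum.comap (algebraMap R S)) ⁻¹'
    (Set.range (MaximalSpectrum.toPrimeSpectrum (R := R)))) := h2
  refine Finite.of_injective (fun m : MaximalSpectrum S =>
    (⟨m.toPrimeSpectrum, ?_⟩ : ((PrimeSpectrum.comap (algebraMap R S)) ⁻¹'
      (Set.range (MaximalSpectrum.toPrimeSpectrum (R := R)))))) ?_
  · have := m.isMaximal
    exact ⟨⟨m.asIdeal.comap (algebraMap R S), Ideal.isMaximal_comap_of_isIntegral_of_isMaximal _⟩,
      rfl⟩
  · intro m m' h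
    apply MaximalSpectrum.toPrimeSpectrum_injective
    exact congrArg Subtype.val h

variable {B : Type} [CommRing B]

/-- stable range one -/
theorem sr1 [Finite (MaximalSpectrum B)] {κ : Type} [Fintype κ] (a : B) (c : κ → B) (x : B)
    (y : κ → B) (h : x * a + ∑ i, y i * c i = 1) : ∃ β : κ → B, IsUnit (a + ∑ i, β i * c i) := by
  classical
  have : Fintype (MaximalSpectrum B) := Fintype.ofFinite _
  -- for every maximal ideal choose the residues
  have h1 : ∀ m : MaximalSpectrum B, ∃ b : κ → B, a + ∑ i, b i * c i ∉ m.asIdeal := by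
    intro m
    by_cases ha : a ∈ m.asIdeal
    · obtain ⟨i, hi⟩ : ∃ i, c i ∉ m.asIdeal := by
        by_contra hcon
        push Not at hcon
        apply (Ideal.ne_top_iff_one _).1 m.isMaximal.ne_top
        rw [← h]
        exact Ideal.add_mem _ (Ideal.mul_mem_left _ _ ha)
          (Ideal.sum_mem _ fun i _ => Ideal.mul_mem_left _ _ (hcon i))
      refine ⟨Pi.single i 1, fun hmem => hi ?_⟩
      have h2 : ∑ j, (Pi.single i 1 : κ → B) j * c j = c i := by
        rw [Finset.sum_eq_single i]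
        · rw [Pi.single_eq_same, one_mul]
        · intro j _ hj
          rw [Pi.single_eq_of_ne hj, zero_mul]
        · intro h; exact absurd (Finset.mem_univ _) h
      rw [h2] at hmem
      exact (Ideal.add_mem_iff_right _ ha).1 hmem
    · refine ⟨0, ?_⟩
      simpa using ha
  choose b hb using h1
  have hcop : Pairwise (Function.onFun IsCoprime fun m : MaximalSpectrum B => m.asIdeal) := by
    intro m m' hne
    exact Ideal.isCoprime_iff_sup_eq.mpr (m.isMaximal.coprime_of_ne m'.isMaximal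
      (fun h => hne (MaximalSpectrum.ext h)))
  have h2 : ∀ i : κ, ∃ r : B, ∀ m : MaximalSpectrum B, r - b m i ∈ m.asIdeal := by
    intro i
    obtain ⟨r, hr⟩ := Ideal.exists_forall_sub_mem_ideal (I := fun m : MaximalSpectrum B =>
      m.asIdeal) hcop (fun m => b m i)
    exact ⟨r, hr⟩
  choose β hβ using h2
  refine ⟨β, ?_⟩
  by_contra hu
  obtain ⟨M, hM, hmem⟩ := exists_max_ideal_of_mem_nonunits hu
  apply hb ⟨M, hM⟩
  have h3 : a + ∑ i, b ⟨M, hM⟩ i * c i = (a + ∑ i, β i * c i) -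
      ∑ i, (β i - b ⟨M, hM⟩ i) * c i := by
    simp only [sub_mul, Finset.sum_sub_distrib]
    ring
  rw [h3]
  exact Ideal.sub_mem _ hmem (Ideal.sum_mem _ fun i _ => Ideal.mul_mem_right _ _ (hβ i ⟨M, hM⟩))

/-- splitting off one row -/
theorem cl_pivot [Finite (MaximalSpectrum B)] {κ : Type} [Fintype κ] [DecidableEq κ]
    (M : (Matrix (Unit ⊕ κ) (Unit ⊕ κ) B)ˣ) :
    ∃ (u : Bˣ) (D : (Matrix κ κ B)ˣ), cl M = cl (unit1 u) + cl D := by
  set m : Matrix (Unit ⊕ κ) (Unit ⊕ κ) B := (M : Matrix (Unit ⊕ κ) (Unit ⊕ κ) B) with hm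
  set n : Matrix (Unit ⊕ κ) (Unit ⊕ κ) B := ((M⁻¹ : (Matrix (Unit ⊕ κ) (Unit ⊕ κ) B)ˣ) :
    Matrix (Unit ⊕ κ) (Unit ⊕ κ) B) with hn
  have h0 : n * m = 1 := M.inv_mul
  have h1 : n (Sum.inl ()) (Sum.inl ()) * m (Sum.inl ()) (Sum.inl ()) +
      ∑ i, n (Sum.inl ()) (Sum.inr i) * m (Sum.inr i) (Sum.inl ()) = 1 := by
    have h2 := congrFun (congrFun h0 (Sum.inl ())) (Sum.inl ())
    rw [Matrix.mul_apply, Fintype.sum_sum_type, Matrix.one_apply_eq] at h2
    simpa using h2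
  obtain ⟨β, u, hu⟩ := sr1 _ _ _ _ h1
  -- first step
  let b : Matrix Unit κ B := Matrix.of fun _ i => β i
  let M1 : (Matrix (Unit ⊕ κ) (Unit ⊕ κ) B)ˣ := upU b * M
  have hM1 : cl M1 = cl M := by rw [cl_mul, cl_upU, zero_add]
  have hM1a : (M1 : Matrix (Unit ⊕ κ) (Unit ⊕ κ) B) (Sum.inl ()) (Sum.inl ()) = (u : B) := by
    show ((fromBlocks 1 b 0 1 : Matrix (Unit ⊕ κ) (Unit ⊕ κ) B) * m) (Sum.inl ()) (Sum.inl ()) = _
    rw [Matrix.mul_apply, Fintype.sum_sum_type, hu]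
    simp [b]
  let c : Matrix κ Unit B := Matrix.of fun i _ =>
    (M1 : Matrix (Unit ⊕ κ) (Unit ⊕ κ) B) (Sum.inr i) (Sum.inl ()) * ((u⁻¹ : Bˣ) : B)
  let M2 : (Matrix (Unit ⊕ κ) (Unit ⊕ κ) B)ˣ := loU (-c) * M1
  have hM2 : cl M2 = cl M := by rw [cl_mul, cl_loU, zero_add, hM1]
  have hval : (M2 : Matrix (Unit ⊕ κ) (Unit ⊕ κ) B) =
      (fromBlocks 1 0 (-c) 1 : Matrix (Unit ⊕ κ) (Unit ⊕ κ) B) *
        (M1 : Matrix (Unit ⊕ κ) (Unit ⊕ κ) B) := rfl
  have h11 : (M2 : Matrix (Unit ⊕ κ) (Unit ⊕ κ) B).toBlocks₁₁ = (unit1 u : Matrix Unit Unit B) := by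
    ext i j
    rw [hval]
    show ((fromBlocks 1 0 (-c) 1 : Matrix (Unit ⊕ κ) (Unit ⊕ κ) B) * (M1 : Matrix (Unit ⊕ κ) (Unit ⊕ κ) B)) (Sum.inl i) (Sum.inl j) = _
    rw [Matrix.mul_apply, Fintype.sum_sum_type]
    obtain rfl : i = () := rfl
    obtain rfl : j = () := rfl
    simp [hM1a, unit1]
  have h21 : (M2 : Matrix (Unit ⊕ κ) (Unit ⊕ κ) B).toBlocks₂₁ = 0 := by
    ext i j
    rw [hval]
    show ((fromBlocks 1 0 (-c) 1 : Matrix (Unit ⊕ κ) (Unit ⊕ κ) B) * (M1 : Matrix (Unit ⊕ κ) (Unit ⊕ κ) B)) (Sum.inr i) (Sum.inl j) = _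
    rw [Matrix.mul_apply, Fintype.sum_sum_type]
    obtain rfl : j = () := rfl
    simp [hM1a, c, Matrix.one_apply]
  set D : Matrix κ κ B := (M2 : Matrix (Unit ⊕ κ) (Unit ⊕ κ) B).toBlocks₂₂ with hD
  have hblk : (M2 : Matrix (Unit ⊕ κ) (Unit ⊕ κ) B) = fromBlocks (unit1 u : Matrix Unit Unit B)
      (M2 : Matrix (Unit ⊕ κ) (Unit ⊕ κ) B).toBlocks₁₂ 0 D := by
    rw [← h11, ← h21, hD, fromBlocks_toBlocks]
  have hdet : IsUnit D.det := by
    have h3 : IsUnit (M2 : Matrix (Unit ⊕ κ) (Unit ⊕ κ) B).det :=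
      (Matrix.isUnit_iff_isUnit_det _).1 M2.isUnit
    rw [hblk, det_fromBlocks_zero₂₁] at h3
    exact isUnit_of_mul_isUnit_right h3
  obtain ⟨D', hD'⟩ := (Matrix.isUnit_iff_isUnit_det D).2 hdet
  refine ⟨u, D', ?_⟩
  rw [← hM2]
  exact cl_upper (unit1 u) D' (M2 : Matrix (Unit ⊕ κ) (Unit ⊕ κ) B).toBlocks₁₂ M2 (by
    rw [hD']; exact hblk)

/-- **`K₁` of a commutative semilocal ring consists of classes of units.** -/
theorem K1_semilocal [Finite (MaximalSpectrum B)] (x : K1 B) : ∃ u : Bˣ, x = cl (unit1 u) := by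
  obtain ⟨n, M, rfl⟩ := K1_exists x
  show cl M ∈ SU B
  induction n with
  | zero =>
    have : M = 1 := by
      ext i
      exact i.elim0
    rw [this, cl_one]
    exact AddSubgroup.zero_mem _
  | succ n ih =>
    let e : Fin (n + 1) ≃ Unit ⊕ Fin n :=
      (finSumFinEquiv (m := n) (n := 1)).symm.trans ((Equiv.sumComm _ _).trans
        (Equiv.sumCongr (Equiv.ofUnique _ _) (Equiv.refl _)))
    obtain ⟨u, D, h⟩ := cl_pivot (reindexUnit e M)
    rw [cl_reindex] at h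
    rw [h]
    exact AddSubgroup.add_mem _ ⟨u, rfl⟩ (ih D)

/-- `K₁` of the group ring of a finite abelian group over a semilocal ring -/
theorem K1_groupRing (R : Type) [CommRing R] [Finite (MaximalSpectrum R)] (C : Type) [CommGroup C]
    [Finite C] (x : K1 (MonoidAlgebra R C)) : ∃ u : (MonoidAlgebra R C)ˣ, x = cl (unit1 u) := by
  have h1 : Module.Finite R (MonoidAlgebra R C) :=
    Module.Finite.equiv (MonoidAlgebra.coeffLinearEquiv (S := R) (M := C) R).symm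
  have := finite_max R (MonoidAlgebra R C)
  exact K1_semilocal x

end

end Pool.Agent.E14.CP
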