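import Pool.Agent.E14.CP.Tr
import Pool.Agent.E14.CP.SlU

/-!
# The logarithmic trace for nilpotent extensions: abstract part
-/

open Matrix

namespace Pool.Agent.E14.CP

noncomputable section

/-- the coefficients of the logarithm -/
def lc (k : ℕ) : ℚ := (-1) ^ k * ((k : ℚ) + 1)⁻¹

theorem lc_mul (k : ℕ) : lc k * ((k : ℚ) + 1) = (-1) ^ k := by
  unfold lc
  rw [mul_assoc, inv_mul_cancel₀ (by positivity), mul_one]

section LL

variable {R Λ : Type} [Ring R] [AddCommGroup Λ] [Module ℚ Λ]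

theorem LL_stab (t : R →+ Λ) (X : R) (N M : ℕ) (hN : X ^ N = 0) (hNM : N ≤ M) :
    ∑ k ∈ Finset.range M, lc k • t (X ^ (k + 1)) =
      ∑ k ∈ Finset.range N, lc k • t (X ^ (k + 1)) := by
  symm
  apply Finset.sum_subset (Finset.range_mono hNM)
  intro k _ hk
  rw [Finset.mem_range, not_lt] at hk
  rw [pow_eq_zero_of_le (by omega) hN, map_zero, smul_zero]

open Classical in
/-- the trace of the logarithm of `1 + X` -/
def LL (t : R →+ Λ) (X : R) : Λ :=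
  if h : IsNilpotent X then ∑ k ∈ Finset.range h.choose, lc k • t (X ^ (k + 1)) else 0

theorem LL_eq (t : R →+ Λ) (X : R) (N : ℕ) (hN : X ^ N = 0) :
    LL t X = ∑ k ∈ Finset.range N, lc k • t (X ^ (k + 1)) := by
  have h : IsNilpotent X := ⟨N, hN⟩
  unfold LL
  rw [dif_pos h]
  rcases le_total N h.choose with h1 | h1
  · exact LL_stab t X _ _ hN h1
  · exact (LL_stab t X _ _ h.choose_spec h1).symm

theorem LL_zero (t : R →+ Λ) : LL t (0 : R) = 0 := by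
  rw [LL_eq t 0 1 (by rw [pow_one])]
  simp

theorem rat_smul {Λ' : Type} [AddCommGroup Λ'] [Module ℚ Λ'] (g : Λ →+ Λ') (q : ℚ) (x : Λ) :
    g (q • x) = q • g x := map_rat_smul g q x

theorem LL_congr {R' Λ' : Type} [Ring R'] [AddCommGroup Λ'] [Module ℚ Λ'] (t : R →+ Λ)
    (t' : R' →+ Λ') (g : Λ →+ Λ') (X : R) (X' : R') (hX : IsNilpotent X) (hX' : IsNilpotent X')
    (h : ∀ k, t' (X' ^ (k + 1)) = g (t (X ^ (k + 1)))) : LL t' X' = g (LL t X) := by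
  obtain ⟨N, hN⟩ := hX
  obtain ⟨M, hM⟩ := hX'
  rw [LL_eq t X (max N M) (pow_eq_zero_of_le (le_max_left _ _) hN),
    LL_eq t' X' (max N M) (pow_eq_zero_of_le (le_max_right _ _) hM), map_sum]
  refine Finset.sum_congr rfl fun k _ => ?_
  rw [rat_smul, h]

/-- invariance under conjugation -/
theorem LL_conj (t : R →+ Λ) (tc : ∀ a b, t (a * b) = t (b * a)) (X : R) (hX : IsNilpotent X)
    (u : Rˣ) : LL t (((u⁻¹ : Rˣ) : R) * X * (u : R)) = LL t X := by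
  have h1 : ∀ k : ℕ, (((u⁻¹ : Rˣ) : R) * X * (u : R)) ^ k = ((u⁻¹ : Rˣ) : R) * X ^ k * (u : R) := by
    intro k
    induction k with
    | zero => rw [pow_zero, pow_zero, mul_one, Units.inv_mul]
    | succ k ih =>
      rw [pow_succ, ih, pow_succ]
      calc ((u⁻¹ : Rˣ) : R) * X ^ k * (u : R) * (((u⁻¹ : Rˣ) : R) * X * (u : R))
          = ((u⁻¹ : Rˣ) : R) * X ^ k * ((u : R) * ((u⁻¹ : Rˣ) : R)) * X * (u : R) := by
            simp only [mul_assoc]
        _ = ((u⁻¹ : Rˣ) : R) * (X ^ k * X) * (u : R) := by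
            rw [Units.mul_inv, mul_one]
            simp only [mul_assoc]
  apply LL_congr t t (AddMonoidHom.id Λ) X _ hX
  · obtain ⟨N, hN⟩ := hX
    refine ⟨N, ?_⟩
    rw [h1, hN, mul_zero, zero_mul]
  · intro k
    rw [h1, tc, ← mul_assoc, Units.mul_inv, one_mul]
    rfl

/-- the derivative -/
theorem LL_d (d : R →+ R) (leib : ∀ a b, d (a * b) = d a * b + a * d b) (t : R →+ Λ)
    (tc : ∀ a b, t (a * b) = t (b * a)) (δ : Λ →+ Λ) (hδ : ∀ x, δ (t x) = t (d x)) (X : R)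
    (hX : IsNilpotent X) (u : Rˣ) (hu : (u : R) = 1 + X) :
    δ (LL t X) = t (((u⁻¹ : Rˣ) : R) * d X) := by
  have h0 : ∀ m n : ℕ, t (X ^ m * d (X ^ (n + 1))) = (n + 1) • t (X ^ (m + n) * d X) := by
    intro m n
    induction n generalizing m with
    | zero => rw [zero_add, pow_one, one_smul, add_zero]
    | succ n ih =>
      have h1 : t (X ^ m * d (X ^ (n + 1 + 1))) =
          t (X ^ (m + 1) * d (X ^ (n + 1))) + t (X ^ (m + (n + 1)) * d X) := by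
        rw [pow_succ X (n + 1), leib, mul_add, map_add]
        congr 1
        · rw [← mul_assoc, tc, ← mul_assoc, ← pow_succ']
        · rw [← mul_assoc, ← pow_add]
      have h2 : m + 1 + n = m + (n + 1) := by omega
      rw [h1, ih, h2, succ_nsmul _ (n + 1)]
  obtain ⟨N, hN⟩ := hX
  have h2 : ((u⁻¹ : Rˣ) : R) = ∑ i ∈ Finset.range N, (-X) ^ i := by
    have h3 : (u : R) * ∑ i ∈ Finset.range N, (-X) ^ i = 1 := by
      have h4 : (u : R) = 1 - (-X) := by rw [hu, sub_neg_eq_add]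
      rw [h4, mul_neg_geom_sum, neg_pow, hN, mul_zero, sub_zero]
    exact Units.inv_eq_of_mul_eq_one_right h3
  rw [LL_eq t X N hN, map_sum, h2, Finset.sum_mul, map_sum]
  refine Finset.sum_congr rfl fun k _ => ?_
  have h5 := h0 0 k
  rw [pow_zero, one_mul, zero_add] at h5
  rw [rat_smul, hδ, h5, ← Nat.cast_smul_eq_nsmul ℚ, smul_smul, Nat.cast_add, Nat.cast_one, lc_mul,
    neg_pow X]
  rcases neg_one_pow_eq_or ℚ k with h6 | h6
  · have h7 : (-1 : R) ^ k = 1 := by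
      rcases Nat.even_or_odd k with h8 | h8
      · exact h8.neg_one_pow
      · rw [h8.neg_one_pow] at h6
        norm_num at h6
    rw [h6, h7, one_smul, one_mul]
  · have h7 : (-1 : R) ^ k = -1 := by
      rcases Nat.even_or_odd k with h8 | h8
      · rw [h8.neg_one_pow] at h6
        norm_num at h6
      · exact h8.neg_one_pow
    rw [h6, h7, neg_one_smul, neg_one_mul, neg_mul, map_neg]

end LL

/-- homotopy data -/
structure Hty (R0 R1 Λ0 Λ1 : Type) [Ring R0] [Ring R1] [AddCommGroup Λ0] [AddCommGroup Λ1] where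
  c : R0 →+* R1
  e0 : R1 →+* R0
  e1 : R1 →+* R0
  e0c : ∀ x, e0 (c x) = x
  e1c : ∀ x, e1 (c x) = x
  T : R1
  Tc : ∀ x, T * x = x * T
  e0T : e0 T = 0
  e1T : e1 T = 1
  d : R1 →+ R1
  leib : ∀ a b, d (a * b) = d a * b + a * d b
  dc : ∀ x, d (c x) = 0
  dT : d T = 1
  t0 : R0 →+ Λ0
  t1 : R1 →+ Λ1
  tc : ∀ a b, t1 (a * b) = t1 (b * a)
  δ : Λ1 →+ Λ1
  tδ : ∀ x, δ (t1 x) = t1 (d x)
  ε0 : Λ1 →+ Λ0
  ε1 : Λ1 →+ Λ0
  tε0 : ∀ x, ε0 (t1 x) = t0 (e0 x)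
  tε1 : ∀ x, ε1 (t1 x) = t0 (e1 x)
  cst : ∀ y, δ y = 0 → ε0 y = ε1 y

theorem Hty.LL_add {R0 R1 Λ0 Λ1 : Type} [Ring R0] [Ring R1] [AddCommGroup Λ0] [AddCommGroup Λ1]
    [Module ℚ Λ0] [Module ℚ Λ1] (H : Hty R0 R1 Λ0 Λ1) (X Y : R0) (hX : IsNilpotent X)
    (hY : IsNilpotent Y)
    (hZ : IsNilpotent (H.T * H.c X + H.c Y + H.T * H.c X * H.c Y)) :
    LL H.t0 (X + Y + X * Y) = LL H.t0 X + LL H.t0 Y := by
  have hTX : IsNilpotent (H.T * H.c X) := by
    have h1 : Commute H.T (H.c X) := H.Tc _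
    exact h1.isNilpotent_mul_left (hX.map H.c)
  obtain ⟨u, hu⟩ := hTX.isUnit_one_add
  obtain ⟨v, hv⟩ := (hY.map H.c).isUnit_one_add
  have huv : ((u * v : R1ˣ) : R1) = 1 + (H.T * H.c X + H.c Y + H.T * H.c X * H.c Y) := by
    rw [Units.val_mul, hu, hv]
    noncomm_ring
  have h1 := LL_d H.d H.leib H.t1 H.tc H.δ H.tδ _ hTX u hu
  have h2 := LL_d H.d H.leib H.t1 H.tc H.δ H.tδ _ hZ (u * v) huv
  have h3 : H.d (H.T * H.c X) = H.c X := by
    rw [H.leib, H.dT, H.dc, one_mul, mul_zero, add_zero]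
  have h4 : H.d (H.T * H.c X + H.c Y + H.T * H.c X * H.c Y) = H.c X * (v : R1) := by
    rw [map_add, map_add, h3, H.dc, H.leib, h3, H.dc, mul_zero, add_zero, add_zero, hv]
    noncomm_ring
  have h5 : H.t1 ((((u * v)⁻¹ : R1ˣ) : R1) * (H.c X * (v : R1))) =
      H.t1 (((u⁻¹ : R1ˣ) : R1) * H.c X) := by
    rw [← mul_assoc, H.tc, _root_.mul_inv_rev, Units.val_mul]
    congr 1
    calc (v : R1) * (((v⁻¹ : R1ˣ) : R1) * ((u⁻¹ : R1ˣ) : R1) * H.c X)
        = ((v : R1) * ((v⁻¹ : R1ˣ) : R1)) * (((u⁻¹ : R1ˣ) : R1) * H.c X) := by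
          simp only [mul_assoc]
      _ = _ := by rw [Units.mul_inv, one_mul]
  have h6 : H.δ (LL H.t1 (H.T * H.c X + H.c Y + H.T * H.c X * H.c Y) -
      LL H.t1 (H.T * H.c X)) = 0 := by
    rw [map_sub, h1, h2, h3, h4, h5, sub_self]
  have h7 := H.cst _ h6
  have c0 : ∀ W : R1, IsNilpotent W → H.ε0 (LL H.t1 W) = LL H.t0 (H.e0 W) := fun W hW =>
    (LL_congr H.t1 H.t0 H.ε0 W (H.e0 W) hW (hW.map H.e0) (fun k => by
      rw [H.tε0, map_pow H.e0])).symm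
  have c1 : ∀ W : R1, IsNilpotent W → H.ε1 (LL H.t1 W) = LL H.t0 (H.e1 W) := fun W hW =>
    (LL_congr H.t1 H.t0 H.ε1 W (H.e1 W) hW (hW.map H.e1) (fun k => by
      rw [H.tε1, map_pow H.e1])).symm
  rw [map_sub, map_sub, c0 _ hZ, c0 _ hTX, c1 _ hZ, c1 _ hTX] at h7
  simp only [map_add, map_mul, H.e0T, H.e1T, H.e0c, H.e1c, zero_mul, zero_add, one_mul,
    add_zero] at h7
  rw [LL_zero, sub_zero] at h7
  rw [h7]
  abel

end

end Pool.Agent.E14.CP
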