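import Pool.Agent.E14.CP.Lg

/-!
# The logarithmic trace on `K₁` for split nilpotent extensions of ℚ-algebras
-/

open Matrix

namespace Pool.Agent.E14.CP

open H970SH MonoidAlgebra Pool.Agent.Y69 Pool.Agent.Y69.KTr Pool.Agent.Y490.SL
open H842 hiding ps psHom ps_of ps_th

noncomputable section

/-- a ring with an idempotent endomorphism with nilpotent kernel -/
structure Spl (B : Type) [CommRing B] where
  σ : B →+* B
  idem : ∀ x, σ (σ x) = σ x
  nil : ∃ N, RingHom.ker σ ^ N = ⊥

/-- the identity as a trace -/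
def D0 (S : Type) [CommRing S] : DT S S where
  d := 0
  leib := by simp
  t := AddMonoidHom.id S
  t_comm := mul_comm
  t_d := by simp

/-- the derivative of polynomials -/
def D1 (S : Type) [CommRing S] : DT (Polynomial S) (Polynomial S) where
  d := (Polynomial.derivative : Polynomial S →ₗ[S] Polynomial S).toAddMonoidHom
  leib := by
    intro a b
    show Polynomial.derivative (a * b) = _
    rw [Polynomial.derivative_mul]
    rfl
  t := 0
  t_comm := by simp
  t_d := by simp

section tr

variable {G : Type} [Group G] (h : G → ℤ) (hh : ∀ x y, h (x * y) = h (y * x))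

/-- the trace of matrices over group rings -/
def tM (S : Type) [CommRing S] (ι : Type) [Fintype ι] [DecidableEq ι] :
    Matrix ι ι (MonoidAlgebra S G) →+ S := ((DTG (D0 S) h hh).mat ι).t

theorem tM_apply (S : Type) [CommRing S] (ι : Type) [Fintype ι] [DecidableEq ι]
    (M : Matrix ι ι (MonoidAlgebra S G)) :
    tM h hh S ι M = ∑ i, tau (AddMonoidHom.id S) h (M i i) := rfl

theorem tM_comm (S : Type) [CommRing S] (ι : Type) [Fintype ι] [DecidableEq ι]
    (M N : Matrix ι ι (MonoidAlgebra S G)) : tM h hh S ι (M * N) = tM h hh S ι (N * M) :=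
  ((DTG (D0 S) h hh).mat ι).t_comm M N

omit hh in
theorem tau_cw {S S' : Type} [CommRing S] [CommRing S'] (f : S →+ S') (x : MonoidAlgebra S G) :
    tau (AddMonoidHom.id S') h (cw f x) = f (tau (AddMonoidHom.id S) h x) := by
  induction x using MonoidAlgebra.induction_linear with
  | zero => simp
  | add a a' h1 h2 => rw [map_add, map_add, h1, h2, map_add, map_add]
  | single g s =>
    rw [cw_single, tau_single, tau_single, map_zsmul]
    rfl

theorem tM_cw {S S' : Type} [CommRing S] [CommRing S'] (f : S →+ S') (ι : Type) [Fintype ι]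
    [DecidableEq ι] (M : Matrix ι ι (MonoidAlgebra S G)) :
    tM h hh S' ι (M.map (cw f)) = f (tM h hh S ι M) := by
  rw [tM_apply, tM_apply, map_sum]
  refine Finset.sum_congr rfl fun i _ => ?_
  rw [Matrix.map_apply, tau_cw]

theorem mapRing_inv {S S' : Type} [CommRing S] [CommRing S'] (f : S →+* S') (g : S' →+* S)
    (hgf : ∀ x, g (f x) = x) (x : MonoidAlgebra S G) :
    mapRingHom G g (mapRingHom G f x) = x := by
  ext m
  rw [MonoidAlgebra.coeff_mapRingHom, MonoidAlgebra.coeff_mapRingHom, hgf]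

variable (B : Type) [CommRing B] [Algebra ℚ B]

theorem der_const (y : Polynomial B) (hy : Polynomial.derivative y = 0) :
    Polynomial.eval 0 y = Polynomial.eval 1 y := by
  have h1 : ∀ n, y.coeff (n + 1) = 0 := by
    intro n
    have h2 : (Polynomial.derivative y).coeff n = 0 := by rw [hy, Polynomial.coeff_zero]
    rw [Polynomial.coeff_derivative] at h2
    have h3 : y.coeff (n + 1) = (algebraMap ℚ B ((n : ℚ) + 1)⁻¹) *
        (y.coeff (n + 1) * ((n : B) + 1)) := by
      have h4 : (n : B) + 1 = algebraMap ℚ B ((n : ℚ) + 1) := by simp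
      rw [h4, mul_left_comm, ← map_mul, inv_mul_cancel₀ (by positivity), map_one, mul_one]
    rw [h3, h2, mul_zero]
  have h2 : y = Polynomial.C (y.coeff 0) := by
    ext n
    cases n with
    | zero => rw [Polynomial.coeff_C_zero]
    | succ n => rw [h1, Polynomial.coeff_C_succ]
  rw [h2, Polynomial.eval_C, Polynomial.eval_C]

/-- the homotopy data -/
def hty (ι : Type) [Fintype ι] [DecidableEq ι] : Hty (Matrix ι ι (MonoidAlgebra B G))
    (Matrix ι ι (MonoidAlgebra (Polynomial B) G)) B (Polynomial B) where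
  c := (mapRingHom G Polynomial.C).mapMatrix
  e0 := (mapRingHom G (Polynomial.evalRingHom 0)).mapMatrix
  e1 := (mapRingHom G (Polynomial.evalRingHom 1)).mapMatrix
  e0c M := by
    ext i j : 1
    exact mapRing_inv _ _ (fun x => Polynomial.eval_C) _
  e1c M := by
    ext i j : 1
    exact mapRing_inv _ _ (fun x => Polynomial.eval_C) _
  T := Matrix.diagonal fun _ => MonoidAlgebra.single 1 Polynomial.X
  Tc M := by
    ext i j : 1
    rw [Matrix.diagonal_mul, Matrix.mul_diagonal, MonoidAlgebra.single_one_comm]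
  e0T := by
    rw [RingHom.mapMatrix_apply, Matrix.diagonal_map (map_zero _)]
    simp only [mapRingHom_single]
    ext i j : 1
    simp
  e1T := by
    rw [RingHom.mapMatrix_apply, Matrix.diagonal_map (map_zero _), ← Matrix.diagonal_one]
    congr 1
    funext i
    simp only [mapRingHom_single]
    rw [Polynomial.coe_evalRingHom, Polynomial.eval_X]
    rfl
  d := ((DTG (D1 B) h hh).mat ι).d
  leib := ((DTG (D1 B) h hh).mat ι).leib
  dc M := by
    ext i j : 1
    show cw _ (mapRingHom G Polynomial.C (M i j)) = 0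
    generalize M i j = x
    induction x using MonoidAlgebra.induction_linear with
    | zero => simp
    | add a a' h1 h2 => rw [map_add, map_add, h1, h2, add_zero]
    | single g s =>
      rw [mapRingHom_single, cw_single]
      show MonoidAlgebra.single g (Polynomial.derivative (Polynomial.C s)) = 0
      rw [Polynomial.derivative_C, MonoidAlgebra.single_zero]
  dT := by
    show (Matrix.diagonal fun _ =>
      (MonoidAlgebra.single 1 Polynomial.X : MonoidAlgebra (Polynomial B) G)).map (cw _) = 1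
    rw [Matrix.diagonal_map (map_zero _), ← Matrix.diagonal_one]
    congr 1
    funext i
    rw [cw_single]
    show MonoidAlgebra.single 1 (Polynomial.derivative Polynomial.X) = _
    rw [Polynomial.derivative_X]
    rfl
  t0 := tM h hh B ι
  t1 := tM h hh (Polynomial B) ι
  tc := tM_comm h hh _ ι
  δ := (Polynomial.derivative : Polynomial B →ₗ[B] Polynomial B).toAddMonoidHom
  tδ M := (tM_cw h hh _ ι M).symm
  ε0 := (Polynomial.evalRingHom (0 : B)).toAddMonoidHom
  ε1 := (Polynomial.evalRingHom (1 : B)).toAddMonoidHom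
  tε0 M := (tM_cw h hh (Polynomial.evalRingHom (0 : B)).toAddMonoidHom ι M).symm
  tε1 M := (tM_cw h hh (Polynomial.evalRingHom (1 : B)).toAddMonoidHom ι M).symm
  cst y hy := der_const B y hy

end tr

section spl

variable {B : Type} [CommRing B] [Algebra ℚ B] (P : Spl B) (G : Type) [Group G]

/-- the endomorphism of the group ring -/
def sg : MonoidAlgebra B G →+* MonoidAlgebra B G := mapRingHom G P.σ

theorem sg_idem (x : MonoidAlgebra B G) : sg P G (sg P G x) = sg P G x := by
  ext m
  show (mapRingHom G P.σ (mapRingHom G P.σ x)).coeff m = (mapRingHom G P.σ x).coeff m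
  rw [MonoidAlgebra.coeff_mapRingHom, MonoidAlgebra.coeff_mapRingHom, P.idem]

theorem nil_poly : ∃ N, RingHom.ker (Polynomial.mapRingHom P.σ) ^ N = ⊥ := by
  obtain ⟨N, hN⟩ := P.nil
  refine ⟨N, ?_⟩
  rw [Polynomial.ker_mapRingHom, ← Ideal.map_pow, hN, Ideal.map_bot]

variable {G}
variable {ι : Type} [Fintype ι] [DecidableEq ι]

/-- the unipotent part -/
def wu (M : (Matrix ι ι (MonoidAlgebra B G))ˣ) : (Matrix ι ι (MonoidAlgebra B G))ˣ :=
  (mapUnit (sg P G) M)⁻¹ * M

/-- the nilpotent part -/
def Xw (M : (Matrix ι ι (MonoidAlgebra B G))ˣ) : Matrix ι ι (MonoidAlgebra B G) :=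
  (wu P M : Matrix ι ι (MonoidAlgebra B G)) - 1

theorem mapUnit_mul' {R S : Type} [Ring R] [Ring S] (f : R →+* S) (M N : (Matrix ι ι R)ˣ) :
    mapUnit f (M * N) = mapUnit f M * mapUnit f N := by
  unfold mapUnit
  rw [map_mul]

theorem mapUnit_inv' {R S : Type} [Ring R] [Ring S] (f : R →+* S) (M : (Matrix ι ι R)ˣ) :
    mapUnit f M⁻¹ = (mapUnit f M)⁻¹ := by
  unfold mapUnit
  rw [map_inv]

theorem mapUnit_sg (M : (Matrix ι ι (MonoidAlgebra B G))ˣ) :
    mapUnit (sg P G) (mapUnit (sg P G) M) = mapUnit (sg P G) M := by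
  apply Units.ext
  ext i j : 1
  exact sg_idem P G _

theorem wu_map (M : (Matrix ι ι (MonoidAlgebra B G))ˣ) : mapUnit (sg P G) (wu P M) = 1 := by
  unfold wu
  rw [mapUnit_mul', mapUnit_inv', mapUnit_sg, inv_mul_cancel]

theorem Xw_map (M : (Matrix ι ι (MonoidAlgebra B G))ˣ) : (Xw P M).map (sg P G) = 0 := by
  have h2 := congrArg Units.val (wu_map P M)
  rw [mapUnit_val] at h2
  have h3 : (Xw P M).map (sg P G) =
      (wu P M : Matrix ι ι (MonoidAlgebra B G)).map (sg P G) -
        (1 : Matrix ι ι (MonoidAlgebra B G)).map (sg P G) :=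
    Matrix.map_sub _ (map_sub _) _ _
  rw [h3, h2, Matrix.map_one _ (map_zero _) (map_one _), Units.val_one, sub_self]

theorem nil_of_map (X : Matrix ι ι (MonoidAlgebra B G)) (hX : X.map (sg P G) = 0) :
    IsNilpotent X := nilKer_ι (nilKer_monoidAlgebra P.σ P.nil G) X hX

theorem Xw_nil (M : (Matrix ι ι (MonoidAlgebra B G))ˣ) : IsNilpotent (Xw P M) :=
  nil_of_map P _ (Xw_map P M)

variable (h : G → ℤ) (hh : ∀ x y, h (x * y) = h (y * x))

theorem LL_add' (X Y : Matrix ι ι (MonoidAlgebra B G)) (hX : X.map (sg P G) = 0)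
    (hY : Y.map (sg P G) = 0) :
    LL (tM h hh B ι) (X + Y + X * Y) = LL (tM h hh B ι) X + LL (tM h hh B ι) Y := by
  have hc : ∀ Z : Matrix ι ι (MonoidAlgebra B G), Z.map (sg P G) = 0 →
      (mapRingHom G (Polynomial.mapRingHom P.σ)).mapMatrix ((hty h hh B ι).c Z) = 0 := by
    intro Z hZ
    ext i j : 1
    show mapRingHom G (Polynomial.mapRingHom P.σ) (mapRingHom G Polynomial.C (Z i j)) = 0
    have h1 : mapRingHom G P.σ (Z i j) = 0 := congrFun (congrFun hZ i) j
    ext m : 2
    rw [MonoidAlgebra.coeff_mapRingHom, MonoidAlgebra.coeff_mapRingHom, Polynomial.coe_mapRingHom,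
      Polynomial.map_C, ← MonoidAlgebra.coeff_mapRingHom, h1]
    exact Polynomial.C_0
  refine (hty h hh B ι).LL_add X Y (nil_of_map P X hX) (nil_of_map P Y hY) ?_
  apply nilKer_ι (nilKer_monoidAlgebra (Polynomial.mapRingHom P.σ) (nil_poly P) G)
  show (mapRingHom G (Polynomial.mapRingHom P.σ)).mapMatrix _ = 0
  rw [map_add, map_add, map_mul, map_mul, hc X hX, hc Y hY, map_mul, hc X hX]
  simp

/-- additivity -/
theorem LG_mul (M N : (Matrix ι ι (MonoidAlgebra B G))ˣ) :
    LL (tM h hh B ι) (Xw P (M * N)) =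
      LL (tM h hh B ι) (Xw P M) + LL (tM h hh B ι) (Xw P N) := by
  set V := mapUnit (sg P G) N with hV
  have e1 : wu P (M * N) = (V⁻¹ * wu P M * V) * wu P N := by
    unfold wu
    rw [mapUnit_mul', ← hV]
    group
  have e2 : Xw P (M * N) = (((V⁻¹ : (Matrix ι ι (MonoidAlgebra B G))ˣ) :
      Matrix ι ι (MonoidAlgebra B G)) * Xw P M * V) + Xw P N +
      (((V⁻¹ : (Matrix ι ι (MonoidAlgebra B G))ˣ) :
      Matrix ι ι (MonoidAlgebra B G)) * Xw P M * V) * Xw P N := by
    have e3 : (((V⁻¹ : (Matrix ι ι (MonoidAlgebra B G))ˣ) :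
      Matrix ι ι (MonoidAlgebra B G)) * Xw P M * V) =
        ((V⁻¹ * wu P M * V : (Matrix ι ι (MonoidAlgebra B G))ˣ) :
          Matrix ι ι (MonoidAlgebra B G)) - 1 := by
      unfold Xw
      rw [mul_sub, sub_mul, mul_one, Units.inv_mul]
      rfl
    rw [e3]
    unfold Xw
    rw [e1, Units.val_mul (V⁻¹ * wu P M * V)]
    noncomm_ring
  rw [e2, LL_add' P h hh, LL_conj _ (tM_comm h hh B ι) _ (Xw_nil P M)]
  · show (sg P G).mapMatrix _ = 0
    rw [map_mul, map_mul]
    have e4 : (sg P G).mapMatrix (Xw P M) = 0 := Xw_map P M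
    rw [e4, mul_zero, zero_mul]
  · exact Xw_map P N

end spl

end

end Pool.Agent.E14.CP
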