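import Pool.Agent.E14.CP.Lg2
import Pool.Agent.E14.CP.Jac

/-!
# The logarithmic trace on `K₁`: functoriality and abelian groups
-/

open Matrix

namespace Pool.Agent.E14.CP

open H970SH MonoidAlgebra Pool.Agent.Y69 Pool.Agent.Y69.KTr Pool.Agent.Y490.SL Pool.Agent.Y69.Tra
open H842 hiding ps psHom ps_of ps_th

noncomputable section

/-! ### the determinant on `K₁` -/

section det

variable {R : Type} [CommRing R]

theorem exists_det : ∃ D : K1 R →+ Additive Rˣ, ∀ (ι : Type) [Fintype ι] [DecidableEq ι]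
    (M : (Matrix ι ι R)ˣ), D (cl M) = Additive.ofMul (DT.detU M) := by
  obtain ⟨L, hL⟩ := K1_lift (R := R) (fun n M => Additive.ofMul (DT.detU M))
    (fun n M N => by
      show Additive.ofMul (DT.detU (M * N)) = _
      unfold DT.detU
      rw [map_mul]
      rfl) (by
      intro n M N hN
      congr 1
      apply Units.ext
      show (N : Matrix (Fin (n + 1)) (Fin (n + 1)) R).det = (M : Matrix (Fin n) (Fin n) R).det
      rw [hN, Matrix.det_reindex_self, Matrix.det_fromBlocks_zero₂₁, Matrix.det_one, mul_one])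
  refine ⟨L, ?_⟩
  intro ι _ _ M
  unfold cl
  rw [hL]
  congr 1
  apply Units.ext
  show ((reindexUnit (Fintype.equivFin ι) M :
    (Matrix (Fin (Fintype.card ι)) (Fin (Fintype.card ι)) R)ˣ) :
      Matrix (Fin (Fintype.card ι)) (Fin (Fintype.card ι)) R).det = (M : Matrix ι ι R).det
  rw [reindexUnit_val, Matrix.det_reindex_self]

theorem detU_unit1 (u : Rˣ) : DT.detU (unit1 u) = u := by
  apply Units.ext
  show (Matrix.of fun _ _ => (u : R) : Matrix Unit Unit R).det = _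
  rw [Matrix.det_unique]
  rfl

theorem cl_det (hR : ∀ x : K1 R, ∃ u : Rˣ, x = cl (unit1 u)) {ι : Type} [Fintype ι]
    [DecidableEq ι] (M : (Matrix ι ι R)ˣ) : cl M = cl (unit1 (DT.detU M)) := by
  obtain ⟨u, hu⟩ := hR (cl M)
  obtain ⟨D, hD⟩ := exists_det (R := R)
  have h1 := congrArg D hu
  rw [hD, hD, detU_unit1] at h1
  rw [hu, Additive.ofMul.injective h1]

end det

section LL2

variable {R R' R'' Λ : Type} [Ring R] [Ring R'] [Ring R''] [AddCommGroup Λ] [Module ℚ Λ]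

theorem LL_add_congr (t : R →+ Λ) (t' : R' →+ Λ) (t'' : R'' →+ Λ) (X : R) (Y : R') (Z : R'')
    (hX : IsNilpotent X) (hY : IsNilpotent Y) (hZ : IsNilpotent Z)
    (h : ∀ k, t'' (Z ^ (k + 1)) = t (X ^ (k + 1)) + t' (Y ^ (k + 1))) :
    LL t'' Z = LL t X + LL t' Y := by
  obtain ⟨N, hN⟩ := hX
  obtain ⟨M, hM⟩ := hY
  obtain ⟨K, hK⟩ := hZ
  rw [LL_eq t X (N + M + K) (pow_eq_zero_of_le (by omega) hN),
    LL_eq t' Y (N + M + K) (pow_eq_zero_of_le (by omega) hM),
    LL_eq t'' Z (N + M + K) (pow_eq_zero_of_le (by omega) hK), ← Finset.sum_add_distrib]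
  refine Finset.sum_congr rfl fun k _ => ?_
  rw [h, smul_add]

end LL2

section spl

variable {B : Type} [CommRing B] [Algebra ℚ B] (P : Spl B) {G : Type} [Group G]
  (h : G → ℤ) (hh : ∀ x y, h (x * y) = h (y * x))

theorem Xw_val {ι : Type} [Fintype ι] [DecidableEq ι] (M : (Matrix ι ι (MonoidAlgebra B G))ˣ) :
    Xw P M = (((M⁻¹ : (Matrix ι ι (MonoidAlgebra B G))ˣ) : Matrix ι ι (MonoidAlgebra B G)).map
      (sg P G)) * (M : Matrix ι ι (MonoidAlgebra B G)) - 1 := by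
  unfold Xw wu
  rw [Units.val_mul, ← mapUnit_inv', mapUnit_val]

theorem LL_reindex {ι κ : Type} [Fintype ι] [DecidableEq ι] [Fintype κ] [DecidableEq κ]
    (e : ι ≃ κ) (M : (Matrix ι ι (MonoidAlgebra B G))ˣ) :
    LL (tM h hh B κ) (Xw P (reindexUnit e M)) = LL (tM h hh B ι) (Xw P M) := by
  have h1 : Xw P (reindexUnit e M) = Matrix.reindexRingEquiv _ e (Xw P M) := by
    rw [Xw_val, Xw_val, map_sub, map_mul, map_one]
    rfl
  apply LL_congr (tM h hh B ι) (tM h hh B κ) (AddMonoidHom.id B) _ _ (Xw_nil P M) (Xw_nil P _)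
  intro k
  rw [h1, ← map_pow, tM_apply]
  show _ = tM h hh B ι _
  rw [tM_apply, ← e.sum_comp]
  refine Finset.sum_congr rfl fun i _ => ?_
  congr 1
  generalize Xw P M ^ (k + 1) = X
  simp

theorem LL_diagU {ι κ : Type} [Fintype ι] [DecidableEq ι] [Fintype κ] [DecidableEq κ]
    (M : (Matrix ι ι (MonoidAlgebra B G))ˣ) (N : (Matrix κ κ (MonoidAlgebra B G))ˣ) :
    LL (tM h hh B (ι ⊕ κ)) (Xw P (diagU M N)) =
      LL (tM h hh B ι) (Xw P M) + LL (tM h hh B κ) (Xw P N) := by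
  have h1 : Xw P (diagU M N) = fromBlocks (Xw P M) 0 0 (Xw P N) := by
    have h2 : (((diagU M N)⁻¹ : (Matrix (ι ⊕ κ) (ι ⊕ κ) (MonoidAlgebra B G))ˣ) :
        Matrix (ι ⊕ κ) (ι ⊕ κ) (MonoidAlgebra B G)) =
      fromBlocks ((M⁻¹ : (Matrix ι ι (MonoidAlgebra B G))ˣ) : Matrix ι ι (MonoidAlgebra B G)) 0 0
        ((N⁻¹ : (Matrix κ κ (MonoidAlgebra B G))ˣ) : Matrix κ κ (MonoidAlgebra B G)) := rfl
    rw [Xw_val, Xw_val, Xw_val, h2, diagU_val, fromBlocks_map, fromBlocks_multiply,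
      ← fromBlocks_one, sub_eq_add_neg, fromBlocks_neg, fromBlocks_add]
    congr 1
    · simp [sub_eq_add_neg]
    · simp [Matrix.map_zero]
    · simp [Matrix.map_zero]
    · simp [sub_eq_add_neg]
  apply LL_add_congr _ _ _ _ _ _ (Xw_nil P M) (Xw_nil P N) (Xw_nil P _)
  intro k
  rw [h1, Matrix.fromBlocks_diagonal_pow, tM_apply, tM_apply, tM_apply, Fintype.sum_sum_type]
  rfl

theorem Xw_one {ι : Type} [Fintype ι] [DecidableEq ι] :
    Xw P (1 : (Matrix ι ι (MonoidAlgebra B G))ˣ) = 0 := by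
  rw [Xw_val, inv_one, Units.val_one, Matrix.map_one _ (map_zero _) (map_one _), mul_one, sub_self]

theorem exists_LG : ∃ L : K1 (MonoidAlgebra B G) →+ B, ∀ (ι : Type) [Fintype ι] [DecidableEq ι]
    (M : (Matrix ι ι (MonoidAlgebra B G))ˣ), L (cl M) = LL (tM h hh B ι) (Xw P M) := by
  obtain ⟨L, hL⟩ := K1_lift (R := MonoidAlgebra B G) (fun n M => LL (tM h hh B (Fin n)) (Xw P M))
    (fun n M N => LG_mul P h hh M N) (by
      intro n M N hN
      have h1 : N = reindexUnit finSumFinEquiv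
          (diagU M (1 : (Matrix (Fin 1) (Fin 1) (MonoidAlgebra B G))ˣ)) := by
        apply Units.ext
        rw [hN, reindexUnit_val, diagU_val]
        rfl
      rw [h1, LL_reindex, LL_diagU, Xw_one, LL_zero, add_zero])
  refine ⟨L, ?_⟩
  intro ι _ _ M
  unfold cl
  rw [hL, LL_reindex]

/-- **the logarithmic trace** -/
def LG : K1 (MonoidAlgebra B G) →+ B := (exists_LG P h hh).choose

theorem LG_cl {ι : Type} [Fintype ι] [DecidableEq ι] (M : (Matrix ι ι (MonoidAlgebra B G))ˣ) :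
    LG P h hh (cl M) = LL (tM h hh B ι) (Xw P M) := (exists_LG P h hh).choose_spec ι M

theorem LG_map {H : Type} [Group H] (φ : H →* G) (x : K1 (MonoidAlgebra B H)) :
    LG P h hh (K1map (mapDomainRingHom B φ) x) =
      LG P (fun x => h (φ x)) (fun x y => by rw [map_mul, map_mul, hh]) x := by
  obtain ⟨m, M, rfl⟩ := K1_exists x
  rw [LG_cl, K1map_cl, LG_cl]
  have h1 : Xw P (mapUnit (mapDomainRingHom B φ) M) =
      (mapDomainRingHom B φ).mapMatrix (Xw P M) := by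
    rw [Xw_val, Xw_val, map_sub, map_mul, map_one, ← mapUnit_inv', mapUnit_val, mapUnit_val]
    congr 2
    ext i j : 1
    show sg P G (mapDomainRingHom B φ _) = mapDomainRingHom B φ (sg P H _)
    exact RingHom.congr_fun (TK.Dsc.mapRing_mapDomain P.σ φ) _
  apply LL_congr (tM (fun x => h (φ x)) _ B (Fin m)) (tM h hh B (Fin m)) (AddMonoidHom.id B) _ _
    (Xw_nil P M) (Xw_nil P _)
  intro k
  rw [h1, ← map_pow]
  exact (((homφ (D0 B) φ h hh).mat (Fin m)).ht (Xw P M ^ (k + 1))).symm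

theorem LG_zero (h0 : ∀ g, h g = 0) (x : K1 (MonoidAlgebra B G)) : LG P h hh x = 0 := by
  obtain ⟨m, M, rfl⟩ := K1_exists x
  rw [LG_cl]
  have := LL_congr (tM h hh B (Fin m)) (tM h hh B (Fin m)) (0 : B →+ B) _ _
    (Xw_nil P M) (Xw_nil P M) (fun k => by
      rw [tM_apply]
      exact Finset.sum_eq_zero fun i _ => tau_zero _ h0 _)
  rw [this]
  rfl

theorem LG_congr {h' : G → ℤ} (hh' : ∀ x y, h' (x * y) = h' (y * x)) (e : ∀ g, h g = h' g)
    (x : K1 (MonoidAlgebra B G)) : LG P h hh x = LG P h' hh' x := by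
  have : h = h' := funext e
  subst this
  rfl

end spl

/-! ### abelian groups -/

section comm

variable {B : Type} [CommRing B] [Algebra ℚ B] (P : Spl B) {C : Type} [CommGroup C]

/-- the traces of abelian groups -/
def LC (h : C → ℤ) : K1 (MonoidAlgebra B C) →+ B := LG P h (fun x y => by rw [mul_comm])

/-- the nilpotent part of a unit -/
def xw (u : (MonoidAlgebra B C)ˣ) : MonoidAlgebra B C :=
  sg P C ((u⁻¹ : (MonoidAlgebra B C)ˣ) : MonoidAlgebra B C) * (u : MonoidAlgebra B C) - 1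

theorem Xw_unit1 (u : (MonoidAlgebra B C)ˣ) :
    Xw P (unit1 u) = Matrix.scalar Unit (xw P u) := by
  ext i j : 1
  rw [Xw_val, Matrix.sub_apply, Matrix.mul_apply, Fintype.sum_unique]
  show sg P C ((u⁻¹ : (MonoidAlgebra B C)ˣ) : MonoidAlgebra B C) * (u : MonoidAlgebra B C) -
    (1 : Matrix Unit Unit (MonoidAlgebra B C)) () () = Matrix.scalar Unit (xw P u) () ()
  rw [Matrix.one_apply_eq]
  rfl

theorem xw_nil (u : (MonoidAlgebra B C)ˣ) : IsNilpotent (xw P u) := by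
  have h1 := Xw_nil P (unit1 u)
  rw [Xw_unit1] at h1
  obtain ⟨N, hN⟩ := h1
  refine ⟨N, ?_⟩
  rw [← map_pow] at hN
  have h2 := congrFun (congrFun hN ()) ()
  simpa using h2

theorem LC_unit (h : C → ℤ) (u : (MonoidAlgebra B C)ˣ) :
    LC P h (cl (unit1 u)) = LL (tau (AddMonoidHom.id B) h) (xw P u) := by
  unfold LC
  rw [LG_cl]
  apply LL_congr (tau (AddMonoidHom.id B) h) _ (AddMonoidHom.id B) _ _ (xw_nil P u) (Xw_nil P _)
  intro k
  rw [Xw_unit1, ← map_pow, tM_apply, Fintype.sum_unique]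
  simp

/-- the character function of a unit -/
def bl (u : (MonoidAlgebra B C)ˣ) (c : C) : B := LC P (dlt c) (cl (unit1 u))

theorem bl_eq (u : (MonoidAlgebra B C)ˣ) (c : C) (N : ℕ) (hN : xw P u ^ N = 0) :
    bl P u c = (∑ k ∈ Finset.range N, lc k • xw P u ^ (k + 1)).coeff c := by
  unfold bl
  rw [LC_unit, LL_eq _ _ N hN, MonoidAlgebra.coeff_sum, Finsupp.finsetSum_apply]
  refine Finset.sum_congr rfl fun k _ => ?_
  rw [tau_dlt, MonoidAlgebra.coeff_smul]
  rfl

end comm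

end

end Pool.Agent.E14.CP
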