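import Pool.Agent.E14.CP.Tr

/-!
# Matrix representations of the coefficients
-/

open Matrix

namespace Pool.Agent.E14.CP

open H970SH MonoidAlgebra Pool.Agent.Y69 Pool.Agent.Y69.Tra Pool.Agent.Y69.KTr
open H842 hiding ps psHom ps_of ps_th

noncomputable section

/-! ### the transfer -/

section blw

variable {R S : Type} [Ring R] [Ring S] {m : Type} [Fintype m] [DecidableEq m]
  (θ : R →+* Matrix m m S)

theorem blow_reindex {ι κ : Type} [Fintype ι] [DecidableEq ι] [Fintype κ] [DecidableEq κ]
    (e : ι ≃ κ) (M : (Matrix ι ι R)ˣ) : cl (blow θ (reindexUnit e M)) = cl (blow θ M) := by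
  symm
  apply cl_congr (Equiv.prodCongr e (Equiv.refl m))
  rintro ⟨i, x⟩ ⟨j, y⟩
  rw [blow_apply, blow_apply, reindexUnit_val]
  simp

theorem exists_K1blow : ∃ F : K1 R →+ K1 S, ∀ (ι : Type) [Fintype ι] [DecidableEq ι]
    (M : (Matrix ι ι R)ˣ), F (cl M) = cl (blow θ M) := by
  obtain ⟨F, hF⟩ := K1_lift (R := R) (fun n M => cl (blow θ M))
    (fun n M N => by rw [map_mul, cl_mul]) (by
      intro n M N hN
      rw [← cl_stab (κ := Fin 1 × m) (blow θ M)]
      let e : Fin (n + 1) × m ≃ (Fin n × m) ⊕ (Fin 1 × m) :=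
        (Equiv.prodCongr (finSumFinEquiv (m := n) (n := 1)).symm (Equiv.refl m)).trans
          (Equiv.sumProdDistrib _ _ _)
      symm
      apply cl_congr e.symm
      rintro (⟨i, x⟩ | ⟨i, x⟩) (⟨j, y⟩ | ⟨j, y⟩)
      · rw [blow_apply, hN, diagU_val]
        simp [e, blow_apply]
      · rw [blow_apply, hN, diagU_val]
        simp [e]
      · rw [blow_apply, hN, diagU_val]
        simp [e]
      · rw [blow_apply, hN, diagU_val]
        obtain rfl : i = j := Subsingleton.elim i j
        simp [e, Matrix.one_apply])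
  refine ⟨F, ?_⟩
  intro ι _ _ M
  unfold cl
  rw [hF]
  exact blow_reindex θ _ M

/-- the transfer on `K₁` -/
def K1blow : K1 R →+ K1 S := (exists_K1blow θ).choose

theorem K1blow_cl {ι : Type} [Fintype ι] [DecidableEq ι] (M : (Matrix ι ι R)ˣ) :
    K1blow θ (cl M) = cl (blow θ M) := (exists_K1blow θ).choose_spec ι M

end blw

section psi

variable {A K : Type} [CommRing A] [CommRing K] {m : Type} [Fintype m] [DecidableEq m]
  (ψ : A →+* Matrix m m K)

/-- the entries -/
def ent (i j : m) : A →+ K where
  toFun a := ψ a i j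
  map_zero' := by rw [map_zero]; rfl
  map_add' a b := by rw [map_add]; rfl

/-- the induced map of group rings -/
def Psi (G : Type) [Group G] : MonoidAlgebra A G →+* Matrix m m (MonoidAlgebra K G) where
  toFun x := Matrix.of fun i j => cw (ent ψ i j) x
  map_one' := by
    ext i j : 1
    rw [Matrix.of_apply, one_def, cw_single]
    show MonoidAlgebra.single 1 (ψ 1 i j) = _
    rw [map_one]
    by_cases h : i = j
    · subst h
      rw [Matrix.one_apply_eq, Matrix.one_apply_eq, one_def]
    · rw [Matrix.one_apply_ne h, Matrix.one_apply_ne h, MonoidAlgebra.single_zero]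
  map_zero' := by
    ext i j : 1
    rw [Matrix.of_apply, map_zero]
    rfl
  map_add' x y := by
    ext i j : 1
    rw [Matrix.of_apply, map_add]
    rfl
  map_mul' x y := by
    ext i j : 1
    rw [Matrix.mul_apply]
    simp only [Matrix.of_apply]
    induction x using MonoidAlgebra.induction_linear with
    | zero => simp
    | add a b ha hb =>
      rw [add_mul, map_add, ha, hb, ← Finset.sum_add_distrib]
      refine Finset.sum_congr rfl fun l _ => ?_
      rw [map_add, add_mul]
    | single g a =>
      induction y using MonoidAlgebra.induction_linear with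
      | zero => simp
      | add a b ha hb =>
        rw [mul_add, map_add, ha, hb, ← Finset.sum_add_distrib]
        refine Finset.sum_congr rfl fun l _ => ?_
        rw [map_add, mul_add]
      | single g' a' =>
        rw [single_mul_single, cw_single]
        have h1 : ∀ l, cw (G := G) (ent ψ i l) (MonoidAlgebra.single g a) *
            cw (ent ψ l j) (MonoidAlgebra.single g' a') =
            MonoidAlgebra.single (g * g') (ψ a i l * ψ a' l j) := by
          intro l
          rw [cw_single, cw_single, single_mul_single]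
          rfl
        simp only [h1]
        have h3 : ∀ (s : Finset m) (f : m → K),
            ∑ i ∈ s, (MonoidAlgebra.single (g * g') (f i) : MonoidAlgebra K G) =
            MonoidAlgebra.single (g * g') (∑ i ∈ s, f i) := by
          intro s f
          exact (map_sum (MonoidAlgebra.singleAddHom (g * g')) f s).symm
        rw [h3]
        congr 1
        show ψ (a * a') i j = _
        rw [map_mul, Matrix.mul_apply]

theorem Psi_apply {G : Type} [Group G] (x : MonoidAlgebra A G) (i j : m) :
    Psi ψ G x i j = cw (ent ψ i j) x := rfl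

theorem Psi_single {G : Type} [Group G] (g : G) (a : A) (i j : m) :
    Psi ψ G (MonoidAlgebra.single g a) i j = MonoidAlgebra.single g (ψ a i j) := by
  rw [Psi_apply, cw_single]
  rfl

theorem Psi_map {C G : Type} [Group C] [Group G] (φ : C →* G) (x : MonoidAlgebra A C) (i j : m) :
    Psi ψ G (mapDomainRingHom A φ x) i j = mapDomainRingHom K φ (Psi ψ C x i j) := by
  induction x using MonoidAlgebra.induction_linear with
  | zero => simp
  | add a b ha hb =>
    rw [map_add, map_add, map_add, Matrix.add_apply, Matrix.add_apply, ha, hb, map_add]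
  | single g a =>
    rw [mapDomainRingHom_apply, mapDomainRingHom_apply, mapDomain_single, Psi_single, Psi_single,
      mapDomain_single]

/-- the norm of a unit -/
def Nu {C : Type} [CommGroup C] : (MonoidAlgebra A C)ˣ →* (MonoidAlgebra K C)ˣ :=
  (Units.map (Matrix.detMonoidHom (n := m) (R := MonoidAlgebra K C))).comp
    (Units.map (Psi ψ C).toMonoidHom)

theorem Nu_val {C : Type} [CommGroup C] (u : (MonoidAlgebra A C)ˣ) :
    (Nu ψ u : MonoidAlgebra K C) = (Psi ψ C (u : MonoidAlgebra A C)).det := rfl

theorem Nu_map {C D : Type} [CommGroup C] [CommGroup D] (f : C →* D) (u : (MonoidAlgebra A C)ˣ) :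
    Nu ψ (Units.map (mapDomainRingHom A f : MonoidAlgebra A C →* MonoidAlgebra A D) u) =
      Units.map (mapDomainRingHom K f : MonoidAlgebra K C →* MonoidAlgebra K D) (Nu ψ u) := by
  apply Units.ext
  show (Psi ψ D (mapDomainRingHom A f (u : MonoidAlgebra A C))).det =
    mapDomainRingHom K f ((Psi ψ C (u : MonoidAlgebra A C)).det)
  rw [RingHom.map_det]
  congr 1
  ext i j : 1
  exact Psi_map ψ f _ i j

theorem Psi_ps {C : Type} [CommGroup C] (D : Subgroup C) [Fintype (C ⧸ D)]
    [DecidableEq (C ⧸ D)] (x : MonoidAlgebra A C) (a b : m) (i j : C ⧸ D) :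
    Psi ψ D (ps A D x i j) a b = ps K D (Psi ψ C x a b) i j := by
  induction x using MonoidAlgebra.induction_linear with
  | zero => simp
  | add x y hx hy =>
    rw [map_add, map_add, Matrix.add_apply, map_add, Matrix.add_apply, Matrix.add_apply, hx, hy,
      map_add, Matrix.add_apply]
  | single c r =>
    rw [Psi_single, ps_single, ps_single, Matrix.smul_apply, Matrix.smul_apply]
    show Psi ψ D (r • (if h : c • j = i then MonoidAlgebra.of A D _ else 0)) a b =
      (ψ r a b) • (if h : c • j = i then MonoidAlgebra.of K D _ else 0)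
    by_cases h : c • j = i
    · rw [dif_pos h, dif_pos h, MonoidAlgebra.of_apply, MonoidAlgebra.of_apply,
        MonoidAlgebra.smul_single, MonoidAlgebra.smul_single, Psi_single, smul_eq_mul,
        smul_eq_mul, mul_one, mul_one]
    · rw [dif_neg h, dif_neg h, smul_zero, smul_zero, map_zero]
      rfl

theorem Nu_nrm {C : Type} [CommGroup C] (D : Subgroup C) [Fintype (C ⧸ D)]
    [DecidableEq (C ⧸ D)] (u : (MonoidAlgebra A C)ˣ) :
    Nu ψ (Units.map (nrm A D) u) = Units.map (nrm K D) (Nu ψ u) := by
  apply Units.ext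
  show (Psi ψ D ((ps A D (u : MonoidAlgebra A C)).det)).det =
    (ps K D ((Psi ψ C (u : MonoidAlgebra A C)).det)).det
  rw [Matrix.det_det, Matrix.det_det, ← Matrix.det_reindex_self (Equiv.prodComm m (C ⧸ D))]
  congr 1
  ext ⟨i, a⟩ ⟨j, b⟩ : 1
  exact Psi_ps ψ D _ a b i j

end psi

/-! ### the traces on `K₁(A[G])` -/

section tr

variable {A K Λ : Type} [CommRing A] [CommRing K] [AddCommGroup Λ] (X : Thk K Λ) {m : Type}
  [Fintype m] [DecidableEq m] (ψ : A →+* Matrix m m K)

/-- the trace attached to a matrix representation of the coefficients -/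
def TP {G : Type} [Group G] (h : G → ℤ) (hh : ∀ x y, h (x * y) = h (y * x)) :
    K1 (MonoidAlgebra A G) →+ Λ := (TG X h hh).comp (K1blow (Psi ψ G))

theorem detU_blow_unit1 {C : Type} [CommGroup C] (u : (MonoidAlgebra A C)ˣ) :
    DT.detU (blow (Psi ψ C) (unit1 u)) = Nu ψ u := by
  apply Units.ext
  show (Matrix.det _) = (Psi ψ C (u : MonoidAlgebra A C)).det
  rw [← Matrix.det_reindex_self (Equiv.punitProd m).symm (Psi ψ C (u : MonoidAlgebra A C))]
  congr 1

/-- the values of the traces on units of group rings of finite abelian groups -/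
theorem TP_unit {G : Type} [Group G] (h : G → ℤ) (hh : ∀ x y, h (x * y) = h (y * x)) {C : Type}
    [CommGroup C] [Fintype C] (φ : C →* G) (u : (MonoidAlgebra A C)ˣ) :
    TP X ψ h hh (cl (mapUnit (mapDomainRingHom A φ) (unit1 u))) =
      ∑ c, h (φ c) • bt X (Nu ψ u) c := by
  unfold TP
  rw [AddMonoidHom.comp_apply, K1blow_cl]
  have h1 : blow (Psi ψ G) (mapUnit (mapDomainRingHom A φ) (unit1 u)) =
      mapUnit (mapDomainRingHom K φ) (blow (Psi ψ C) (unit1 u)) := by
    apply Units.ext
    ext ⟨i, a⟩ ⟨j, b⟩ : 1
    rw [blow_apply, mapUnit_val, mapUnit_val, Matrix.map_apply, Matrix.map_apply, blow_apply]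
    exact Psi_map ψ φ _ a b
  rw [h1, ← K1map_cl, TG_map]
  have h2 := TC_det X (fun c => h (φ c)) (blow (Psi ψ C) (unit1 u))
  rw [detU_blow_unit1, TC_sum] at h2
  exact h2

end tr

end

end Pool.Agent.E14.CP
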