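import Pool.Agent.E14.CP.Lg3
import Pool.Agent.E14.CP.Psi

/-!
# The logarithmic trace: units of group rings of finite abelian groups
-/

open Matrix

namespace Pool.Agent.E14.CP

open H970SH MonoidAlgebra Pool.Agent.Y69 Pool.Agent.Y69.KTr Pool.Agent.Y490.SL Pool.Agent.Y69.Tra
open H842 hiding ps psHom ps_of ps_th

noncomputable section

section comm

variable {B : Type} [CommRing B] [Algebra ℚ B] (P : Spl B) {C : Type} [CommGroup C]

theorem bl_mul (u v : (MonoidAlgebra B C)ˣ) (c : C) : bl P (u * v) c = bl P u c + bl P v c := by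
  unfold bl
  rw [Main.unit1_mul', cl_mul, map_add]

theorem bl_map {D : Type} [CommGroup D] (f : C →* D) (hf : Function.Injective f)
    (v : (MonoidAlgebra B C)ˣ) (c : C) :
    bl P (Units.map (mapDomainRingHom B f :
      MonoidAlgebra B C →* MonoidAlgebra B D) v) (f c) = bl P v c := by
  unfold bl LC
  rw [← TK.Dsc.mapUnit_unit1, ← K1map_cl, LG_map]
  apply LG_congr
  intro x
  by_cases h : x = c
  · subst h
    rw [dlt_self, dlt_self]
  · rw [dlt_ne h, dlt_ne (fun h2 => h (hf h2))]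

theorem bl_map_not {D : Type} [CommGroup D] (f : C →* D)
    (v : (MonoidAlgebra B C)ˣ) (d : D) (hd : d ∉ Set.range f) :
    bl P (Units.map (mapDomainRingHom B f :
      MonoidAlgebra B C →* MonoidAlgebra B D) v) d = 0 := by
  unfold bl LC
  rw [← TK.Dsc.mapUnit_unit1, ← K1map_cl, LG_map]
  apply LG_zero
  intro x
  exact dlt_ne (fun h => hd ⟨x, h⟩)

theorem LC_sum [Fintype C] (h : C → ℤ) (v : (MonoidAlgebra B C)ˣ) :
    LC P h (cl (unit1 v)) = ∑ c, h c • bl P v c := by
  obtain ⟨N, hN⟩ := xw_nil P v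
  rw [LC_unit, LL_eq _ _ N hN]
  have h1 : ∀ c, h c • bl P v c =
      ∑ k ∈ Finset.range N, lc k • (h c • (xw P v ^ (k + 1)).coeff c) := by
    intro c
    rw [bl_eq P v c N hN, MonoidAlgebra.coeff_sum, Finsupp.finsetSum_apply, Finset.smul_sum]
    refine Finset.sum_congr rfl fun k _ => ?_
    rw [MonoidAlgebra.coeff_smul, Finsupp.smul_apply, smul_comm]
  rw [Finset.sum_congr rfl fun c _ => h1 c, Finset.sum_comm]
  refine Finset.sum_congr rfl fun k _ => ?_
  rw [← Finset.smul_sum, tau_sum]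
  congr 1
  refine Finset.sum_congr rfl fun c _ => ?_
  rw [tau_dlt]
  rfl

/-- units without logarithm -/
theorem bl_tors (u : (MonoidAlgebra B C)ˣ) (hu : ∀ c, bl P u c = 0) :
    (u : MonoidAlgebra B C) = sg P C (u : MonoidAlgebra B C) := by
  obtain ⟨N, hN⟩ := xw_nil P u
  have h1 : ∑ k ∈ Finset.range (N + 1), lc k • xw P u ^ (k + 1) = 0 := by
    ext c : 2
    rw [← bl_eq P u c (N + 1) (by rw [pow_succ, hN, zero_mul]), hu]
    rfl
  have h2 : xw P u * (1 + xw P u * ∑ k ∈ Finset.range N, lc (k + 1) • xw P u ^ k) = 0 := by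
    rw [Finset.sum_range_succ', ] at h1
    rw [← h1, mul_add, mul_one, add_comm]
    congr 1
    · rw [Finset.mul_sum, Finset.mul_sum]
      refine Finset.sum_congr rfl fun k _ => ?_
      rw [mul_smul_comm, mul_smul_comm]
      congr 1
      ring
    · have : lc 0 = 1 := by unfold lc; norm_num
      rw [this, zero_add, pow_one, one_smul]
  have h3 : IsUnit (1 + xw P u * ∑ k ∈ Finset.range N, lc (k + 1) • xw P u ^ k) := by
    apply IsNilpotent.isUnit_one_add
    exact (Commute.all _ _).isNilpotent_mul_right (xw_nil P u)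
  have h4 : xw P u = 0 := by
    obtain ⟨w, hw⟩ := h3
    rw [← hw] at h2
    exact (Units.mul_left_eq_zero w).1 h2
  unfold xw at h4
  have h5 := sub_eq_zero.1 h4
  have h6 : sg P C (u : MonoidAlgebra B C) *
      sg P C ((u⁻¹ : (MonoidAlgebra B C)ˣ) : MonoidAlgebra B C) = 1 := by
    rw [← map_mul, Units.mul_inv, map_one]
  calc (u : MonoidAlgebra B C) = (sg P C (u : MonoidAlgebra B C) *
      sg P C ((u⁻¹ : (MonoidAlgebra B C)ˣ) : MonoidAlgebra B C)) * (u : MonoidAlgebra B C) := by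
        rw [h6, one_mul]
    _ = _ := by rw [mul_assoc, h5, mul_one]

variable [Finite C] [Finite (MaximalSpectrum B)]

theorem cl_det_B {ι : Type} [Fintype ι] [DecidableEq ι]
    (M : (Matrix ι ι (MonoidAlgebra B C))ˣ) : cl M = cl (unit1 (DT.detU M)) :=
  cl_det (K1_groupRing B C) M

/-- norms -/
theorem bl_nrm (D : Subgroup C) [Fintype (C ⧸ D)] [DecidableEq (C ⧸ D)]
    (v : (MonoidAlgebra B C)ˣ) (d : D) :
    bl P (Units.map (nrm B D) v) d = (Fintype.card (C ⧸ D)) • bl P v (d : C) := by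
  have h2 : Units.map (nrm B D) v =
      DT.detU (Units.map (ps B D).toMonoidHom v) := rfl
  obtain ⟨N, hN⟩ := xw_nil P v
  have h3 : Xw P (Units.map (ps B D).toMonoidHom v) = ps B D (xw P v) := by
    rw [Xw_val]
    unfold xw
    rw [map_sub, map_mul, map_one]
    congr 2
    exact (ps_map B D P.σ _).symm
  unfold bl
  rw [h2, ← cl_det_B]
  unfold LC
  rw [LG_cl, h3, LL_eq _ _ N (by rw [← map_pow, hN, map_zero])]
  have h4 := bl_eq P v (d : C) N hN
  unfold bl LC at h4
  rw [h4, MonoidAlgebra.coeff_sum, Finsupp.finsetSum_apply, Finset.smul_sum]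
  refine Finset.sum_congr rfl fun k _ => ?_
  rw [MonoidAlgebra.coeff_smul, Finsupp.smul_apply, smul_comm, ← map_pow, tM_apply]
  congr 1
  have h5 := trace_ps B D (xw P v ^ (k + 1)) d
  have h6 : ∀ i, tau (AddMonoidHom.id B) (dlt d) (ps B D (xw P v ^ (k + 1)) i i) =
      (ps B D (xw P v ^ (k + 1)) i i).coeff d := fun i => by
    rw [tau_dlt]
    rfl
  rw [Finset.sum_congr rfl fun i _ => h6 i, nsmul_eq_mul, ← h5, Matrix.trace,
    MonoidAlgebra.coeff_sum, Finsupp.finsetSum_apply]
  rfl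

end comm

end

end Pool.Agent.E14.CP
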