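import Pool.Agent.Y69.KTr
import Pool.Agent.Y490.SL.NilGen

/-!
# Logarithmic derivatives on `K₁`
-/

open Matrix

namespace Pool.Agent.E14.CP

open H970SH H842 Pool.Agent.Y69.KTr Pool.Agent.Y490.SL

noncomputable section

/-- a ring with a derivation and a trace vanishing on derivatives -/
structure DT (B Λ : Type) [Ring B] [AddCommGroup Λ] where
  d : B →+ B
  leib : ∀ a b, d (a * b) = d a * b + a * d b
  t : B →+ Λ
  t_comm : ∀ a b, t (a * b) = t (b * a)
  t_d : ∀ a, t (d a) = 0

namespace DT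

section basic

variable {B Λ : Type} [Ring B] [AddCommGroup Λ] (D : DT B Λ)

theorem d_one : D.d 1 = 0 := by
  have h := D.leib 1 1
  rw [mul_one, mul_one, one_mul] at h
  exact left_eq_add.1 h

/-- the logarithmic derivative -/
def logd (u : Bˣ) : Λ := D.t (((u⁻¹ : Bˣ) : B) * D.d (u : B))

theorem logd_mul (u v : Bˣ) : D.logd (u * v) = D.logd u + D.logd v := by
  unfold logd
  rw [Units.val_mul, D.leib, _root_.mul_inv_rev, Units.val_mul, mul_add, map_add]
  congr 1
  · rw [mul_assoc, D.t_comm]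
    congr 1
    calc ((u⁻¹ : Bˣ) : B) * (D.d (u : B) * (v : B)) * ((v⁻¹ : Bˣ) : B)
        = ((u⁻¹ : Bˣ) : B) * D.d (u : B) * ((v : B) * ((v⁻¹ : Bˣ) : B)) := by
          simp only [mul_assoc]
      _ = _ := by rw [Units.mul_inv, mul_one]
  · congr 1
    calc ((v⁻¹ : Bˣ) : B) * ((u⁻¹ : Bˣ) : B) * ((u : B) * D.d (v : B))
        = ((v⁻¹ : Bˣ) : B) * (((u⁻¹ : Bˣ) : B) * (u : B)) * D.d (v : B) := by
          simp only [mul_assoc]
      _ = _ := by rw [Units.inv_mul, mul_one]

theorem logd_one : D.logd 1 = 0 := by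
  unfold logd
  rw [Units.val_one, D.d_one, mul_zero, map_zero]

/-- powers -/
theorem t_pow (X : B) (m n : ℕ) : D.t (X ^ m * D.d (X ^ (n + 1))) =
    (n + 1) • D.t (X ^ (m + n) * D.d X) := by
  induction n generalizing m with
  | zero => rw [zero_add, pow_one, one_smul, add_zero]
  | succ n ih =>
    have h1 : D.t (X ^ m * D.d (X ^ (n + 1 + 1))) =
        D.t (X ^ (m + 1) * D.d (X ^ (n + 1))) + D.t (X ^ (m + (n + 1)) * D.d X) := by
      rw [pow_succ X (n + 1), D.leib, mul_add, map_add]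
      congr 1
      · rw [← mul_assoc, D.t_comm, ← mul_assoc, ← pow_succ']
      · rw [← mul_assoc, ← pow_add]
    have h2 : m + 1 + n = m + (n + 1) := by omega
    rw [h1, ih, h2, succ_nsmul _ (n + 1)]

/-- torsion-free values -/
theorem t_pow_zero (hΛ : ∀ (n : ℕ) (x : Λ), (n + 1) • x = 0 → x = 0) (X : B) (n : ℕ) :
    D.t (X ^ n * D.d X) = 0 := by
  have h := D.t_pow X 0 n
  rw [pow_zero, one_mul, D.t_d, zero_add] at h
  exact hΛ n _ h.symm

end basic

section compat

variable {B Λ B' Λ' : Type} [Ring B] [AddCommGroup Λ] [Ring B'] [AddCommGroup Λ']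

/-- compatible data -/
structure Hom (D : DT B Λ) (D' : DT B' Λ') where
  f : B →+* B'
  g : Λ →+ Λ'
  hd : ∀ x, f (D.d x) = D'.d (f x)
  ht : ∀ x, g (D.t x) = D'.t (f x)

theorem Hom.logd {D : DT B Λ} {D' : DT B' Λ'} (F : Hom D D') (u : Bˣ) :
    D'.logd (Units.map (F.f : B →* B') u) = F.g (D.logd u) := by
  unfold DT.logd
  rw [F.ht, map_mul F.f, F.hd]
  rfl

/-- if the data lift to torsion-free values, then the logarithmic derivatives of unipotent
elements vanish -/
theorem logd_uni {D : DT B Λ} {D' : DT B' Λ'} (F : Hom D D') (hs : Function.Surjective F.f)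
    (hΛ : ∀ (n : ℕ) (x : Λ), (n + 1) • x = 0 → x = 0) (u : B'ˣ)
    (hu : IsNilpotent ((u : B') - 1)) : D'.logd u = 0 := by
  have h0 : ∀ (X : B') (n : ℕ), D'.t (X ^ n * D'.d X) = 0 := by
    intro X n
    obtain ⟨Y, rfl⟩ := hs X
    rw [← map_pow, ← F.hd, ← map_mul, ← F.ht, D.t_pow_zero hΛ, map_zero]
  obtain ⟨N, hN⟩ := hu
  set X : B' := 1 - (u : B') with hX
  have hXN : X ^ N = 0 := by
    have : X = -((u : B') - 1) := by rw [hX]; abel
    rw [this, neg_pow, hN, mul_zero]
  have h1 : (u : B') = 1 - X := by rw [hX]; abel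
  have h2 : ((u⁻¹ : B'ˣ) : B') = ∑ i ∈ Finset.range N, X ^ i := by
    have h3 : (u : B') * ∑ i ∈ Finset.range N, X ^ i = 1 := by
      rw [h1, mul_neg_geom_sum, hXN, sub_zero]
    exact Units.inv_eq_of_mul_eq_one_right h3
  have h3 : D'.d (u : B') = - D'.d X := by
    rw [h1, map_sub, D'.d_one, zero_sub]
  unfold logd
  rw [h2, h3, Finset.sum_mul, map_sum]
  refine Finset.sum_eq_zero fun i _ => ?_
  rw [mul_neg, map_neg, h0, neg_zero]

end compat

section matrices

variable {B Λ : Type} [Ring B] [AddCommGroup Λ] (D : DT B Λ)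

/-- matrices -/
def mat (n : Type) [Fintype n] [DecidableEq n] : DT (Matrix n n B) Λ where
  d := { toFun := fun M => M.map D.d
         map_zero' := by ext i j; simp
         map_add' := by intro M N; ext i j; simp }
  leib := by
    intro M N
    ext i j
    show D.d ((M * N) i j) = (M.map D.d * N) i j + (M * N.map D.d) i j
    rw [Matrix.mul_apply, Matrix.mul_apply, Matrix.mul_apply, map_sum, ← Finset.sum_add_distrib]
    exact Finset.sum_congr rfl fun k _ => D.leib _ _
  t := { toFun := fun M => ∑ i, D.t (M i i)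
         map_zero' := by simp
         map_add' := by intro M N; simp [Finset.sum_add_distrib] }
  t_comm := by
    intro M N
    show ∑ i, D.t ((M * N) i i) = ∑ i, D.t ((N * M) i i)
    simp only [Matrix.mul_apply, map_sum]
    rw [Finset.sum_comm]
    exact Finset.sum_congr rfl fun i _ => Finset.sum_congr rfl fun j _ => D.t_comm _ _
  t_d := by
    intro M
    show ∑ i, D.t (D.d (M i i)) = 0
    exact Finset.sum_eq_zero fun i _ => D.t_d _

theorem mat_t (n : Type) [Fintype n] [DecidableEq n] (M : Matrix n n B) :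
    (D.mat n).t M = ∑ i, D.t (M i i) := rfl

theorem mat_d (n : Type) [Fintype n] [DecidableEq n] (M : Matrix n n B) :
    (D.mat n).d M = M.map D.d := rfl

theorem logd_reindex {ι κ : Type} [Fintype ι] [DecidableEq ι] [Fintype κ] [DecidableEq κ]
    (e : ι ≃ κ) (M : (Matrix ι ι B)ˣ) : (D.mat κ).logd (reindexUnit e M) = (D.mat ι).logd M := by
  unfold logd
  rw [mat_t, mat_t, ← e.sum_comp]
  refine Finset.sum_congr rfl fun i _ => ?_
  congr 1
  rw [Matrix.mul_apply, Matrix.mul_apply, ← e.sum_comp]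
  refine Finset.sum_congr rfl fun j _ => ?_
  have h1 : (((reindexUnit e M)⁻¹ : (Matrix κ κ B)ˣ) : Matrix κ κ B) =
      Matrix.reindex e e ((M⁻¹ : (Matrix ι ι B)ˣ) : Matrix ι ι B) := rfl
  rw [h1, mat_d, mat_d, Matrix.map_apply, Matrix.map_apply, reindexUnit_val]
  simp

/-- block diagonal matrices -/
theorem logd_diagU {ι κ : Type} [Fintype ι] [DecidableEq ι] [Fintype κ] [DecidableEq κ]
    (M : (Matrix ι ι B)ˣ) (N : (Matrix κ κ B)ˣ) :
    (D.mat (ι ⊕ κ)).logd (diagU M N) = (D.mat ι).logd M + (D.mat κ).logd N := by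
  unfold logd
  rw [mat_t, mat_t, mat_t, Fintype.sum_sum_type]
  have h1 : (((diagU M N)⁻¹ : (Matrix (ι ⊕ κ) (ι ⊕ κ) B)ˣ) : Matrix (ι ⊕ κ) (ι ⊕ κ) B) =
      fromBlocks ((M⁻¹ : (Matrix ι ι B)ˣ) : Matrix ι ι B) 0 0
        ((N⁻¹ : (Matrix κ κ B)ˣ) : Matrix κ κ B) := rfl
  have h2 : (D.mat (ι ⊕ κ)).d (diagU M N : Matrix (ι ⊕ κ) (ι ⊕ κ) B) =
      fromBlocks ((D.mat ι).d (M : Matrix ι ι B)) 0 0 ((D.mat κ).d (N : Matrix κ κ B)) := by
    rw [diagU_val, mat_d, mat_d, mat_d, fromBlocks_map]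
    congr 1
    · ext i j; simp
    · ext i j; simp
  rw [h1, h2, fromBlocks_multiply]
  congr 1
  · refine Finset.sum_congr rfl fun i _ => ?_
    simp
  · refine Finset.sum_congr rfl fun i _ => ?_
    simp

/-- the homomorphism on `K₁` -/
theorem exists_L : ∃ L : K1 B →+ Λ, ∀ (ι : Type) [Fintype ι] [DecidableEq ι]
    (M : (Matrix ι ι B)ˣ), L (cl M) = (D.mat ι).logd M := by
  obtain ⟨L, hL⟩ := K1_lift (R := B) (fun n M => (D.mat (Fin n)).logd M)
    (fun n M N => (D.mat (Fin n)).logd_mul M N) (by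
      intro n M N hN
      have h1 : N = reindexUnit finSumFinEquiv (diagU M (1 : (Matrix (Fin 1) (Fin 1) B)ˣ)) := by
        apply Units.ext
        rw [hN, reindexUnit_val, diagU_val]
        rfl
      rw [h1, logd_reindex, logd_diagU, logd_one, add_zero])
  refine ⟨L, ?_⟩
  intro ι _ _ M
  unfold cl
  rw [hL, logd_reindex]

/-- the logarithmic derivative on `K₁` -/
def L : K1 B →+ Λ := (D.exists_L).choose

theorem L_cl {ι : Type} [Fintype ι] [DecidableEq ι] (M : (Matrix ι ι B)ˣ) :
    D.L (cl M) = (D.mat ι).logd M := (D.exists_L).choose_spec ι M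

/-- matrices over compatible data -/
def Hom.mat {B' Λ' : Type} [Ring B'] [AddCommGroup Λ'] {D : DT B Λ} {D' : DT B' Λ'}
    (F : Hom D D') (n : Type) [Fintype n] [DecidableEq n] : Hom (D.mat n) (D'.mat n) where
  f := F.f.mapMatrix
  g := F.g
  hd := by
    intro M
    ext i j
    exact F.hd _
  ht := by
    intro M
    show F.g (∑ i, D.t (M i i)) = ∑ i, D'.t (F.f (M i i))
    rw [map_sum]
    exact Finset.sum_congr rfl fun i _ => F.ht _

end matrices

end DT

/-! ### Descent along nilpotent extensions -/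

section desc

variable {A B : Type} [Ring A] [Ring B]

theorem nilKer_ι {f : A →+* B} (hN : NilKer f) {ι : Type} [Fintype ι] [DecidableEq ι]
    (M : Matrix ι ι A) (hM : M.map f = 0) : IsNilpotent M := by
  have h1 : IsNilpotent (Matrix.reindexRingEquiv A (Fintype.equivFin ι) M) := by
    apply hN
    ext i j
    exact congrFun (congrFun hM _) _
  exact (IsNilpotent.map_iff (Matrix.reindexRingEquiv A (Fintype.equivFin ι)).injective).1 h1

theorem lift_unit {f : A →+* B} (hs : Function.Surjective f) (hN : NilKer f) {ι : Type}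
    [Fintype ι] [DecidableEq ι] (M : (Matrix ι ι B)ˣ) :
    ∃ M' : (Matrix ι ι A)ˣ, mapUnit f M' = M := by
  choose g hg using hs
  set P : Matrix ι ι A := (M : Matrix ι ι B).map g with hP
  set Q : Matrix ι ι A := ((M⁻¹ : (Matrix ι ι B)ˣ) : Matrix ι ι B).map g with hQ
  have hPf : P.map f = (M : Matrix ι ι B) := by ext i j; exact hg _
  have hQf : Q.map f = ((M⁻¹ : (Matrix ι ι B)ˣ) : Matrix ι ι B) := by ext i j; exact hg _
  have h1 : IsUnit (P * Q) := by
    have h2 : IsNilpotent (P * Q - 1) := by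
      apply nilKer_ι hN
      have h3 : (P * Q - 1).map f = (P * Q).map f - (1 : Matrix ι ι A).map f :=
        Matrix.map_sub f (map_sub f) _ _
      rw [h3, Matrix.map_mul, hPf, hQf, M.mul_inv, Matrix.map_one f (map_zero f) (map_one f),
        sub_self]
    have := h2.isUnit_one_add
    rwa [add_sub_cancel] at this
  have h1' : IsUnit (Q * P) := by
    have h2 : IsNilpotent (Q * P - 1) := by
      apply nilKer_ι hN
      have h3 : (Q * P - 1).map f = (Q * P).map f - (1 : Matrix ι ι A).map f :=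
        Matrix.map_sub f (map_sub f) _ _
      rw [h3, Matrix.map_mul, hPf, hQf, M.inv_mul, Matrix.map_one f (map_zero f) (map_one f),
        sub_self]
    have := h2.isUnit_one_add
    rwa [add_sub_cancel] at this
  have h4 : IsUnit P := by
    obtain ⟨a, ha⟩ := h1
    obtain ⟨b, hb⟩ := h1'
    have e1 : P * (Q * ((a⁻¹ : (Matrix ι ι A)ˣ) : Matrix ι ι A)) = 1 := by
      rw [← mul_assoc, ← ha, Units.mul_inv]
    have e2 : (((b⁻¹ : (Matrix ι ι A)ˣ) : Matrix ι ι A) * Q) * P = 1 := by
      rw [mul_assoc, ← hb, Units.inv_mul]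
    exact ⟨⟨P, _, e1, by rw [← left_inv_eq_right_inv e2 e1]; exact e2⟩, rfl⟩
  obtain ⟨M', hM'⟩ := h4
  refine ⟨M', Units.ext ?_⟩
  rw [mapUnit_val, hM', hPf]

/-- **Descent**: a homomorphism on `K₁(A)` which vanishes on the unipotent classes of the kernel of
a nilpotent extension factors. -/
theorem exists_desc {f : A →+* B} (hs : Function.Surjective f) (hN : NilKer f) {Λ : Type}
    [AddCommGroup Λ] (T : K1 A →+ Λ)
    (hT : ∀ (ι : Type) [Fintype ι] [DecidableEq ι] (M : (Matrix ι ι A)ˣ), mapUnit f M = 1 →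
      T (cl M) = 0) : ∃ T' : K1 B →+ Λ, ∀ (ι : Type) [Fintype ι] [DecidableEq ι]
        (M : (Matrix ι ι A)ˣ), T' (cl (mapUnit f M)) = T (cl M) := by
  have hwd : ∀ (ι : Type) [Fintype ι] [DecidableEq ι] (M N : (Matrix ι ι A)ˣ),
      mapUnit f M = mapUnit f N → T (cl M) = T (cl N) := by
    intro ι _ _ M N h
    have h1 : mapUnit f (M * N⁻¹) = 1 := by
      have h2 : mapUnit f (M * N⁻¹) = mapUnit f M * (mapUnit f N)⁻¹ := by
        unfold mapUnit
        rw [map_mul, map_inv]
      rw [h2, h, mul_inv_cancel]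
    have h3 := hT ι _ h1
    rw [cl_mul, cl_inv, map_add, map_neg, add_neg_eq_zero] at h3
    exact h3
  choose g hg using fun (n : ℕ) (M : (Matrix (Fin n) (Fin n) B)ˣ) => lift_unit hs hN M
  obtain ⟨T', hT'⟩ := K1_lift (R := B) (fun n M => T (cl (g n M))) (by
      intro n M N
      rw [← map_add, ← cl_mul]
      apply hwd
      have h2 : mapUnit f (g n M * g n N) = mapUnit f (g n M) * mapUnit f (g n N) := by
        unfold mapUnit
        rw [map_mul]
      rw [h2, hg, hg, hg]) (by
      intro n M N hN'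
      rw [← cl_stab (κ := Fin 1) (g n M), ← cl_reindex finSumFinEquiv]
      apply hwd
      rw [hg, mapUnit_reindex]
      apply Units.ext
      rw [hN', reindexUnit_val, mapUnit_val, diagU_val, fromBlocks_map, ← mapUnit_val, hg]
      congr 1
      congr 1
      · ext i j; simp
      · ext i j; simp
      · rw [Units.val_one, Matrix.map_one f (map_zero f) (map_one f)])
  refine ⟨T', ?_⟩
  intro ι _ _ M
  unfold cl
  rw [hT']
  show T (cl (g _ _)) = _
  rw [← cl_fin]
  apply hwd
  rw [hg, mapUnit_reindex]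

end desc

end

end Pool.Agent.E14.CP
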