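import Pool.Agent.E14.CP.Dtc
import Pool.Agent.E14.CP.Art
import Pool.Agent.E14.CP.SlU
import Pool.Agent.Y69.TK.KDef
import Pool.Agent.Y69.TK.KMain

/-!
# `colim K₁(R[H]) → K₁(R[G])` has torsion kernel, `R` semilocal of prime characteristic
-/

open Matrix

namespace Pool.Agent.E14.CP

open H970SH MonoidAlgebra Pool.Agent.Y69 Pool.Agent.Y69.Main Pool.Agent.Y69.TK.Dsc
  Pool.Agent.Y69.StepC Pool.Agent.Y69.Thy
open Pool.Agent.Y69.Tra (nrm)
open H842 (cl cl_mul cl_one unit1 mapUnit K1_exists)

noncomputable section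

variable (p : ℕ) [hp : Fact p.Prime]

section thy

variable (A : Type) [CommRing A]

/-- the index set of the traces -/
structure Ix where
  /-- the size of the matrices -/
  d : ℕ
  /-- the representation -/
  ψ : A →+* Matrix (Fin d) (Fin d) (LaurentSeries (Fb p))
  /-- the length of the Witt vectors -/
  n : ℕ

/-- the ring of values -/
abbrev Lm : Type := ∀ i : Ix p A, On p (Fb p) i.n

variable {A}

/-- the values on units -/
def bb {C : Type} [CommGroup C] (u : (MonoidAlgebra A C)ˣ) (c : C) : Lm p A :=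
  fun i => bt (XL p (Fb p) i.n) (Nu i.ψ u) c

/-- the theory of units of group rings -/
def thy [CharP A p] (s : Finset A) (hs : Subring.closure (s : Set A) = ⊤) : Theory (Lm p A) 0 where
  U C _ := Additive (MonoidAlgebra A C)ˣ
  grp C _ := inferInstance
  map f := umap A f
  b u := bb p u.toMul
  b_add := by
    intro C _ _ _ u v
    funext c i
    show bt (XL p (Fb p) i.n) (Nu i.ψ (u.toMul * v.toMul)) c = _
    rw [map_mul, bt_mul]
    rfl
  b_map := by
    intro C D _ _ _ _ hD f hf u c
    funext i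
    show bt (XL p (Fb p) i.n) (Nu i.ψ (Units.map (mapDomainRingHom A f :
      MonoidAlgebra A C →* MonoidAlgebra A D) u.toMul)) (f c) = _
    rw [Nu_map, bt_map _ f hf]
    rfl
  b_map_not := by
    intro C D _ _ _ _ hD f hf u d hd
    funext i
    show bt (XL p (Fb p) i.n) (Nu i.ψ (Units.map (mapDomainRingHom A f :
      MonoidAlgebra A C →* MonoidAlgebra A D) u.toMul)) d = _
    rw [Nu_map, bt_map_not _ f _ _ hd]
    rfl
  res := by
    intro C _ _ hC D u
    classical
    have : Fintype (C ⧸ D) := Fintype.ofFinite _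
    refine ⟨Fintype.card (C ⧸ D), Additive.ofMul (Units.map (nrm A D) u.toMul),
      Fintype.card_pos, ?_⟩
    intro d
    funext i
    show bt (XL p (Fb p) i.n) (Nu i.ψ (Units.map (nrm A D) u.toMul)) d = _
    rw [Nu_nrm, bt_nrm, nsmul_eq_mul]
    rfl
  tors := by
    intro C _ _ hC u hu
    have : Fintype C := Fintype.ofFinite _
    obtain ⟨N, hN, h1⟩ := unit_tors p s hs u.toMul
      (fun d ψ n c => congrFun (congrFun hu c) (⟨d, ψ, n⟩ : Ix p A))
    refine ⟨N, hN, ?_⟩
    apply Additive.toMul.injective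
    rw [toMul_nsmul, toMul_zero]
    exact h1

/-- the traces -/
def TT {G : Type} [Group G] (h : G → ℤ) : K1 (MonoidAlgebra A G) →+ Lm p A := by
  classical
  exact if hh : ∀ x y, h (x * y) = h (y * x) then
    AddMonoidHom.pi fun i : Ix p A => TP (XL p (Fb p) i.n) i.ψ h hh else 0

theorem TT_unit {G : Type} [Group G] (h : G → ℤ) (hh : ∀ x y, h (x * y) = h (y * x)) (C : Type)
    [CommGroup C] [Fintype C] (φ : C →* G) (u : Additive (MonoidAlgebra A C)ˣ) :
    TT p h (cl (mapUnit (mapDomainRingHom A φ) (unit1 u.toMul))) =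
      ∑ c, bb p u.toMul c * ((h (φ c) : ℤ) : Lm p A) := by
  unfold TT
  rw [dif_pos hh]
  funext i
  show TP (XL p (Fb p) i.n) i.ψ h hh _ = _
  rw [TP_unit, Finset.sum_apply]
  refine Finset.sum_congr rfl fun c _ => ?_
  rw [zsmul_eq_mul, mul_comm]
  rfl

/-- **Separation.** -/
theorem sepa [CharP A p] (s : Finset A) (hs : Subring.closure (s : Set A) = ⊤) {G : Type}
    [Group G] {y : K1Colim A G} (hy : y ∈ SE A G 0)
    (h0 : ∀ h : G → ℤ, TT p h (K1assembly A G y) = 0) : ∃ k : ℕ, 0 < k ∧ k • y = 0 := by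
  refine Theory.main (S := thy p s hs) (G := G) (𝒜 := K1Colim A G)
    (fun {C} _ _ φ => sym A φ) ?_ (fun h => (TT p h).comp (K1assembly A G)) ?_ hy
    (fun h _ => h0 h)
  · intro C D _ _ _ _ φ ψ f g h u
    exact sym_map A φ ψ f g h u
  · intro h hh C _ _ hC φ u
    exact (congrArg (TT p h) (assembly_sym A φ u)).trans (TT_unit p h hh C φ u)

end thy

section sys

variable (R : Type) [CommRing R]

/-- a finitely generated subring -/
def SX (s : Finset R) : Type := Subring.closure (s : Set R)

instance (s : Finset R) : CommRing (SX R s) :=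
  inferInstanceAs (CommRing (Subring.closure (s : Set R)))

/-- the inclusion -/
def inS (s : Finset R) : SX R s →+* R := (Subring.closure (s : Set R)).subtype

theorem inS_inj (s : Finset R) : Function.Injective (inS R s) := Subtype.val_injective

theorem inS_mem2 {s t : Finset R} (h : s ≤ t) (x : SX R s) :
    ∃ y : SX R t, inS R t y = inS R s x :=
  ⟨⟨x.1, Subring.closure_mono (Finset.coe_subset.2 h) x.2⟩, rfl⟩

/-- the system of finitely generated subrings -/
def subSys : Sys R where
  A s := SX R s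
  ring s := inferInstance
  inA s := inS R s
  inj s := inS_inj R s
  mem s c hc := ⟨⟨c, Subring.subset_closure (Finset.mem_coe.2 hc)⟩, rfl⟩
  inAA h := TK.KMain.fac _ _ (inS_inj R _) (inS_mem2 R h)
  comp h := TK.KMain.fac_comp _ _ (inS_inj R _) (inS_mem2 R h)

theorem SX_gen (s : Finset R) : ∃ s' : Finset (SX R s),
    Subring.closure (s' : Set (SX R s)) = ⊤ := by
  classical
  let f : {x // x ∈ s} → SX R s := fun x => ⟨x.1, Subring.subset_closure x.2⟩
  refine ⟨s.attach.image f, ?_⟩
  have h1 : Subring.closure (s : Set R) ≤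
      (Subring.closure ((s.attach.image f : Finset (SX R s)) : Set (SX R s))).map (inS R s) := by
    rw [Subring.closure_le]
    intro x hx
    refine ⟨f ⟨x, hx⟩, Subring.subset_closure ?_, rfl⟩
    exact Finset.mem_coe.2 (Finset.mem_image.2 ⟨⟨x, hx⟩, Finset.mem_attach _ _, rfl⟩)
  rw [eq_top_iff]
  intro x _
  obtain ⟨y, hy, hyx⟩ := h1 x.2
  have h2 : y = x := inS_inj R s hyx
  rw [← h2]
  exact hy

end sys

section main

variable {R : Type} [CommRing R] {G : Type} [Group G]

theorem cov_cp [CharP R p] [Finite (MaximalSpectrum R)] (z : K1Colim R G) : Cov R z := by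
  induction z using Colim.induction with
  | h0 => exact Cov.zero R
  | hadd x y hx hy => exact Cov.add R hx hy
  | hneg x hx => exact Cov.neg R hx
  | hι H x =>
    have := H.2
    obtain ⟨m, hm, h1⟩ := artin_cp p hp.out x
    apply Cov.of_nsmul R m hm
    have h2 : m • (Colim.ι _ _ H x : K1Colim R G) = Colim.ι _ _ H (m • x) :=
      ((Colim.ιHom (G := G) (fun H => K1 (MonoidAlgebra R H))
        (fun φ => K1map (mapDomainRingHom R φ)) H).map_nsmul m _).symm
    rw [h2]
    generalize m • x = y at h1 ⊢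
    unfold TK.ArtK.cyc at h1
    induction h1 using AddSubgroup.closure_induction with
    | mem y hy =>
      obtain ⟨C, hC, n, M, rfl⟩ := hy
      rw [← K1map_cl]
      exact @TK.KMain.cov_commK G _ R _ (fun C _ _ x => K1_groupRing R C x) H C
        (IsCyclic.commGroup) _ C.subtype Subtype.val_injective (cl M)
    | zero =>
      have : (Colim.ι _ _ H (0 : K1 (MonoidAlgebra R H.1)) : K1Colim R G) = 0 :=
        (Colim.ιHom (G := G) (fun H => K1 (MonoidAlgebra R H))
          (fun φ => K1map (mapDomainRingHom R φ)) H).map_zero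
      rw [this]
      exact Cov.zero R
    | add x y _ _ hx hy =>
      rw [Colim.ι_add]
      exact Cov.add R hx hy
    | neg x _ hx =>
      have : (Colim.ι _ _ H (-x) : K1Colim R G) = - Colim.ι _ _ H x :=
        (Colim.ιHom (G := G) (fun H => K1 (MonoidAlgebra R H))
          (fun φ => K1map (mapDomainRingHom R φ)) H).map_neg x
      rw [this]
      exact Cov.neg R hx

/-- the abstract form -/
theorem main_sys [CharP R p] [Finite (MaximalSpectrum R)] (S : Sys R)
    (hS1 : ∀ t, CharP (S.A t) p)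
    (hS2 : ∀ t, ∃ s : Finset (S.A t), Subring.closure (s : Set (S.A t)) = ⊤)
    (x : K1Colim R G) (n : ℕ) (hn : 0 < n)
    (hx : n • K1assembly R G x = 0) : ∃ l : ℕ, 0 < l ∧ l • x = 0 := by
  obtain ⟨m, E, hm, hE, h1⟩ := cov_cp p x
  have h1' := SE_mono (A := R) (G := G) (dvd_zero E) h1
  obtain ⟨s, y, hy, hyx⟩ := (ev_SE S G h1').exists
  have h2 : K1map (inc S G s) (n • K1assembly (S.A s) G y) = 0 := by
    rw [map_nsmul]
    have h3 := assembly_cmap (S.inA s) y
    rw [hyx, map_nsmul] at h3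
    show n • K1map (mapRingHom G (S.inA s)) _ = 0
    rw [← h3, smul_smul, mul_comm, mul_smul, hx, smul_zero]
  obtain ⟨t, hst, ht⟩ := descend S G s _ h2
  obtain ⟨s', hs'⟩ := hS2 t
  have hch := hS1 t
  have h4 : n • cmap (S.inAA hst) y ∈ SE (S.A t) G 0 :=
    AddSubgroup.nsmul_mem _ (cmap_SE _ hy) n
  obtain ⟨l, hl, h5⟩ := sepa p s' hs' h4 (by
    intro h
    rw [map_nsmul, assembly_cmap, ← map_nsmul, ht, map_zero])
  have h6 := congrArg (cmap (S.inA t)) h5
  rw [map_nsmul, map_nsmul, map_zero, cmap_cmap, S.comp hst, hyx] at h6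
  refine ⟨l * n * m, Nat.mul_pos (Nat.mul_pos hl hn) hm, ?_⟩
  rw [mul_smul, mul_smul]
  exact h6

/-- **Theorem.** -/
theorem main_cp [CharP R p] [Finite (MaximalSpectrum R)] (x : K1Colim R G) (n : ℕ) (hn : 0 < n)
    (hx : n • K1assembly R G x = 0) : ∃ l : ℕ, 0 < l ∧ l • x = 0 :=
  main_sys p (subSys R) (fun t => RingHom.charP (inS R t) (inS_inj R t) p)
    (fun t => SX_gen R t) x n hn hx

/-- **Theorem**, for the groups of `KDef`. -/
theorem main_FJK (R G : Type) [CommRing R] [Finite (MaximalSpectrum R)] [CharP R p] [Group G]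
    (x : Pool.Agent.Y69.FJK.ColimK1 R G) (n : ℕ) (hn : 0 < n)
    (hx : n • Pool.Agent.Y69.FJK.assembly R G x = 0) : ∃ l : ℕ, 0 < l ∧ l • x = 0 :=
  main_cp (G := G) p x n hn hx

end main

end

end Pool.Agent.E14.CP
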