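import Pool.Agent.E14.CP.Eno
import Pool.Agent.H842R2.Mennicke

/-!
# `SK₁` of finitely generated commutative rings of dimension at most one is torsion
-/

open Matrix

namespace Pool.Agent.E14.CP

open H970SH H842

noncomputable section

/-- every unimodular pair can be moved so that the quotient is semilocal with torsion units -/
structure Ar (B : Type) [CommRing B] : Prop where
  av : ∀ (a : B) (J : Submodule B B), Submodule.span B {a} ⊔ J = ⊤ → ∃ j ∈ J,
    Finite (MaximalSpectrum (B ⧸ Ideal.span {a + j})) ∧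
      ∀ u : (B ⧸ Ideal.span {a + j})ˣ, ∃ s : ℕ, 0 < s ∧ u ^ s = 1

section men

variable {B : Type} [CommRing B]

theorem col_uni {k : ℕ} (M : (Matrix (Fin (k + 1)) (Fin (k + 1)) B)ˣ) :
    ∃ u : Fin (k + 1) → B, ∑ i, u i * (M : Matrix (Fin (k + 1)) (Fin (k + 1)) B) i 0 = 1 := by
  refine ⟨fun i => ((M⁻¹ : (Matrix (Fin (k + 1)) (Fin (k + 1)) B)ˣ) :
    Matrix (Fin (k + 1)) (Fin (k + 1)) B) 0 i, ?_⟩
  rw [← Matrix.mul_apply, ← Units.val_mul, inv_mul_cancel]
  simp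

theorem stp1 (hB : Ar B) {k : ℕ} (M : (Matrix (Fin (k + 1)) (Fin (k + 1)) B)ˣ) :
    ∃ M₁ : (Matrix (Fin (k + 1)) (Fin (k + 1)) B)ˣ, cl M₁ = cl M ∧
      Finite (MaximalSpectrum (B ⧸ Ideal.span
        {(M₁ : Matrix (Fin (k + 1)) (Fin (k + 1)) B) 0 0})) := by
  obtain ⟨v, hv⟩ : ∃ v : Fin (k + 1) → B, ∀ i,
    v i = (M : Matrix (Fin (k + 1)) (Fin (k + 1)) B) i 0 := ⟨_, fun _ => rfl⟩
  obtain ⟨u, hu⟩ := col_uni M
  simp only [← hv] at hu
  obtain ⟨j, hj, hc1, -⟩ := hB.av (v 0) _ (span_sup_ne v u 0 hu)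
  obtain ⟨lam, hlam0, hlam⟩ := mem_span_ne v 0 j hj
  obtain ⟨M₁, hM₁, h₁⟩ := rowAdd M 0 lam hlam0
  refine ⟨M₁, hM₁, ?_⟩
  have e : (M₁ : Matrix (Fin (k + 1)) (Fin (k + 1)) B) 0 0 = v 0 + j := by
    rw [h₁, if_pos rfl]
    simp only [← hv]
    rw [hlam]
  rw [e]
  exact hc1

theorem stp2 {k : ℕ} (M : (Matrix (Fin (k + 2)) (Fin (k + 2)) B)ˣ)
    (hM : Finite (MaximalSpectrum (B ⧸ Ideal.span
        {(M : Matrix (Fin (k + 2)) (Fin (k + 2)) B) 0 0}))) :
    ∃ M₂ : (Matrix (Fin (k + 2)) (Fin (k + 2)) B)ˣ, cl M₂ = cl M ∧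
      ∃ x y : B, x * (M₂ : Matrix (Fin (k + 2)) (Fin (k + 2)) B) 0 0 +
        y * (M₂ : Matrix (Fin (k + 2)) (Fin (k + 2)) B) 1 0 = 1 := by
  set a := (M : Matrix (Fin (k + 2)) (Fin (k + 2)) B) 0 0 with ha
  let π : B →+* B ⧸ Ideal.span {a} := Ideal.Quotient.mk _
  have hπ : Function.Surjective π := Ideal.Quotient.mk_surjective
  obtain ⟨u₁, hu₁⟩ := col_uni M
  obtain ⟨v, hv⟩ : ∃ v : Fin (k + 2) → B ⧸ Ideal.span {a}, ∀ i, v i =
    π ((M : Matrix (Fin (k + 2)) (Fin (k + 2)) B) i 0) := ⟨_, fun _ => rfl⟩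
  have hu₁' : ∑ i, π (u₁ i) * v i = 1 := by
    rw [← map_one π, ← hu₁, map_sum]
    simp only [map_mul, hv]
  have hu₂ : π (u₁ 1) * v 1 + ∑ i : {i : Fin (k + 2) // i ≠ 1}, π (u₁ i.1) * v i.1 = 1 := by
    rw [← hu₁', ← Finset.add_sum_erase Finset.univ _ (Finset.mem_univ (1 : Fin (k + 2)))]
    congr 1
    symm
    exact Finset.sum_subtype _ (by simp) _
  obtain ⟨β, hβ⟩ := sr1 (B := B ⧸ Ideal.span {a}) (v 1) (fun i : {i : Fin (k + 2) // i ≠ 1} => v i.1)
    (π (u₁ 1)) (fun i => π (u₁ i.1)) hu₂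
  choose lft hlft using hπ
  obtain ⟨M₂, hM₂, h₂⟩ := rowAdd M 1 (fun i => if h : i = 1 then 0 else lft (β ⟨i, h⟩)) (by simp)
  have ha₂ : (M₂ : Matrix (Fin (k + 2)) (Fin (k + 2)) B) 0 0 = a := by
    rw [h₂, if_neg (by simp), add_zero]
  have hb₂ : π ((M₂ : Matrix (Fin (k + 2)) (Fin (k + 2)) B) 1 0) =
      v 1 + ∑ i : {i : Fin (k + 2) // i ≠ 1}, β i * v i.1 := by
    rw [h₂, if_pos rfl, map_add, map_sum, hv]
    congr 1
    rw [← Finset.add_sum_erase Finset.univ _ (Finset.mem_univ (1 : Fin (k + 2)))]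
    rw [dif_pos rfl, zero_mul, map_zero, zero_add]
    have h3 : ∑ i : {i : Fin (k + 2) // i ≠ 1}, β i * v i.1 =
        ∑ i : {i : Fin (k + 2) // i ≠ 1}, π ((if h : i.1 = 1 then 0 else lft (β ⟨i.1, h⟩)) *
          (M : Matrix (Fin (k + 2)) (Fin (k + 2)) B) i.1 0) := by
      refine Finset.sum_congr rfl fun i _ => ?_
      rw [dif_neg i.2, map_mul, hlft, hv]
    rw [h3]
    exact Finset.sum_subtype _ (by simp) (fun i : Fin (k + 2) =>
      π ((if h : i = 1 then 0 else lft (β ⟨i, h⟩)) *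
          (M : Matrix (Fin (k + 2)) (Fin (k + 2)) B) i 0))
  rw [← hb₂] at hβ
  obtain ⟨U, hU⟩ := hβ
  obtain ⟨y, hy⟩ : ∃ y, π y = ((U⁻¹ : (B ⧸ Ideal.span {a})ˣ) : B ⧸ Ideal.span {a}) := ⟨_, hlft _⟩
  have h3 : π (y * (M₂ : Matrix (Fin (k + 2)) (Fin (k + 2)) B) 1 0 - 1) = 0 := by
    rw [map_sub, map_mul, hy, ← hU, Units.inv_mul, map_one, sub_self]
  have h4 := Ideal.Quotient.eq_zero_iff_mem.1 h3
  obtain ⟨z, hz⟩ := Ideal.mem_span_singleton'.1 h4
  refine ⟨M₂, hM₂, -z, y, ?_⟩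
  rw [ha₂]
  linear_combination -hz

theorem stp3 {k : ℕ} (M : (Matrix (Fin (k + 3)) (Fin (k + 3)) B)ˣ) (x y : B)
    (h : x * (M : Matrix (Fin (k + 3)) (Fin (k + 3)) B) 0 0 +
      y * (M : Matrix (Fin (k + 3)) (Fin (k + 3)) B) 1 0 = 1) :
    ∃ M₃ : (Matrix (Fin (k + 3)) (Fin (k + 3)) B)ˣ, cl M₃ = cl M ∧
      (M₃ : Matrix (Fin (k + 3)) (Fin (k + 3)) B) (Fin.succ (Fin.succ 0)) 0 = 1 := by
  set i2 : Fin (k + 3) := Fin.succ (Fin.succ 0) with hi2
  obtain ⟨c₂, hc₂⟩ : ∃ c₂, c₂ = (M : Matrix (Fin (k + 3)) (Fin (k + 3)) B) i2 0 :=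
    ⟨_, rfl⟩
  obtain ⟨M₃, hM₃, h₃⟩ := rowAdd M i2 (Fin.cons ((1 - c₂) * x) (Fin.cons ((1 - c₂) * y) (fun _ => 0)))
    (by rw [hi2, Fin.cons_succ, Fin.cons_succ])
  refine ⟨M₃, hM₃, ?_⟩
  rw [h₃, if_pos rfl, Fin.sum_univ_succ, Fin.sum_univ_succ, ← hc₂]
  simp only [Fin.cons_zero, Fin.cons_succ, zero_mul, Finset.sum_const_zero, add_zero]
  rw [mul_assoc, mul_assoc, ← mul_add]
  have h5 : (Fin.succ 0 : Fin (k + 3)) = 1 := rfl
  rw [h5, h, mul_one, add_sub_cancel]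

theorem to2 (hB : Ar B) (k : ℕ) : ∀ M : (Matrix (Fin (k + 2)) (Fin (k + 2)) B)ˣ,
    ∃ M' : (Matrix (Fin 2) (Fin 2) B)ˣ, cl M' = cl M := by
  induction k with
  | zero => intro M; exact ⟨M, rfl⟩
  | succ k ih =>
    intro M
    obtain ⟨M₁, hM₁, hf⟩ := stp1 hB M
    obtain ⟨M₂, hM₂, x, y, hxy⟩ := stp2 M₁ hf
    obtain ⟨M₃, hM₃, h₃⟩ := stp3 M₂ x y hxy
    obtain ⟨M', hM'⟩ := step4 M₃ (Fin.succ 0) h₃
    obtain ⟨M'', hM''⟩ := ih M'
    exact ⟨M'', by rw [hM'', hM', hM₃, hM₂, hM₁]⟩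

/-- the class of a two by two matrix of determinant one is torsion -/
theorem SL_tor (hB : Ar B) (a b c d : B) (h : a * d - b * c = 1) :
    ∃ s : ℕ, 0 < s ∧ s • cl (SL a b c d h) = 0 := by
  have h1 : Submodule.span B {a} ⊔ Submodule.span B {b} = ⊤ := by
    have h2 : (1 : B) ∈ Submodule.span B {a} ⊔ Submodule.span B {b} := by
      have e : (1 : B) = d • a + (-c) • b := by
        simp only [smul_eq_mul]; linear_combination -h
      rw [e]
      exact Submodule.add_mem_sup (Submodule.smul_mem _ _ (Submodule.mem_span_singleton_self _))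
        (Submodule.smul_mem _ _ (Submodule.mem_span_singleton_self _))
    rw [eq_top_iff]
    intro w _
    have := Submodule.smul_mem _ w h2
    simpa using this
  obtain ⟨j, hj, -, htor⟩ := hB.av a _ h1
  obtain ⟨t, rfl⟩ := Submodule.mem_span_singleton.1 hj
  rw [smul_eq_mul] at htor
  have h' : (a + t * b) * d - b * (c + t * d) = 1 := by linear_combination h
  have e0 := cl_SL_col0 a b c d t h h'
  rw [← e0]
  generalize a + t * b = a₁ at *
  generalize c + t * d = c₂ at *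
  obtain ⟨s, hs, t', ht'⟩ : ∃ s : ℕ, 0 < s ∧ ∃ t, b ^ s = 1 + a₁ * t := by
    let π : B →+* B ⧸ Ideal.span {a₁} := Ideal.Quotient.mk _
    have ha : π a₁ = 0 := Ideal.Quotient.eq_zero_iff_mem.2 (Ideal.mem_span_singleton_self a₁)
    have h2 : π b * π (-c₂) = 1 := by
      rw [← map_mul, ← map_one π, ← h', map_sub, map_mul π a₁, ha, zero_mul, zero_sub, ← map_neg]
      congr 1
      ring
    obtain ⟨s, hs, h3⟩ := htor ⟨π b, π (-c₂), h2, by rw [mul_comm]; exact h2⟩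
    refine ⟨s, hs, ?_⟩
    have h4 : π (b ^ s - 1) = 0 := by
      have h5 := congrArg Units.val h3
      rw [Units.val_pow_eq_pow_val, Units.val_one] at h5
      rw [map_sub, map_pow, map_one]
      exact sub_eq_zero.2 h5
    obtain ⟨z, hz⟩ := Ideal.mem_span_singleton'.1 (Ideal.Quotient.eq_zero_iff_mem.1 h4)
    exact ⟨z, by linear_combination -hz⟩
  refine ⟨s, hs, ?_⟩
  obtain ⟨c', d', h6, e6⟩ := mennicke_pow a₁ b c₂ d h' s
  rw [e6]
  have h7 : a₁ * 0 - 1 * (-1) = 1 := by ring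
  have h8 : a₁ * (0 + t' * (-1)) - (1 + t' * a₁) * (-1) = 1 := by ring
  have e8 := cl_SL_col1 a₁ 1 (-1) 0 t' h7 h8
  rw [cl_SL_one] at e8
  rw [← e8]
  have h9 : a₁ * (0 + t' * (-1)) - b ^ s * (-1) = 1 := by rw [ht']; ring
  rw [cl_SL_row a₁ (b ^ s) c' d' (-1) (0 + t' * (-1)) h6 h9]
  congr 1
  apply Units.ext
  rw [SL_val, SL_val, ht', mul_comm t' a₁]

/-- every class is a unit up to torsion -/
theorem men (hB : Ar B) (x : K1 B) : ∃ (s : ℕ) (u : Bˣ), 0 < s ∧ s • x = cl (unit1 u) := by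
  obtain ⟨w, rfl⟩ : ∃ M : (Matrix (Fin 2) (Fin 2) B)ˣ, x = cl M := by
    obtain ⟨n, M, hM⟩ := K1_exists x
    obtain ⟨M2, hM2⟩ : ∃ M2 : (Matrix (Fin (n + 2)) (Fin (n + 2)) B)ˣ, cl M2 = cl M := by
      refine ⟨reindexUnit finSumFinEquiv (diagU M (1 : (Matrix (Fin 2) (Fin 2) B)ˣ)), ?_⟩
      rw [cl_reindex, cl_stab]
    obtain ⟨M', hM'⟩ := to2 hB n M2
    exact ⟨M', by rw [hM, hM', hM2]⟩
  obtain ⟨δ, hδ⟩ : IsUnit (w : Matrix (Fin 2) (Fin 2) B).det :=
    (Matrix.isUnit_iff_isUnit_det _).1 w.isUnit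
  let D : (Matrix (Fin 2) (Fin 2) B)ˣ :=
    { val := !![(δ : B), 0; 0, 1]
      inv := !![((δ⁻¹ : Bˣ) : B), 0; 0, 1]
      val_inv := by
        rw [Matrix.mul_fin_two, Matrix.one_fin_two]; simp
      inv_val := by
        rw [Matrix.mul_fin_two, Matrix.one_fin_two]; simp }
  have hD : cl D = cl (unit1 δ) := by
    rw [← cl_stab_unit (unit1 δ)]
    let e : Fin 2 ≃ Unit ⊕ Unit :=
      { toFun := ![Sum.inl (), Sum.inr ()]
        invFun := Sum.elim (fun _ => 0) (fun _ => 1)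
        left_inv := by intro i; fin_cases i <;> rfl
        right_inv := by rintro (i | i) <;> rfl }
    apply cl_congr e
    intro i j
    rw [diagU_val]
    fin_cases i <;> fin_cases j <;> simp [e, D, unit1]
  set W : Matrix (Fin 2) (Fin 2) B := (w : Matrix (Fin 2) (Fin 2) B) with hW
  rw [Matrix.det_fin_two] at hδ
  have h1 : (((δ⁻¹ : Bˣ) : B) * W 0 0) * W 1 1 -
      (((δ⁻¹ : Bˣ) : B) * W 0 1) * W 1 0 = 1 := by
    rw [mul_assoc, mul_assoc, ← mul_sub, ← hδ, Units.inv_mul]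
  have h2 : w = D * SL _ _ _ _ h1 := by
    apply Units.ext
    rw [Units.val_mul, SL_val]
    show W = !![(δ : B), 0; 0, 1] * _
    rw [Matrix.mul_fin_two]
    ext i j : 1
    fin_cases i <;> fin_cases j
    · simp
    · simp
    · simp
    · simp
  obtain ⟨s, hs, e⟩ := SL_tor hB _ _ _ _ h1
  refine ⟨s, δ ^ s, hs, ?_⟩
  rw [h2, cl_mul, smul_add, e, add_zero, hD, ← cl_pow, men_unit1_pow]

/-- classes of determinant one are torsion -/
theorem sk_tor (hB : Ar B) {ι : Type} [Fintype ι] [DecidableEq ι] (M : (Matrix ι ι B)ˣ)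
    (hM : DT.detU M = 1) : ∃ s : ℕ, 0 < s ∧ s • cl M = 0 := by
  obtain ⟨s, u, hs, h⟩ := men hB (cl M)
  obtain ⟨D, hD⟩ := exists_det (R := B)
  have h1 := congrArg D h
  rw [map_nsmul, hD, hD, detU_unit1, hM] at h1
  have h2 : u = 1 := by
    have h3 : (0 : Additive Bˣ) = Additive.ofMul u := by
      rw [← h1]
      show 0 = s • (0 : Additive Bˣ)
      rw [smul_zero]
    exact (congrArg Additive.toMul h3).symm
  refine ⟨s, hs, ?_⟩
  rw [h, h2, men_unit1_one, cl_one]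

end men

/-! ### rings of dimension at most one -/

section dim

variable {B : Type} [CommRing B]

theorem jac_int : IsJacobsonRing ℤ := by
  rw [isJacobsonRing_iff_prime_eq]
  intro P hP
  by_cases h : P = ⊥
  · subst h
    rw [eq_bot_iff]
    intro x hx
    by_contra h0
    have hx0 : x ≠ 0 := fun h => h0 (by rw [h]; exact Submodule.zero_mem _)
    obtain ⟨p, hp1, hp⟩ := Nat.exists_infinite_primes (x.natAbs + 1)
    have hm : (Ideal.span {(p : ℤ)}).IsMaximal := by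
      apply Ideal.IsPrime.isMaximal
      · rw [Ideal.span_singleton_prime (by exact_mod_cast hp.ne_zero)]
        exact Nat.prime_iff_prime_int.1 hp
      · rw [Ne, Ideal.span_singleton_eq_bot]
        exact_mod_cast hp.ne_zero
    have h1 : x ∈ Ideal.span {(p : ℤ)} := by
      have h2 : Ideal.jacobson (⊥ : Ideal ℤ) ≤ Ideal.span {(p : ℤ)} :=
        sInf_le ⟨bot_le, hm⟩
      exact h2 hx
    rw [Ideal.mem_span_singleton] at h1
    have h2 := Int.natAbs_dvd_natAbs.2 h1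
    rw [Int.natAbs_natCast] at h2
    have h3 := Nat.le_of_dvd (Int.natAbs_pos.2 hx0) h2
    omega
  · have hm : P.IsMaximal := Ideal.IsPrime.isMaximal hP h
    exact Ideal.jacobson_eq_self_of_isMaximal

/-- fields which are finitely generated rings are finite -/
theorem fin_field (K : Type) [Field K] [h : Algebra.FiniteType ℤ K] : Finite K := by
  have h0 := jac_int
  have h1 : Module.Finite ℤ K := finite_of_finite_type_of_isJacobsonRing ℤ K
  have h2 : Algebra.IsIntegral ℤ K := inferInstance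
  obtain ⟨p, hp⟩ := CharP.exists K
  rcases CharP.char_is_prime_or_zero K p with h3 | h3
  · have : Fact p.Prime := ⟨h3⟩
    let _ : Algebra (ZMod p) K := ZMod.algebra K p
    have h4 : Module.Finite (ZMod p) K := by
      obtain ⟨s, hs⟩ := h1
      refine ⟨s, ?_⟩
      rw [eq_top_iff]
      intro x _
      have h5 : x ∈ Submodule.span ℤ (s : Set K) := by rw [hs]; exact Submodule.mem_top
      induction h5 using Submodule.span_induction with
      | mem x hx => exact Submodule.subset_span hx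
      | zero => exact Submodule.zero_mem _
      | add x y _ _ hx hy => exact Submodule.add_mem _ (hx trivial) (hy trivial)
      | smul a x _ hx =>
        have h6 : a • x = ((a : ZMod p)) • x := by
          rw [Algebra.smul_def, Algebra.smul_def, eq_intCast, map_intCast]
        rw [h6]
        exact Submodule.smul_mem _ _ (hx trivial)
    exact Module.finite_of_finite (ZMod p)
  · subst h3
    have h4 : CharZero K := CharP.charP_to_charZero K
    have h5 : FaithfulSMul ℤ K := (faithfulSMul_iff_algebraMap_injective ℤ K).2 (by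
      intro a b hab
      rw [eq_intCast, eq_intCast] at hab
      exact Int.cast_injective hab)
    have h6 : IsField ℤ := isField_of_isIntegral_of_isField (R := ℤ) (S := K)
      (FaithfulSMul.algebraMap_injective ℤ K) (Field.toIsField K)
    exact absurd h6 Int.not_isField

/-- prime avoidance -/
theorem avoid [IsNoetherianRing B] (a : B) (J : Ideal B) (h : Ideal.span {a} ⊔ J = ⊤) :
    ∃ j ∈ J, ∀ P ∈ minimalPrimes B, a + j ∉ P := by
  classical
  have hfin : (minimalPrimes B).Finite := minimalPrimes.finite_of_isNoetherianRing B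
  obtain ⟨S, hS⟩ : ∃ S : Finset (Ideal B), ∀ P, P ∈ S ↔ P ∈ minimalPrimes B :=
    ⟨hfin.toFinset, fun P => hfin.mem_toFinset⟩
  obtain ⟨U, hU⟩ : ∃ U : Finset (Ideal B), ∀ P, P ∈ U ↔ P ∈ S ∧ a ∉ P :=
    ⟨S.filter fun P => a ∉ P, fun P => Finset.mem_filter⟩
  obtain ⟨T, hT⟩ : ∃ T : Finset (Ideal B), ∀ P, P ∈ T ↔ P ∈ S ∧ a ∈ P :=
    ⟨S.filter fun P => a ∈ P, fun P => Finset.mem_filter⟩
  have hprime : ∀ P ∈ S, P.IsPrime := fun P hP => ((hS P).1 hP).1.1
  have h1 : ¬ ((J ⊓ U.inf id : Ideal B) : Set B) ⊆ ⋃ Q ∈ (T : Set (Ideal B)), (Q : Set B) := by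
    intro h2
    rw [Ideal.subset_union_prime (s := T) (f := fun Q : Ideal B => Q) ⊥ ⊥
      (fun i hi _ _ => hprime i ((hT i).1 hi).1)] at h2
    obtain ⟨Q, hQ, h3⟩ := h2
    have hQ1 := ((hT Q).1 hQ).1
    have hQ2 := ((hT Q).1 hQ).2
    have hQp := hprime Q hQ1
    rcases hQp.inf_le.1 h3 with h4 | h4
    · apply hQp.ne_top
      rw [eq_top_iff, ← h]
      exact sup_le ((Ideal.span_singleton_le_iff_mem _).2 hQ2) h4
    · rw [hQp.inf_le'] at h4
      obtain ⟨P, hP, h5⟩ := h4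
      have hP1 := ((hU P).1 hP).1
      have hP2 := ((hU P).1 hP).2
      have h6 : P = Q := le_antisymm h5 (((hS Q).1 hQ1).2 ((hS P).1 hP1).1 h5)
      rw [h6] at hP2
      exact hP2 hQ2
  rw [Set.not_subset] at h1
  obtain ⟨j, hj, hj2⟩ := h1
  refine ⟨j, hj.1, ?_⟩
  intro P hP hmem
  by_cases haP : a ∈ P
  · apply hj2
    rw [Set.mem_iUnion₂]
    exact ⟨P, Finset.mem_coe.2 ((hT P).2 ⟨(hS P).2 hP, haP⟩),
      (Ideal.add_mem_iff_right P haP).1 hmem⟩
  · have h3 : P ∈ U := (hU P).2 ⟨(hS P).2 hP, haP⟩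
    have h4 : j ∈ P := by
      have h5 : j ∈ U.inf id := hj.2
      exact (Finset.inf_le (f := id) h3) h5
    exact haP ((Ideal.add_mem_iff_left P h4).1 hmem)

/-- units of a finitely generated ring of dimension zero -/
theorem dim0 (D : Type) [CommRing D] [Algebra.FiniteType ℤ D]
    (h0 : ∀ P : Ideal D, P.IsPrime → P.IsMaximal) :
    Finite (MaximalSpectrum D) ∧ ∀ u : Dˣ, ∃ s : ℕ, 0 < s ∧ u ^ s = 1 := by
  classical
  have hN : IsNoetherianRing D := Algebra.FiniteType.isNoetherianRing ℤ D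
  have hfin : (minimalPrimes D).Finite := minimalPrimes.finite_of_isNoetherianRing D
  have hmin : ∀ m : Ideal D, m.IsMaximal → m ∈ minimalPrimes D := by
    intro m hm
    obtain ⟨P, hP, hle⟩ := Ideal.exists_minimalPrimes_le (I := (⊥ : Ideal D)) (J := m) bot_le
    have := (h0 P hP.1.1).eq_of_le hm.ne_top hle
    rwa [← this]
  have hfin2 : Finite (MaximalSpectrum D) := by
    have := hfin.to_subtype
    exact Finite.of_injective (fun m : MaximalSpectrum D =>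
      (⟨m.asIdeal, hmin _ m.isMaximal⟩ : minimalPrimes D)) (fun m m' h => by
        apply MaximalSpectrum.ext
        exact congrArg Subtype.val h)
  refine ⟨hfin2, fun u => ?_⟩
  have := Fintype.ofFinite (MaximalSpectrum D)
  have hres : ∀ m : MaximalSpectrum D, ∃ n : ℕ, 0 < n ∧ (u : D) ^ n - 1 ∈ m.asIdeal ∧
      (n : D) ∈ m.asIdeal := by
    intro m
    have hm := m.isMaximal
    let _ : Field (D ⧸ m.asIdeal) := Ideal.Quotient.field m.asIdeal
    have h2 : @Algebra.FiniteType ℤ (D ⧸ m.asIdeal) _ _ (Ring.toIntAlgebra _) :=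
      Algebra.FiniteType.of_surjective (Ideal.Quotient.mk m.asIdeal).toIntAlgHom
        Ideal.Quotient.mk_surjective
    have h3 : Finite (D ⧸ m.asIdeal) := fin_field (D ⧸ m.asIdeal)
    have h4 : Finite (D ⧸ m.asIdeal)ˣ := inferInstance
    refine ⟨Nat.card (D ⧸ m.asIdeal)ˣ * Nat.card (D ⧸ m.asIdeal), Nat.mul_pos Nat.card_pos
      Nat.card_pos, ?_, ?_⟩
    · apply Ideal.Quotient.eq_zero_iff_mem.1
      have h5 : (Units.map (Ideal.Quotient.mk m.asIdeal : D →* D ⧸ m.asIdeal) u) ^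
          Nat.card (D ⧸ m.asIdeal)ˣ = 1 := pow_card_eq_one'
      have h6 := congrArg Units.val h5
      rw [Units.val_pow_eq_pow_val, Units.val_one] at h6
      rw [map_sub, map_pow, map_one, pow_mul]
      have h7 : (Ideal.Quotient.mk m.asIdeal (u : D)) ^ Nat.card (D ⧸ m.asIdeal)ˣ = 1 := h6
      rw [h7, one_pow, sub_self]
    · apply Ideal.Quotient.eq_zero_iff_mem.1
      have h5 : Nat.card (D ⧸ m.asIdeal) • (1 : D ⧸ m.asIdeal) = 0 := card_nsmul_eq_zero'
      rw [nsmul_eq_mul, mul_one] at h5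
      rw [Nat.cast_mul, map_mul, map_natCast (Ideal.Quotient.mk m.asIdeal) (Nat.card (D ⧸ m.asIdeal)),
        h5, mul_zero]
  choose n hn0 hn1 hn2 using hres
  have hjac : ∀ x : D, (∀ m : MaximalSpectrum D, x ∈ m.asIdeal) → IsNilpotent x := by
    intro x hx
    rw [← mem_nilradical]
    show x ∈ (⊥ : Ideal D).radical
    rw [← Ideal.sInf_minimalPrimes, Submodule.mem_sInf]
    intro Q hQ
    exact hx ⟨Q, h0 Q hQ.1.1⟩
  let N : ℕ := ∏ m, n m
  have hN0 : 0 < N := Finset.prod_pos fun m _ => hn0 m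
  have hNd : ∀ m, n m ∣ N := fun m => Finset.dvd_prod_of_mem n (Finset.mem_univ m)
  have hν : IsNilpotent ((u : D) ^ N - 1) := by
    apply hjac
    intro m
    obtain ⟨k, hk⟩ := hNd m
    rw [hk, pow_mul]
    have h2 := sub_dvd_pow_sub_pow ((u : D) ^ n m) 1 k
    rw [one_pow] at h2
    exact Ideal.mem_of_dvd _ h2 (hn1 m)
  have hc : IsNilpotent ((N : ℕ) : D) := by
    apply hjac
    intro m
    obtain ⟨k, hk⟩ := hNd m
    rw [hk, Nat.cast_mul]
    exact Ideal.mul_mem_right _ _ (hn2 m)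
  obtain ⟨k, hk⟩ := hc
  obtain ⟨K, hK, h1⟩ := pow_unip ((u : D) ^ N - 1) hν (N ^ k) (pow_pos hN0 k) (by
    rw [Nat.cast_pow, hk, zero_mul])
  refine ⟨N * K, Nat.mul_pos hN0 hK, ?_⟩
  apply Units.ext
  rw [Units.val_pow_eq_pow_val, pow_mul, Units.val_one, ← h1]
  congr 1
  ring

theorem ar_of_dim (hft : Algebra.FiniteType ℤ B) (h1 : Ring.KrullDimLE 1 B) : Ar B := by
  have hN : IsNoetherianRing B := Algebra.FiniteType.isNoetherianRing ℤ B
  rw [Ring.krullDimLE_one_iff] at h1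
  constructor
  intro a J hJ
  obtain ⟨j, hj, hav⟩ := avoid a J hJ
  refine ⟨j, hj, ?_⟩
  have h2 : @Algebra.FiniteType ℤ (B ⧸ Ideal.span {a + j}) _ _ (Ring.toIntAlgebra _) :=
    Algebra.FiniteType.of_surjective (Ideal.Quotient.mk (Ideal.span {a + j})).toIntAlgHom
      Ideal.Quotient.mk_surjective
  apply dim0
  intro P hP
  let Q : Ideal B := P.comap (Ideal.Quotient.mk (Ideal.span {a + j}))
  have hQ : Q.IsPrime := Ideal.IsPrime.comap _
  have haQ : a + j ∈ Q := by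
    show Ideal.Quotient.mk (Ideal.span {a + j}) (a + j) ∈ P
    rw [Ideal.Quotient.eq_zero_iff_mem.2 (Ideal.mem_span_singleton_self _)]
    exact P.zero_mem
  rcases h1 Q hQ with h3 | h3
  · exact absurd haQ (hav Q h3)
  · have h4 : P = Q.map (Ideal.Quotient.mk (Ideal.span {a + j})) :=
      (Ideal.map_comap_of_surjective _ Ideal.Quotient.mk_surjective P).symm
    rcases Ideal.map_eq_top_or_isMaximal_of_surjective
      (Ideal.Quotient.mk (Ideal.span {a + j})) Ideal.Quotient.mk_surjective h3 with h5 | h5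
    · rw [← h4] at h5
      exact absurd h5 hP.ne_top
    · rwa [← h4] at h5

end dim

end

end Pool.Agent.E14.CP
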