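import Pool.Agent.E14.CP.Men

/-!
# Coefficient rings with torsion `SK₁`
-/

open Matrix

namespace Pool.Agent.E14.CP

open H970SH MonoidAlgebra Pool.Agent.Y69 Pool.Agent.Y69.Main Pool.Agent.Y69.TK.Dsc
open H842 hiding ps psHom ps_of ps_th

noncomputable section

theorem dim_int (A B : Type) [CommRing A] [CommRing B] [Algebra A B] [Algebra.IsIntegral A B]
    (h : Ring.KrullDimLE 1 A) : Ring.KrullDimLE 1 B := by
  rw [Ring.krullDimLE_one_iff] at h ⊢
  intro Q hQ
  by_cases hmin : Q ∈ minimalPrimes B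
  · exact Or.inl hmin
  · right
    obtain ⟨P, hP, hle⟩ := Ideal.exists_minimalPrimes_le (I := (⊥ : Ideal B)) (J := Q) bot_le
    have hne : P ≠ Q := fun h => hmin (h ▸ hP)
    have hPp : P.IsPrime := hP.1.1
    obtain ⟨x, hxQ, hxP⟩ := Set.exists_of_ssubset
      (Set.ssubset_iff_subset_ne.2 ⟨hle, fun h => hne (SetLike.coe_injective h)⟩)
    have h1 := Ideal.comap_lt_comap_of_integral_mem_sdiff (R := A) (I := P) (J := Q) hle
      ⟨hxQ, hxP⟩ (Algebra.IsIntegral.isIntegral x)
    apply Ideal.isMaximal_of_isIntegral_of_isMaximal_comap (R := A) Q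
    rcases h (Q.comap (algebraMap A B)) (Ideal.IsPrime.comap _) with h2 | h2
    · exfalso
      have h3 : (P.comap (algebraMap A B)).IsPrime := Ideal.IsPrime.comap _
      exact h1.not_ge (h2.2 ⟨h3, bot_le⟩ h1.le)
    · exact h2

theorem dim_grp {A : Type} [CommRing A] (hf : Algebra.FiniteType ℤ A) (h : Ring.KrullDimLE 1 A)
    (C : Type) [CommGroup C] [Finite C] : Ar (MonoidAlgebra A C) := by
  have h1 : Module.Finite A (MonoidAlgebra A C) :=
    Module.Finite.equiv (MonoidAlgebra.coeffLinearEquiv (S := A) (M := C) A).symm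
  have h2 : Algebra.FiniteType A (MonoidAlgebra A C) := inferInstance
  have h3 : Algebra.IsIntegral A (MonoidAlgebra A C) := inferInstance
  have h4 : Algebra.FiniteType ℤ (MonoidAlgebra A C) := Algebra.FiniteType.trans hf h2
  have h5 : @Algebra.FiniteType ℤ (MonoidAlgebra A C) _ _ (Ring.toIntAlgebra _) := by
    have e : (Ring.toIntAlgebra (MonoidAlgebra A C)) = MonoidAlgebra.algebra :=
      Subsingleton.elim _ _
    rw [e]
    exact h4
  exact ar_of_dim h5 (dim_int A (MonoidAlgebra A C) h)

section tor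

variable {R : Type} [CommRing R] {G : Type} [Group G]

/-- torsion of the part of determinant one -/
theorem sk_all (h : ∀ (C : Type) [CommGroup C] [Finite C] [IsCyclic C] (n : ℕ)
    (M : (Matrix (Fin n) (Fin n) (MonoidAlgebra R C))ˣ), DT.detU M = 1 →
      ∃ s : ℕ, 0 < s ∧ s • cl M = 0) {z : K1Colim R G} (hz : z ∈ SKc R G) :
    ∃ s : ℕ, 0 < s ∧ s • z = 0 := by
  unfold SKc at hz
  induction hz using AddSubgroup.closure_induction with
  | mem z hz =>
    obtain ⟨C, _, _, _, H, φ, hφ, n, M, hM, rfl⟩ := hz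
    obtain ⟨s, hs, h1⟩ := h C n M hM
    refine ⟨s, hs, ?_⟩
    have h2 : s • (Colim.ι _ _ H (cl (mapUnit (mapDomainRingHom R φ) M)) : K1Colim R G) =
        Colim.ι _ _ H (K1map (mapDomainRingHom R φ) (s • cl M)) := by
      rw [map_nsmul, K1map_cl]
      exact ((Colim.ιHom (G := G) (fun H => K1 (MonoidAlgebra R H))
        (fun φ => K1map (mapDomainRingHom R φ)) H).map_nsmul s _).symm
    rw [h2, h1, map_zero]
    exact (Colim.ιHom (G := G) (fun H => K1 (MonoidAlgebra R H))
        (fun φ => K1map (mapDomainRingHom R φ)) H).map_zero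
  | zero => exact ⟨1, one_pos, smul_zero _⟩
  | add x y _ _ hx hy =>
    obtain ⟨s, hs, h1⟩ := hx
    obtain ⟨t, ht, h2⟩ := hy
    refine ⟨s * t, Nat.mul_pos hs ht, ?_⟩
    rw [smul_add, mul_comm s t, mul_smul, h1, smul_zero, mul_comm t s, mul_smul, h2, smul_zero,
      add_zero]
  | neg x _ hx =>
    obtain ⟨s, hs, h1⟩ := hx
    exact ⟨s, hs, by rw [smul_neg, h1, neg_zero]⟩

theorem tor_semilocal [Finite (MaximalSpectrum R)] {z : K1Colim R G} (hz : z ∈ SKc R G) :
    ∃ s : ℕ, 0 < s ∧ s • z = 0 :=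
  sk_all (fun C _ _ _ n M hM => ⟨1, one_pos, by rw [cl_sk M hM, smul_zero]⟩) hz

theorem tor_dim (hR : ∀ s : Finset R, Ring.KrullDimLE 1 (Subring.closure (s : Set R)))
    {z : K1Colim R G} (hz : z ∈ SKc R G) : ∃ s : ℕ, 0 < s ∧ s • z = 0 := by
  refine sk_all (fun C _ _ _ n M hM => ?_) hz
  obtain ⟨t, M', hM'⟩ := (ev_lift (subSys R) C M).exists
  have h1 : DT.detU M' = 1 := by
    have h1 := hM
    rw [← hM', detU_map] at h1
    apply Units.ext
    apply inc_injective (subSys R) C t
    rw [Units.val_one, map_one]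
    exact congrArg Units.val h1
  have h2 : Algebra.FiniteType ℤ (SX R t) := by
    obtain ⟨s', hs'⟩ := SX_gen R t
    refine ⟨⟨s', ?_⟩⟩
    rw [eq_top_iff]
    intro x _
    have h1 : Subring.closure (s' : Set (SX R t)) ≤
        (Algebra.adjoin ℤ (s' : Set (SX R t))).toSubring :=
      Subring.closure_le.2 Algebra.subset_adjoin
    rw [hs'] at h1
    exact h1 (Subring.mem_top x)
  obtain ⟨s, hs, h3⟩ := sk_tor (dim_grp (A := SX R t) h2 (hR t) C) M' h1
  refine ⟨s, hs, ?_⟩
  have h3' : s • (cl M' : K1 (MonoidAlgebra ((subSys R).A t) C)) = 0 := h3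
  rw [← hM', ← K1map_cl, ← map_nsmul, h3', map_zero]

end tor

/-! ### algebraic coefficient domains -/

theorem dim_alg {A : Type} [CommRing A] [IsDomain A] [CharZero A] [Algebra.IsAlgebraic ℤ A] :
    Ring.KrullDimLE 1 A := by
  rw [Ring.krullDimLE_one_iff_of_noZeroDivisors]
  intro P hP0 hP
  -- a prime number in `P`
  obtain ⟨x, hx, hx0⟩ := Submodule.exists_mem_ne_zero_of_ne_bot hP0
  obtain ⟨f, hf, hfx⟩ := Algebra.IsAlgebraic.isAlgebraic (R := ℤ) x
  have h1 : ∃ n : ℤ, n ≠ 0 ∧ (n : A) ∈ P := by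
    have h2 : ∀ (d : ℕ) (g : Polynomial ℤ), g ≠ 0 → g.natDegree ≤ d → Polynomial.aeval x g = 0 →
        ∃ n : ℤ, n ≠ 0 ∧ (n : A) ∈ P := by
      intro d
      induction d with
      | zero =>
        intro g hg hd hgx
        rw [Nat.le_zero] at hd
        rw [Polynomial.eq_C_of_natDegree_eq_zero hd] at hgx hg
        rw [Polynomial.aeval_C] at hgx
        refine ⟨g.coeff 0, fun h => hg (by rw [h, Polynomial.C_0]), ?_⟩
        rw [eq_intCast] at hgx
        rw [hgx]
        exact P.zero_mem
      | succ d ih =>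
        intro g hg hd hgx
        by_cases h0 : g.coeff 0 = 0
        · obtain ⟨q, hq⟩ := Polynomial.X_dvd_iff.2 h0
          have hq0 : q ≠ 0 := by
            rintro rfl
            exact hg (by rw [hq, mul_zero])
          have hqx : Polynomial.aeval x q = 0 := by
            rw [hq, map_mul, Polynomial.aeval_X] at hgx
            exact (mul_eq_zero.1 hgx).resolve_left hx0
          apply ih q hq0 _ hqx
          rw [hq, Polynomial.natDegree_X_mul hq0] at hd
          omega
        · refine ⟨g.coeff 0, h0, ?_⟩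
          obtain ⟨q, hq⟩ : Polynomial.X ∣ g - Polynomial.C (g.coeff 0) := by
            rw [Polynomial.X_dvd_iff, Polynomial.coeff_sub, Polynomial.coeff_C_zero, sub_self]
          have h3 : ((g.coeff 0 : ℤ) : A) = -(x * Polynomial.aeval x q) := by
            have h4 := congrArg (Polynomial.aeval x) hq
            rw [map_sub, hgx, Polynomial.aeval_C, map_mul, Polynomial.aeval_X, zero_sub,
              eq_intCast] at h4
            rw [← h4, neg_neg]
          rw [h3]
          exact P.neg_mem (P.mul_mem_right _ hx)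
    exact h2 f.natDegree f hf le_rfl hfx
  obtain ⟨n, hn0, hn⟩ := h1
  -- the characteristic of the quotient
  obtain ⟨p, hp⟩ := CharP.exists (A ⧸ P)
  have hpp : p.Prime := by
    rcases CharP.char_is_prime_or_zero (A ⧸ P) p with h3 | h3
    · exact h3
    · subst h3
      exfalso
      have h4 : CharZero (A ⧸ P) := CharP.charP_to_charZero _
      have h5 := Ideal.Quotient.eq_zero_iff_mem.2 hn
      rw [map_intCast] at h5
      exact hn0 (Int.cast_eq_zero.1 h5)
  have : Fact p.Prime := ⟨hpp⟩
  let _ : Algebra (ZMod p) (A ⧸ P) := ZMod.algebra (A ⧸ P) p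
  have h3 : Algebra.IsIntegral (ZMod p) (A ⧸ P) := by
    have h4 : Algebra.IsAlgebraic (ZMod p) (A ⧸ P) := by
      constructor
      intro y
      obtain ⟨y, rfl⟩ := Ideal.Quotient.mk_surjective y
      obtain ⟨f, hf, hfy⟩ := Algebra.IsAlgebraic.isAlgebraic (R := ℤ) y
      have h5 : Polynomial.aeval y f.primPart = 0 := by
        have h6 := Polynomial.eq_C_content_mul_primPart f
        rw [h6, map_mul, Polynomial.aeval_C, eq_intCast] at hfy
        rcases mul_eq_zero.1 hfy with h7 | h7
        · exfalso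
          have h8 : f.content = 0 := Int.cast_eq_zero.1 h7
          exact hf (Polynomial.content_eq_zero_iff.1 h8)
        · exact h7
      refine ⟨f.primPart.map (Int.castRingHom (ZMod p)), ?_, ?_⟩
      · intro h6
        have h7 : Polynomial.C (p : ℤ) ∣ f.primPart := by
          rw [Polynomial.C_dvd_iff_dvd_coeff]
          intro i
          have h8 := congrArg (fun g => g.coeff i) h6
          simp only [Polynomial.coeff_map, Polynomial.coeff_zero, eq_intCast] at h8
          exact (ZMod.intCast_zmod_eq_zero_iff_dvd _ _).1 h8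
        have h8 := (Polynomial.isPrimitive_iff_isUnit_of_C_dvd.1 f.isPrimitive_primPart) _ h7
        exact hpp.one_lt.ne' (by
          have := Int.isUnit_iff_natAbs_eq.1 h8
          simpa using this)
      · have e : (algebraMap (ZMod p) (A ⧸ P)).comp (Int.castRingHom (ZMod p)) =
            (Ideal.Quotient.mk P).comp (algebraMap ℤ A) := Subsingleton.elim _ _
        rw [Polynomial.aeval_def, Polynomial.eval₂_map, e, ← Polynomial.hom_eval₂,
          ← Polynomial.aeval_def, h5, map_zero]
    exact Algebra.IsAlgebraic.isIntegral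
  have h4 : IsField (A ⧸ P) := isField_of_isIntegral_of_isField' (R := ZMod p) (S := A ⧸ P)
    (Field.toIsField (ZMod p))
  exact Ideal.Quotient.maximal_of_isField P h4

end

end Pool.Agent.E14.CP
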