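import Pool.Agent.E14.CP.Psi
import Pool.Agent.E14.CP.Art

/-!
# Artin induction for `K₁(R[G])`, `R` any commutative ring (Swan's argument)
-/

namespace Pool.Agent.E14.CP

open H970SH MonoidAlgebra Pool.Agent.Y69.TK.ArtK
open H842 (cl cl_mul cl_one cl_inv cl_congr cl_upper blow blow_apply K1_exists XX artin_matrix
  reindexUnit reindexUnit_val cl_reindex)
open Pool.Agent.Y778.SL (hat hat_mul hat_one pm pm_intertwine dvd_of_val)

noncomputable section

section phi

variable {k : Type} [CommRing k] {G : Type} [Group G] {T : Type} [Fintype T] [DecidableEq T]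

/-- the twist by an integral representation -/
def twHom (r : G →* Matrix T T ℤ) : MonoidAlgebra k G →+* Matrix T T (MonoidAlgebra k G) :=
  (MonoidAlgebra.lift k (Matrix T T (MonoidAlgebra k G)) G
    { toFun := fun g => Matrix.of fun x y => single g ((r g x y : ℤ) : k)
      map_one' := by
        ext x y : 1
        rw [Matrix.of_apply, map_one, Matrix.one_apply, Matrix.one_apply]
        split_ifs
        · rw [Int.cast_one]; rfl
        · rw [Int.cast_zero, single_zero]
      map_mul' := fun g h => by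
        ext x y : 1
        rw [Matrix.of_apply, map_mul, Matrix.mul_apply, Matrix.mul_apply, Int.cast_sum]
        have h3 : ∀ (s : Finset T) (f : T → k), (single (g * h) (∑ i ∈ s, f i) : MonoidAlgebra k G) =
            ∑ i ∈ s, single (g * h) (f i) := fun s f =>
          map_sum (MonoidAlgebra.singleAddHom (g * h)) f s
        rw [h3]
        refine Finset.sum_congr rfl fun z _ => ?_
        rw [Matrix.of_apply, Matrix.of_apply, single_mul_single, Int.cast_mul] }).toRingHom

theorem twHom_single (r : G →* Matrix T T ℤ) (g : G) (c : k) (x y : T) :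
    twHom r (single g c) x y = single g (c * ((r g x y : ℤ) : k)) := by
  show (MonoidAlgebra.lift k (Matrix T T (MonoidAlgebra k G)) G _ (single g c)) x y = _
  rw [MonoidAlgebra.lift_single, Matrix.smul_apply]
  show c • (single g ((r g x y : ℤ) : k) : MonoidAlgebra k G) = _
  rw [MonoidAlgebra.smul_single, smul_eq_mul]

/-- additive extension -/
theorem twHom_ext {M : Type} [AddCommGroup M] (f g : MonoidAlgebra k G →+ M)
    (h : ∀ (a : G) (r : k), f (single a r) = g (single a r)) (x : MonoidAlgebra k G) :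
    f x = g x := DFunLike.congr_fun (MonoidAlgebra.addMonoidHom_ext h) x

/-- the entries -/
def twE (r : G →* Matrix T T ℤ) (x y : T) : MonoidAlgebra k G →+ MonoidAlgebra k G where
  toFun a := twHom r a x y
  map_zero' := by rw [map_zero]; rfl
  map_add' a b := by rw [map_add]; rfl

/-- the operation of an integral representation on `K₁` -/
def Phi (r : G →* Matrix T T ℤ) : K1 (MonoidAlgebra k G) →+ K1 (MonoidAlgebra k G) :=
  K1blow (twHom r)

theorem Phi_cl (r : G →* Matrix T T ℤ) {ι : Type} [Fintype ι] [DecidableEq ι]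
    (w : (Matrix ι ι (MonoidAlgebra k G))ˣ) : Phi r (cl w) = cl (blow (twHom r) w) :=
  K1blow_cl _ w

/-- intertwiners -/
theorem tw_inter {T' : Type} [Fintype T'] [DecidableEq T'] (r : G →* Matrix T T ℤ)
    (s : G →* Matrix T' T' ℤ) (P : Matrix T T' ℤ) (h : ∀ g, r g * P = P * s g)
    (a : MonoidAlgebra k G) (x : T) (y : T') :
    ∑ z, twHom r a x z * ((P z y : ℤ) : MonoidAlgebra k G) =
      ∑ z, ((P x z : ℤ) : MonoidAlgebra k G) * twHom s a z y := by
  let f : MonoidAlgebra k G →+ MonoidAlgebra k G :=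
    { toFun := fun a => ∑ z, twHom r a x z * ((P z y : ℤ) : MonoidAlgebra k G)
      map_zero' := by simp
      map_add' := by intro a b; simp [add_mul, Finset.sum_add_distrib] }
  let f' : MonoidAlgebra k G →+ MonoidAlgebra k G :=
    { toFun := fun a => ∑ z, ((P x z : ℤ) : MonoidAlgebra k G) * twHom s a z y
      map_zero' := by simp
      map_add' := by intro a b; simp [mul_add, Finset.sum_add_distrib] }
  apply twHom_ext f f'
  intro g c
  show ∑ z, twHom r (single g c) x z * ((P z y : ℤ) : MonoidAlgebra k G) =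
    ∑ z, ((P x z : ℤ) : MonoidAlgebra k G) * twHom s (single g c) z y
  have h2 : ∀ n : ℤ, ((n : ℤ) : MonoidAlgebra k G) = single 1 (n : k) := by
    intro n
    exact MonoidAlgebra.intCast_def n
  have h3 : ∀ {T : Type} (s : Finset T) (f : T → k),
      ∑ i ∈ s, (single g (f i) : MonoidAlgebra k G) = single g (∑ i ∈ s, f i) := by
    intro T s f
    exact (map_sum (MonoidAlgebra.singleAddHom g) f s).symm
  simp only [twHom_single, h2, single_mul_single, one_mul, mul_one, h3]
  congr 1
  have h4 := congrArg (Int.cast : ℤ → k) (congrFun (congrFun (h g) x) y)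
  rw [Matrix.mul_apply, Matrix.mul_apply, Int.cast_sum, Int.cast_sum] at h4
  have h5 := congrArg (fun t => c * t) h4
  simp only [Finset.mul_sum] at h5
  convert h5 using 2
  · rw [Int.cast_mul, mul_assoc]
  · rw [Int.cast_mul]; ring

theorem blow_inter {T' : Type} [Fintype T'] [DecidableEq T'] (r : G →* Matrix T T ℤ)
    (s : G →* Matrix T' T' ℤ) (P : Matrix T T' ℤ) (h : ∀ g, r g * P = P * s g)
    {ι : Type} [Fintype ι] [DecidableEq ι] (w : (Matrix ι ι (MonoidAlgebra k G))ˣ) :
    ((blow (twHom r) w : (Matrix (ι × T) (ι × T) (MonoidAlgebra k G))ˣ) :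
      Matrix (ι × T) (ι × T) (MonoidAlgebra k G)) * hat (MonoidAlgebra k G) ι P =
    hat (MonoidAlgebra k G) ι P *
      ((blow (twHom s) w : (Matrix (ι × T') (ι × T') (MonoidAlgebra k G))ˣ) :
        Matrix (ι × T') (ι × T') (MonoidAlgebra k G)) := by
  ext ⟨i, x⟩ ⟨j, y⟩ : 1
  rw [Matrix.mul_apply, Matrix.mul_apply, Fintype.sum_prod_type, Fintype.sum_prod_type,
    Finset.sum_eq_single j, Finset.sum_eq_single i]
  · unfold hat
    simp only [Matrix.of_apply, if_true, blow_apply]
    exact tw_inter r s P h _ x y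
  · intro l _ hl
    refine Finset.sum_eq_zero fun z _ => ?_
    unfold hat
    rw [Matrix.of_apply, if_neg (Ne.symm hl), zero_mul]
  · intro h; exact absurd (Finset.mem_univ _) h
  · intro l _ hl
    refine Finset.sum_eq_zero fun z _ => ?_
    unfold hat
    rw [Matrix.of_apply, if_neg hl, mul_zero]
  · intro h; exact absurd (Finset.mem_univ _) h

theorem hat_inv' {X Z ι : Type} [Fintype X] [DecidableEq X] [Fintype Z] [DecidableEq Z] [Fintype ι]
    [DecidableEq ι] {U : Matrix X Z ℤ} {U' : Matrix Z X ℤ} (hU : U * U' = 1) :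
    hat (MonoidAlgebra k G) ι U * hat (MonoidAlgebra k G) ι U' = 1 := by
  rw [← hat_mul, hU, hat_one]

/-- equivalent representations -/
theorem Phi_conj {T' : Type} [Fintype T'] [DecidableEq T'] (r : G →* Matrix T T ℤ)
    (s : G →* Matrix T' T' ℤ) (U : Matrix T T' ℤ) (U' : Matrix T' T ℤ) (hU : U * U' = 1)
    (hU' : U' * U = 1) (h : ∀ g, r g * U = U * s g) (x : K1 (MonoidAlgebra k G)) :
    Phi r x = Phi s x := by
  obtain ⟨n, w, rfl⟩ := K1_exists x
  rw [Phi_cl, Phi_cl]
  exact cl_rect (S := MonoidAlgebra k G) _ _ _ _ (hat_inv' hU) (hat_inv' hU')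
    (blow_inter r s U h w)

/-- block triangular representations -/
theorem Phi_tri {T' : Type} [Fintype T'] [DecidableEq T'] (r : G →* Matrix T T ℤ)
    (s : G →* Matrix T' T' ℤ) (q : G →* Matrix (T ⊕ T') (T ⊕ T') ℤ)
    (h1 : ∀ g x y, q g (Sum.inl x) (Sum.inl y) = r g x y)
    (h2 : ∀ g x y, q g (Sum.inr x) (Sum.inl y) = 0)
    (h3 : ∀ g x y, q g (Sum.inr x) (Sum.inr y) = s g x y) (x : K1 (MonoidAlgebra k G)) :
    Phi q x = Phi r x + Phi s x := by
  obtain ⟨n, w, rfl⟩ := K1_exists x
  rw [Phi_cl, Phi_cl, Phi_cl]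
  have e1 : ∀ (a : MonoidAlgebra k G) x y, twHom q a (Sum.inl x) (Sum.inl y) = twHom r a x y :=
    fun a x y => twHom_ext (twE q (Sum.inl x) (Sum.inl y)) (twE r x y) (fun g c => by
      show twHom q (single g c) _ _ = twHom r (single g c) _ _
      rw [twHom_single, twHom_single, h1]) a
  have e2 : ∀ (a : MonoidAlgebra k G) x y, twHom q a (Sum.inr x) (Sum.inl y) = 0 :=
    fun a x y => twHom_ext (twE q (Sum.inr x) (Sum.inl y)) 0 (fun g c => by
      show twHom q (single g c) _ _ = 0
      rw [twHom_single, h2, Int.cast_zero, mul_zero, single_zero]) a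
  have e3 : ∀ (a : MonoidAlgebra k G) x y, twHom q a (Sum.inr x) (Sum.inr y) = twHom s a x y :=
    fun a x y => twHom_ext (twE q (Sum.inr x) (Sum.inr y)) (twE s x y) (fun g c => by
      show twHom q (single g c) _ _ = twHom s (single g c) _ _
      rw [twHom_single, twHom_single, h3]) a
  rw [← cl_reindex (Equiv.prodSumDistrib (Fin n) T T') (blow (twHom q) w)]
  apply cl_upper (blow (twHom r) w) (blow (twHom s) w)
    (Matrix.of fun p p' => twHom q ((w : Matrix _ _ (MonoidAlgebra k G)) p.1 p'.1)
      (Sum.inl p.2) (Sum.inr p'.2))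
  ext (⟨i, x⟩ | ⟨i, x⟩) (⟨j, y⟩ | ⟨j, y⟩) : 1
  · rw [reindexUnit_val]
    simp [blow_apply, e1]
  · rw [reindexUnit_val]
    simp [blow_apply]
  · rw [reindexUnit_val]
    simp [blow_apply, e2]
  · rw [reindexUnit_val]
    simp [blow_apply, e3]

/-- tensor products -/
def kro {T' : Type} [Fintype T'] [DecidableEq T'] (r : G →* Matrix T T ℤ)
    (s : G →* Matrix T' T' ℤ) : G →* Matrix (T × T') (T × T') ℤ where
  toFun g := Matrix.of fun x y => r g x.1 y.1 * s g x.2 y.2
  map_one' := by
    ext ⟨x, x'⟩ ⟨y, y'⟩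
    rw [Matrix.of_apply, map_one, map_one, Matrix.one_apply, Matrix.one_apply, Matrix.one_apply]
    by_cases h : x = y <;> by_cases h' : x' = y' <;> simp [h, h']
  map_mul' g h := by
    ext ⟨x, x'⟩ ⟨y, y'⟩
    rw [Matrix.of_apply, map_mul, map_mul, Matrix.mul_apply, Matrix.mul_apply, Matrix.mul_apply,
      Fintype.sum_prod_type, Finset.sum_mul_sum]
    refine Finset.sum_congr rfl fun z _ => Finset.sum_congr rfl fun z' _ => ?_
    rw [Matrix.of_apply, Matrix.of_apply]
    ring

theorem kro_apply {T' : Type} [Fintype T'] [DecidableEq T'] (r : G →* Matrix T T ℤ)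
    (s : G →* Matrix T' T' ℤ) (g : G) (x y : T × T') :
    kro r s g x y = r g x.1 y.1 * s g x.2 y.2 := rfl

theorem Phi_kro {T' : Type} [Fintype T'] [DecidableEq T'] (r : G →* Matrix T T ℤ)
    (s : G →* Matrix T' T' ℤ) (x : K1 (MonoidAlgebra k G)) :
    Phi (kro r s) x = Phi r (Phi s x) := by
  obtain ⟨n, w, rfl⟩ := K1_exists x
  rw [Phi_cl, Phi_cl, Phi_cl]
  let e : Fin n × (T × T') ≃ (Fin n × T') × T :=
    { toFun := fun p => ((p.1, p.2.2), p.2.1)
      invFun := fun p => (p.1.1, (p.2, p.1.2))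
      left_inv := fun _ => rfl
      right_inv := fun _ => rfl }
  apply cl_congr e
  rintro ⟨i, x, x'⟩ ⟨j, y, y'⟩
  rw [blow_apply]
  show twHom (kro r s) _ (x, x') (y, y') = (Units.val (blow (twHom r) (blow (twHom s) w)))
    ((i, x'), x) ((j, y'), y)
  rw [blow_apply, blow_apply]
  generalize (w : Matrix _ _ (MonoidAlgebra k G)) i j = a
  exact twHom_ext (twE (kro r s) (x, x') (y, y')) ((twE r x y).comp (twE s x' y')) (fun g c => by
    show twHom (kro r s) (single g c) (x, x') (y, y') =
      twHom r (twHom s (single g c) x' y') x y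
    rw [twHom_single, twHom_single, twHom_single, kro_apply]
    congr 1
    push_cast
    ring) a

end phi

end

end Pool.Agent.E14.CP
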