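import Pool.Agent.E14.CP.Sw

/-!
# Swan's argument: the square of a difference of rationally equivalent lattices is zero
-/

namespace Pool.Agent.E14.CP

open H970SH MonoidAlgebra

noncomputable section

section stable

variable {G : Type} [Group G] {T : Type} [Fintype T] [DecidableEq T]

/-- the lattice with basis `e x • x` is stable -/
def Stb (r : G →* Matrix T T ℤ) (e : T → ℕ) : Prop :=
  (∀ x, 0 < e x) ∧ ∀ g x y, (e x : ℤ) ∣ r g x y * e y

/-- the representation on a stable lattice -/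
def cj (r : G →* Matrix T T ℤ) (e : T → ℕ) (h : Stb r e) : G →* Matrix T T ℤ where
  toFun g := Matrix.of fun x y => r g x y * e y / e x
  map_one' := by
    ext x y
    rw [Matrix.of_apply, map_one, Matrix.one_apply]
    have hx : (e x : ℤ) ≠ 0 := by exact_mod_cast (h.1 x).ne'
    split_ifs with hxy
    · subst hxy
      rw [one_mul, Int.ediv_self hx]
    · rw [zero_mul, Int.zero_ediv]
  map_mul' g g' := by
    ext x y
    rw [Matrix.of_apply, map_mul, Matrix.mul_apply, Matrix.mul_apply]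
    have hx : (e x : ℤ) ≠ 0 := by exact_mod_cast (h.1 x).ne'
    apply Int.ediv_eq_of_eq_mul_right hx
    rw [Finset.sum_mul, Finset.mul_sum]
    refine Finset.sum_congr rfl fun z _ => ?_
    rw [Matrix.of_apply, Matrix.of_apply, ← mul_assoc, Int.mul_ediv_cancel' (h.2 g x z), mul_assoc,
      mul_assoc, Int.mul_ediv_cancel' (h.2 g' z y)]

theorem cj_mul (r : G →* Matrix T T ℤ) (e : T → ℕ) (h : Stb r e) (g : G) (x y : T) :
    (e x : ℤ) * cj r e h g x y = r g x y * e y := Int.mul_ediv_cancel' (h.2 g x y)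

theorem cj_eq (r : G →* Matrix T T ℤ) (e : T → ℕ) (h : Stb r e) (s : G →* Matrix T T ℤ)
    (hs : ∀ g x y, (e x : ℤ) * s g x y = r g x y * e y) : cj r e h = s := by
  ext g x y
  have hx : (e x : ℤ) ≠ 0 := by exact_mod_cast (h.1 x).ne'
  apply mul_left_cancel₀ hx
  rw [cj_mul, hs]

theorem Stb.of (r : G →* Matrix T T ℤ) (e : T → ℕ) (he : ∀ x, 0 < e x) (s : G →* Matrix T T ℤ)
    (hs : ∀ g x y, (e x : ℤ) * s g x y = r g x y * e y) : Stb r e :=
  ⟨he, fun g x y => ⟨s g x y, (hs g x y).symm⟩⟩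

theorem Stb.one (r : G →* Matrix T T ℤ) : Stb r (fun _ => 1) :=
  Stb.of r _ (fun _ => one_pos) r (fun g x y => by push_cast; ring)

theorem cj_one (r : G →* Matrix T T ℤ) (h : Stb r (fun _ => 1)) : cj r _ h = r :=
  cj_eq r _ h r (fun g x y => by push_cast; ring)

theorem Stb.const (r : G →* Matrix T T ℤ) (n : ℕ) (hn : 0 < n) : Stb r (fun _ => n) :=
  Stb.of r _ (fun _ => hn) r (fun g x y => by ring)

theorem Stb.gcd {r : G →* Matrix T T ℤ} {e f : T → ℕ} (he : Stb r e) (hf : Stb r f) :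
    Stb r (fun x => Nat.gcd (e x) (f x)) := by
  refine ⟨fun x => Nat.gcd_pos_of_pos_left _ (he.1 x), fun g x y => ?_⟩
  have h1 : ((Nat.gcd (e x) (f x) : ℕ) : ℤ) ∣ r g x y * e y :=
    (Int.natCast_dvd_natCast.2 (Nat.gcd_dvd_left _ _)).trans (he.2 g x y)
  have h2 : ((Nat.gcd (e x) (f x) : ℕ) : ℤ) ∣ r g x y * f y :=
    (Int.natCast_dvd_natCast.2 (Nat.gcd_dvd_right _ _)).trans (hf.2 g x y)
  rw [Nat.gcd_eq_gcd_ab (e y) (f y), mul_add, ← mul_assoc, ← mul_assoc]
  exact dvd_add (h1.mul_right _) (h2.mul_right _)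

theorem Stb.lcm {r : G →* Matrix T T ℤ} {e f : T → ℕ} (he : Stb r e) (hf : Stb r f) :
    Stb r (fun x => Nat.lcm (e x) (f x)) := by
  refine ⟨fun x => Nat.lcm_pos (he.1 x) (hf.1 x), fun g x y => ?_⟩
  rw [Int.natCast_dvd]
  apply Nat.lcm_dvd
  · rw [← Int.natCast_dvd]
    exact (he.2 g x y).trans (mul_dvd_mul_left _ (Int.natCast_dvd_natCast.2 (Nat.dvd_lcm_left _ _)))
  · rw [← Int.natCast_dvd]
    exact (hf.2 g x y).trans (mul_dvd_mul_left _ (Int.natCast_dvd_natCast.2 (Nat.dvd_lcm_right _ _)))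

end stable

section main

variable {k : Type} [CommRing k] {G : Type} [Group G] {T : Type} [Fintype T] [DecidableEq T]

/-- direct sums -/
def dsm {T' : Type} [Fintype T'] [DecidableEq T'] (r : G →* Matrix T T ℤ)
    (s : G →* Matrix T' T' ℤ) : G →* Matrix (T ⊕ T') (T ⊕ T') ℤ where
  toFun g := Matrix.fromBlocks (r g) 0 0 (s g)
  map_one' := by rw [map_one, map_one, Matrix.fromBlocks_one]
  map_mul' g h := by
    rw [map_mul, map_mul, Matrix.fromBlocks_multiply]
    simp

theorem Phi_dsm {T' : Type} [Fintype T'] [DecidableEq T'] (r : G →* Matrix T T ℤ)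
    (s : G →* Matrix T' T' ℤ) (x : K1 (MonoidAlgebra k G)) :
    Phi (dsm r s) x = Phi r x + Phi s x :=
  Phi_tri r s (dsm r s) (fun _ _ _ => rfl) (fun _ _ _ => rfl) (fun _ _ _ => rfl) x

/-- conjugate of a representation -/
def cnj {X Z : Type} [Fintype X] [DecidableEq X] [Fintype Z] [DecidableEq Z]
    (r : G →* Matrix X X ℤ) (U : Matrix X Z ℤ) (U' : Matrix Z X ℤ) (hU : U * U' = 1)
    (hU' : U' * U = 1) : G →* Matrix Z Z ℤ where
  toFun g := U' * r g * U
  map_one' := by rw [map_one, Matrix.mul_one, hU']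
  map_mul' g h := by
    rw [map_mul]
    calc U' * (r g * r h) * U = U' * r g * (1 : Matrix X X ℤ) * r h * U := by
          simp only [Matrix.mul_assoc, Matrix.one_mul]
      _ = U' * r g * U * (U' * r h * U) := by
          rw [← hU]; simp only [Matrix.mul_assoc]

theorem Phi_cnj {X Z : Type} [Fintype X] [DecidableEq X] [Fintype Z] [DecidableEq Z]
    (r : G →* Matrix X X ℤ) (U : Matrix X Z ℤ) (U' : Matrix Z X ℤ) (hU : U * U' = 1)
    (hU' : U' * U = 1) (x : K1 (MonoidAlgebra k G)) : Phi (cnj r U U' hU hU') x = Phi r x := by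
  symm
  apply Phi_conj r (cnj r U U' hU hU') U U' hU hU'
  intro g
  show r g * U = U * (U' * r g * U)
  rw [← Matrix.mul_assoc, ← Matrix.mul_assoc, hU, Matrix.one_mul]

/-- **Sum and intersection of two stable lattices.** -/
theorem Phi_lattice (r : G →* Matrix T T ℤ) (e f : T → ℕ) (he : Stb r e) (hf : Stb r f)
    (x : K1 (MonoidAlgebra k G)) :
    Phi (cj r e he) x + Phi (cj r f hf) x =
      Phi (cj r _ (he.gcd hf)) x + Phi (cj r _ (he.lcm hf)) x := by
  -- the Bézout data
  have hdat : ∀ t, ∃ e' f' a b : ℤ, (e t : ℤ) = Nat.gcd (e t) (f t) * e' ∧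
      (f t : ℤ) = Nat.gcd (e t) (f t) * f' ∧ a * e' + b * f' = 1 ∧
      (Nat.lcm (e t) (f t) : ℤ) = Nat.gcd (e t) (f t) * e' * f' := by
    intro t
    have hg : (Nat.gcd (e t) (f t) : ℤ) ≠ 0 := by
      exact_mod_cast (Nat.gcd_pos_of_pos_left _ (he.1 t)).ne'
    obtain ⟨e', he'⟩ := Nat.gcd_dvd_left (e t) (f t)
    obtain ⟨f', hf'⟩ := Nat.gcd_dvd_right (e t) (f t)
    have h1 : (e t : ℤ) = Nat.gcd (e t) (f t) * e' := by exact_mod_cast he'
    have h2 : (f t : ℤ) = Nat.gcd (e t) (f t) * f' := by exact_mod_cast hf'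
    refine ⟨e', f', Nat.gcdA (e t) (f t), Nat.gcdB (e t) (f t), h1, h2, ?_, ?_⟩
    · have h3 := Nat.gcd_eq_gcd_ab (e t) (f t)
      apply mul_left_cancel₀ hg
      calc (Nat.gcd (e t) (f t) : ℤ) * (Nat.gcdA (e t) (f t) * e' + Nat.gcdB (e t) (f t) * f')
          = (Nat.gcd (e t) (f t) * e') * Nat.gcdA (e t) (f t) +
            (Nat.gcd (e t) (f t) * f') * Nat.gcdB (e t) (f t) := by ring
        _ = (Nat.gcd (e t) (f t) : ℤ) * 1 := by rw [← h1, ← h2, ← h3, mul_one]
    · have h3 := Nat.gcd_mul_lcm (e t) (f t)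
      have h4 : (Nat.gcd (e t) (f t) : ℤ) * Nat.lcm (e t) (f t) = e t * f t := by exact_mod_cast h3
      apply mul_left_cancel₀ hg
      rw [h4]
      calc (e t : ℤ) * f t = (Nat.gcd (e t) (f t) * e') * (Nat.gcd (e t) (f t) * f') := by
            rw [← h1, ← h2]
        _ = _ := by ring
  choose e' f' a b h1 h2 h3 h4 using hdat
  let C : Matrix (T ⊕ T) (T ⊕ T) ℤ := Matrix.fromBlocks (Matrix.diagonal f') (Matrix.diagonal a)
    (Matrix.diagonal fun t => - e' t) (Matrix.diagonal b)
  let C' : Matrix (T ⊕ T) (T ⊕ T) ℤ := Matrix.fromBlocks (Matrix.diagonal b)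
    (Matrix.diagonal fun t => - a t) (Matrix.diagonal e') (Matrix.diagonal f')
  have hC : C * C' = 1 := by
    show Matrix.fromBlocks _ _ _ _ * Matrix.fromBlocks _ _ _ _ = 1
    rw [Matrix.fromBlocks_multiply, ← Matrix.fromBlocks_one]
    simp only [Matrix.diagonal_mul_diagonal, Matrix.diagonal_add]
    congr 1
    · rw [← Matrix.diagonal_one]
      congr 1; funext t; linarith [h3 t]
    · rw [← Matrix.diagonal_zero]
      congr 1; funext t; show f' t * - a t + a t * f' t = 0; ring
    · rw [← Matrix.diagonal_zero]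
      congr 1; funext t; show - e' t * b t + b t * e' t = 0; ring
    · rw [← Matrix.diagonal_one]
      congr 1; funext t; linarith [h3 t]
  have hC' : C' * C = 1 := by
    show Matrix.fromBlocks _ _ _ _ * Matrix.fromBlocks _ _ _ _ = 1
    rw [Matrix.fromBlocks_multiply, ← Matrix.fromBlocks_one]
    simp only [Matrix.diagonal_mul_diagonal, Matrix.diagonal_add]
    congr 1
    · rw [← Matrix.diagonal_one]
      congr 1; funext t; linarith [h3 t]
    · rw [← Matrix.diagonal_zero]
      congr 1; funext t; show b t * a t + - a t * b t = 0; ring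
    · rw [← Matrix.diagonal_zero]
      congr 1; funext t; show e' t * f' t + f' t * - e' t = 0; ring
    · rw [← Matrix.diagonal_one]
      congr 1; funext t; linarith [h3 t]
  rw [← Phi_dsm, ← Phi_cnj (dsm (cj r e he) (cj r f hf)) C C' hC hC', add_comm (Phi (cj r _ (he.gcd hf)) x)]
  have hprod : ∀ g, cnj (dsm (cj r e he) (cj r f hf)) C C' hC hC' g =
      Matrix.fromBlocks
        (Matrix.diagonal b * cj r e he g * Matrix.diagonal f' +
          Matrix.diagonal (fun t => - a t) * cj r f hf g * Matrix.diagonal fun t => - e' t)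
        (Matrix.diagonal b * cj r e he g * Matrix.diagonal a +
          Matrix.diagonal (fun t => - a t) * cj r f hf g * Matrix.diagonal b)
        (Matrix.diagonal e' * cj r e he g * Matrix.diagonal f' +
          Matrix.diagonal f' * cj r f hf g * Matrix.diagonal fun t => - e' t)
        (Matrix.diagonal e' * cj r e he g * Matrix.diagonal a +
          Matrix.diagonal f' * cj r f hf g * Matrix.diagonal b) := by
    intro g
    show C' * Matrix.fromBlocks (cj r e he g) 0 0 (cj r f hf g) * C = _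
    show Matrix.fromBlocks _ _ _ _ * _ * Matrix.fromBlocks _ _ _ _ = _
    rw [Matrix.fromBlocks_multiply, Matrix.fromBlocks_multiply]
    simp only [Matrix.mul_zero, add_zero, zero_add]
  have hd : ∀ (u v : T → ℤ) (M : Matrix T T ℤ) (x y : T),
      (Matrix.diagonal u * M * Matrix.diagonal v) x y = u x * M x y * v y := by
    intro u v M x y
    rw [Matrix.mul_diagonal, Matrix.diagonal_mul]
  have gpos : ∀ t, (Nat.gcd (e t) (f t) : ℤ) ≠ 0 := fun t => by
    exact_mod_cast (Nat.gcd_pos_of_pos_left _ (he.1 t)).ne'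
  have lpos : ∀ t, (Nat.lcm (e t) (f t) : ℤ) ≠ 0 := fun t => by
    exact_mod_cast (Nat.lcm_pos (he.1 t) (hf.1 t)).ne'
  have l1 : ∀ t, (Nat.lcm (e t) (f t) : ℤ) = e t * f' t := fun t => by rw [h4, ← h1]
  have l2 : ∀ t, (Nat.lcm (e t) (f t) : ℤ) = f t * e' t := fun t => by
    rw [h4, mul_right_comm, ← h2]
  apply Phi_tri
  · intro g x y
    rw [hprod, Matrix.fromBlocks_apply₁₁, Matrix.add_apply, hd, hd]
    apply mul_left_cancel₀ (lpos x)
    have q3 := cj_mul r _ (he.lcm hf) g x y
    rw [q3]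
    have q1 := cj_mul r e he g x y
    have q2 := cj_mul r f hf g x y
    generalize cj r e he g x y = A at q1 ⊢
    generalize cj r f hf g x y = B at q2 ⊢
    have s1 : (Nat.lcm (e x) (f x) : ℤ) * (b x * A * f' y) = b x * f' x * (e x * A) * f' y := by
      rw [l1]; ring
    have s2 : (Nat.lcm (e x) (f x) : ℤ) * (-a x * B * -e' y) = a x * e' x * (f x * B) * e' y := by
      rw [l2]; ring
    rw [mul_add, s1, s2, q1, q2]
    have s3 : b x * f' x * (r g x y * (e y : ℤ)) * f' y =
        b x * f' x * r g x y * (Nat.lcm (e y) (f y) : ℤ) := by rw [l1]; ring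
    have s4 : a x * e' x * (r g x y * (f y : ℤ)) * e' y =
        a x * e' x * r g x y * (Nat.lcm (e y) (f y) : ℤ) := by rw [l2]; ring
    rw [s3, s4]
    linear_combination (r g x y * (Nat.lcm (e y) (f y) : ℤ)) * h3 x
  · intro g x y
    rw [hprod, Matrix.fromBlocks_apply₂₁, Matrix.add_apply, hd, hd]
    apply mul_left_cancel₀ (gpos x)
    have q1 := cj_mul r e he g x y
    have q2 := cj_mul r f hf g x y
    generalize cj r e he g x y = A at q1 ⊢
    generalize cj r f hf g x y = B at q2 ⊢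
    have s1 : (Nat.gcd (e x) (f x) : ℤ) * (e' x * A * f' y + f' x * B * -e' y) =
      (Nat.gcd (e x) (f x) * e' x) * A * f' y - (Nat.gcd (e x) (f x) * f' x) * B * e' y := by ring
    rw [s1, ← h1, ← h2, q1, q2, mul_zero, mul_assoc, mul_assoc, ← l1, ← l2, sub_self]
  · intro g x y
    rw [hprod, Matrix.fromBlocks_apply₂₂, Matrix.add_apply, hd, hd]
    apply mul_left_cancel₀ (gpos x)
    have q3 := cj_mul r _ (he.gcd hf) g x y
    rw [q3]
    have q1 := cj_mul r e he g x y
    have q2 := cj_mul r f hf g x y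
    generalize cj r e he g x y = A at q1 ⊢
    generalize cj r f hf g x y = B at q2 ⊢
    have s1 : (Nat.gcd (e x) (f x) : ℤ) * (e' x * A * a y + f' x * B * b y) =
      (Nat.gcd (e x) (f x) * e' x) * A * a y + (Nat.gcd (e x) (f x) * f' x) * B * b y := by ring
    rw [s1, ← h1, ← h2, q1, q2]
    have s2 : (e y : ℤ) * a y + (f y : ℤ) * b y = Nat.gcd (e y) (f y) := by
      conv_lhs => rw [h1 y, h2 y]
      linear_combination (Nat.gcd (e y) (f y) : ℤ) * h3 y
    rw [← s2]
    ring

/-- scaling -/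
theorem cj_scale (r : G →* Matrix T T ℤ) (e : T → ℕ) (he : Stb r e) (n : ℕ)
    (h : Stb r fun x => n * e x) : cj r _ h = cj r e he := by
  apply cj_eq
  intro g x y
  have h1 := cj_mul r e he g x y
  push_cast
  linear_combination (n : ℤ) * h1

theorem cj_cj (r : G →* Matrix T T ℤ) (e f : T → ℕ) (he : Stb r e) (hf : Stb (cj r e he) f)
    (h : Stb r fun x => e x * f x) : cj r _ h = cj (cj r e he) f hf := by
  apply cj_eq
  intro g x y
  have h1 := cj_mul r e he g x y
  have h2 := cj_mul _ f hf g x y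
  push_cast
  linear_combination (e x : ℤ) * h2 + (f y : ℤ) * h1

theorem Phi_eq_of {r s : G →* Matrix T T ℤ} (h : r = s) (x : K1 (MonoidAlgebra k G)) :
    Phi r x = Phi s x := by rw [h]

/-- the difference operator of a stable lattice -/
def Kap (r : G →* Matrix T T ℤ) (e : T → ℕ) (he : Stb r e) (x : K1 (MonoidAlgebra k G)) :
    K1 (MonoidAlgebra k G) := Phi (cj r e he) x - Phi r x

section step

variable {T' : Type} [Fintype T'] [DecidableEq T']

theorem stb_kro (r : G →* Matrix T T ℤ) (s : G →* Matrix T' T' ℤ) (e : T → ℕ) (f : T' → ℕ)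
    (he : Stb r e) (hf : Stb s f) : Stb (kro r s) (fun x => e x.1 * f x.2) :=
  Stb.of _ _ (fun x => Nat.mul_pos (he.1 _) (hf.1 _)) (kro (cj r e he) (cj s f hf))
    (fun g x y => by
      rw [kro_apply, kro_apply]
      have h1 := cj_mul r e he g x.1 y.1
      have h2 := cj_mul s f hf g x.2 y.2
      push_cast
      linear_combination ((f x.2 : ℤ) * cj s f hf g x.2 y.2) * h1 +
        (r g x.1 y.1 * (e y.1 : ℤ)) * h2)

theorem cj_kro (r : G →* Matrix T T ℤ) (s : G →* Matrix T' T' ℤ) (e : T → ℕ) (f : T' → ℕ)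
    (he : Stb r e) (hf : Stb s f) (E : T × T' → ℕ) (hE : Stb (kro r s) E)
    (h : ∀ x, E x = e x.1 * f x.2) : cj (kro r s) E hE = kro (cj r e he) (cj s f hf) := by
  apply cj_eq
  intro g x y
  rw [kro_apply, kro_apply, h, h]
  have h1 := cj_mul r e he g x.1 y.1
  have h2 := cj_mul s f hf g x.2 y.2
  push_cast
  linear_combination ((f x.2 : ℤ) * cj s f hf g x.2 y.2) * h1 +
    (r g x.1 y.1 * (e y.1 : ℤ)) * h2

/-- expansion of the product of two difference operators -/
theorem Kap_Kap (r : G →* Matrix T T ℤ) (s : G →* Matrix T' T' ℤ) (e : T → ℕ) (f : T' → ℕ)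
    (he : Stb r e) (hf : Stb s f) (x : K1 (MonoidAlgebra k G))
    (h : Phi (kro r s) x + Phi (kro (cj r e he) (cj s f hf)) x =
      Phi (kro (cj r e he) s) x + Phi (kro r (cj s f hf)) x) :
    Kap r e he (Kap s f hf x) = 0 := by
  rw [Phi_kro, Phi_kro, Phi_kro, Phi_kro] at h
  unfold Kap
  rw [map_sub, map_sub]
  generalize Phi r (Phi s x) = a at h ⊢
  generalize Phi (cj r e he) (Phi (cj s f hf) x) = b at h ⊢
  generalize Phi (cj r e he) (Phi s x) = c at h ⊢
  generalize Phi r (Phi (cj s f hf) x) = d at h ⊢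
  have h2 : b - c - (d - a) = (a + b) - (c + d) := by abel
  rw [h2, h, sub_self]

omit [Fintype T'] [DecidableEq T'] in
theorem Phi_cj_congr (r : G →* Matrix T T ℤ) {e e' : T → ℕ} (h : ∀ x, e x = e' x)
    (he : Stb r e) (he' : Stb r e') (x : K1 (MonoidAlgebra k G)) :
    Phi (cj r e he) x = Phi (cj r e' he') x := by
  obtain rfl : e = e' := funext h
  rfl

/-- the elementary step -/
theorem Kap_step {p q : ℕ} (hp : p.Prime) (hq : q.Prime) (r : G →* Matrix T T ℤ)
    (s : G →* Matrix T' T' ℤ) (e : T → ℕ) (f : T' → ℕ)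
    (he : Stb r e) (hf : Stb s f) (he' : ∀ x, e x = 1 ∨ e x = p) (hf' : ∀ x, f x = 1 ∨ f x = q)
    (x : K1 (MonoidAlgebra k G)) : Kap r e he (Kap s f hf x) = 0 := by
  apply Kap_Kap
  have hE : Stb (kro r s) (fun x => e x.1) := by
    have := stb_kro r s e (fun _ => 1) he (Stb.one s)
    simpa using this
  have hF : Stb (kro r s) (fun x => f x.2) := by
    have := stb_kro r s (fun _ => 1) f (Stb.one r) hf
    simpa using this
  have hEF : Stb (kro r s) (fun x => e x.1 * f x.2) := stb_kro r s e f he hf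
  have c1 : cj (kro r s) _ hE = kro (cj r e he) s := by
    rw [cj_kro r s e (fun _ => 1) he (Stb.one s) _ hE (fun x => (mul_one _).symm), cj_one]
  have c2 : cj (kro r s) _ hF = kro r (cj s f hf) := by
    rw [cj_kro r s (fun _ => 1) f (Stb.one r) hf _ hF (fun x => (one_mul _).symm), cj_one]
  have c3 : cj (kro r s) _ hEF = kro (cj r e he) (cj s f hf) :=
    cj_kro r s e f he hf _ hEF (fun x => rfl)
  rw [← c1, ← c2, ← c3]
  generalize kro r s = t at hE hF hEF ⊢
  rw [Phi_lattice t _ _ hE hF]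
  by_cases hpq : p = q
  · subst hpq
    have h1 := Phi_lattice t _ _ hEF (Stb.const t p hp.pos) x
    have h2 : Phi (cj t (fun _ => p) (Stb.const t p hp.pos)) x = Phi t x := by
      apply Phi_eq_of
      have h3 := cj_scale t (fun _ => 1) (Stb.one t) p
        (by have := Stb.const t p hp.pos; simpa using this)
      rw [cj_one] at h3
      rw [← h3]
      congr 1
      funext _
      rw [mul_one]
    rw [h2] at h1
    rw [add_comm (Phi t x), h1, add_comm]
    have k1 : Phi (cj t _ (hE.lcm hF)) x = Phi (cj t _ (hEF.gcd (Stb.const t p hp.pos))) x := by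
      apply Phi_cj_congr
      intro z
      show Nat.lcm (e z.1) (f z.2) = Nat.gcd (e z.1 * f z.2) p
      rcases he' z.1 with h3 | h3 <;> rcases hf' z.2 with h4 | h4 <;> rw [h3, h4]
      · simp
      · simp
      · simp
      · rw [Nat.lcm_self, Nat.gcd_eq_right (Dvd.intro _ rfl)]
    have k2 : Phi (cj t _ (hE.gcd hF)) x =
        Phi (cj t _ (hEF.lcm (Stb.const t p hp.pos))) x := by
      have hs : Stb t (fun z => p * Nat.gcd (e z.1) (f z.2)) := by
        refine ⟨fun z => Nat.mul_pos hp.pos ((hE.gcd hF).1 z), fun g a b => ?_⟩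
        have := (hE.gcd hF).2 g a b
        push_cast
        have h5 := mul_dvd_mul_left (p : ℤ) this
        refine h5.trans (dvd_of_eq ?_)
        push_cast
        ring
      rw [Phi_eq_of (cj_scale t _ (hE.gcd hF) p hs).symm x]
      apply Phi_cj_congr
      intro z
      show p * Nat.gcd (e z.1) (f z.2) = Nat.lcm (e z.1 * f z.2) p
      rcases he' z.1 with h3 | h3 <;> rcases hf' z.2 with h4 | h4 <;> rw [h3, h4]
      · simp
      · simp
      · simp
      · rw [Nat.gcd_self, Nat.lcm_eq_left (Dvd.intro _ rfl)]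
    rw [k1, k2]
  · have hco : Nat.Coprime p q := (Nat.coprime_primes hp hq).2 hpq
    have hco2 : ∀ z : T × T', Nat.Coprime (e z.1) (f z.2) := by
      intro z
      rcases he' z.1 with h3 | h3 <;> rcases hf' z.2 with h4 | h4 <;> rw [h3, h4]
      · simp
      · simp
      · simp
      · exact hco
    have k1 : Phi (cj t _ (hE.gcd hF)) x = Phi t x := by
      rw [← Phi_eq_of (cj_one t (Stb.one t)) x]
      exact Phi_cj_congr t (fun z => hco2 z) _ _ x
    have k2 : Phi (cj t _ (hE.lcm hF)) x = Phi (cj t _ hEF) x :=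
      Phi_cj_congr t (fun z => (hco2 z).lcm_eq_mul) _ _ x
    rw [k1, k2]

end step

theorem Kap_add (r : G →* Matrix T T ℤ) (e : T → ℕ) (he : Stb r e)
    (x y : K1 (MonoidAlgebra k G)) : Kap r e he (x + y) = Kap r e he x + Kap r e he y := by
  unfold Kap
  rw [map_add, map_add]
  abel

theorem Kap_zero (r : G →* Matrix T T ℤ) (e : T → ℕ) (he : Stb r e) :
    Kap r e he (0 : K1 (MonoidAlgebra k G)) = 0 := by
  unfold Kap
  rw [map_zero, map_zero, sub_zero]

theorem Stb.cj {r : G →* Matrix T T ℤ} {e f : T → ℕ} (he : Stb r e) (hf : ∀ x, 0 < f x)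
    (h : Stb r fun x => e x * f x) : Stb (cj r e he) f := by
  refine ⟨hf, fun g x y => ?_⟩
  have h1 := h.2 g x y
  have h2 := cj_mul r e he g x y
  have h3 : (e x : ℤ) ≠ 0 := by exact_mod_cast (he.1 x).ne'
  push_cast at h1
  have h4 : r g x y * ((e y : ℤ) * f y) = e x * (E14.CP.cj r e he g x y * f y) := by
    linear_combination (- (f y : ℤ)) * h2
  rw [h4] at h1
  exact (mul_dvd_mul_iff_left h3).1 h1

/-- the chain of lattices -/
theorem gcd_step (a c p : ℕ) (hp : p.Prime) (ha : 0 < a) :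
    ∃ t, Nat.gcd a (p * c) = Nat.gcd a c * t ∧ (t = 1 ∨ t = p) := by
  obtain ⟨t, ht⟩ : Nat.gcd a c ∣ Nat.gcd a (p * c) :=
    Nat.gcd_dvd_gcd_of_dvd_right a (Dvd.intro_left p rfl)
  refine ⟨t, ht, ?_⟩
  have h1 : Nat.gcd a (p * c) ∣ p * Nat.gcd a c := by
    rw [← Nat.gcd_mul_left]
    exact Nat.dvd_gcd ((Nat.gcd_dvd_left _ _).trans (Dvd.intro_left p rfl)) (Nat.gcd_dvd_right _ _)
  rw [ht, mul_comm p] at h1
  have h2 : t ∣ p := (Nat.mul_dvd_mul_iff_left (Nat.gcd_pos_of_pos_left _ ha)).1 h1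
  exact (Nat.dvd_prime hp).1 h2

/-- reduction to the elementary steps -/
theorem Kap_chain (r : G →* Matrix T T ℤ) (e : T → ℕ) (he : Stb r e)
    (P : K1 (MonoidAlgebra k G) → Prop) (hP0 : P 0) (hPa : ∀ x y, P x → P y → P (x + y))
    (x : K1 (MonoidAlgebra k G))
    (hP : ∀ (r' : G →* Matrix T T ℤ) (p : ℕ) (f : T → ℕ) (hf : Stb r' f), p.Prime →
      (∀ x, f x = 1 ∨ f x = p) → P (Kap r' f hf x)) : P (Kap r e he x) := by
  have key : ∀ c : ℕ, ∀ hc : 0 < c, P (Kap r _ (he.gcd (Stb.const r c hc)) x) := by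
    intro c
    induction c using induction_on_primes with
    | zero => intro hc; exact absurd hc (lt_irrefl 0)
    | one =>
      intro hc
      have h1 : Kap r _ (he.gcd (Stb.const r 1 hc)) x = 0 := by
        unfold Kap
        rw [Phi_cj_congr r (fun z => Nat.gcd_one_right (e z)) _ (Stb.one r), cj_one, sub_self]
      rw [h1]
      exact hP0
    | prime_mul p c hp ih =>
      intro hc
      have hc' : 0 < c := Nat.pos_of_mul_pos_left hc
      choose t ht ht' using fun z => gcd_step (e z) c p hp (he.1 z)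
      have hg := he.gcd (Stb.const r c hc')
      have hg2 := he.gcd (Stb.const r (p * c) hc)
      have ht0 : ∀ z, 0 < t z := fun z => by
        rcases ht' z with h | h <;> rw [h]
        · exact one_pos
        · exact hp.pos
      have hst : Stb r (fun z => Nat.gcd (e z) c * t z) := by
        have h1 : (fun z => Nat.gcd (e z) c * t z) = fun z => Nat.gcd (e z) (p * c) :=
          funext fun z => (ht z).symm
        rw [h1]
        exact hg2
      have hst2 : Stb (cj r _ hg) t := Stb.cj hg ht0 hst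
      have h2 : Kap r _ hg2 x = Kap (cj r _ hg) t hst2 x + Kap r _ hg x := by
        unfold Kap
        rw [← cj_cj r _ t hg hst2 hst, Phi_cj_congr r ht hg2 hst]
        abel
      show P (Kap r _ hg2 x)
      rw [h2]
      exact hPa _ _ (hP _ p t hst2 hp ht') (ih hc')
  have hc : 0 < ∏ z, e z := Finset.prod_pos fun z _ => he.1 z
  have h1 := key _ hc
  have h2 : Kap r _ (he.gcd (Stb.const r _ hc)) x = Kap r e he x := by
    unfold Kap
    rw [Phi_cj_congr r (fun z => Nat.gcd_eq_left (Finset.dvd_prod_of_mem e (Finset.mem_univ z)))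
      _ he]
  rwa [h2] at h1

/-- **Swan.** -/
theorem Kap_mul_zero {T' : Type} [Fintype T'] [DecidableEq T'] (r : G →* Matrix T T ℤ)
    (s : G →* Matrix T' T' ℤ) (e : T → ℕ) (f : T' → ℕ) (he : Stb r e) (hf : Stb s f)
    (x : K1 (MonoidAlgebra k G)) : Kap r e he (Kap s f hf x) = 0 := by
  refine Kap_chain r e he (fun y => y = 0) rfl (fun x y hx hy => by
    rw [hx, hy, add_zero]) (Kap s f hf x) ?_
  intro r' p t ht hp ht'
  exact Kap_chain s f hf (fun y => Kap r' t ht y = 0) (Kap_zero r' t ht)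
    (fun x y hx hy => by rw [Kap_add, hx, hy, add_zero]) x
    (fun s' q u hu hq hu' => Kap_step hp hq r' s' t u ht hu ht' hu' x)

end main

end

end Pool.Agent.E14.CP
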