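import Pool.Agent.E14.CP.Comb

/-!
# Enough split thickenings
-/

open Matrix

namespace Pool.Agent.E14.CP

open MonoidAlgebra

noncomputable section

/-- a homomorphism to a split nilpotent thickening -/
structure Tn (A : Type) [CommRing A] where
  B : Type
  cB : CommRing B
  aB : Algebra ℚ B
  mB : Finite (MaximalSpectrum B)
  P : Spl B
  f : A →+* B

attribute [instance] Tn.cB Tn.aB Tn.mB

section ex

variable {A : Type} [CommRing A]

theorem exists_rat {L : Type} [CommRing L] (h : ∀ n : ℤ, n ≠ 0 → IsUnit (n : L)) :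
    Nonempty (ℚ →+* L) := by
  refine ⟨IsLocalization.lift (M := nonZeroDivisors ℤ) (S := ℚ) (g := Int.castRingHom L) ?_⟩
  rintro ⟨n, hn⟩
  exact h n (nonZeroDivisors.ne_zero hn)

theorem exists_spl {L : Type} [CommRing L] [IsLocalRing L] [Algebra ℚ L]
    (hL : Algebra.EssFiniteType ℤ L) (n : ℕ) :
    ∃ P : Spl (L ⧸ IsLocalRing.maximalIdeal L ^ (n + 1)),
      ∀ x ∈ IsLocalRing.maximalIdeal L, P.σ (Ideal.Quotient.mk _ x) = 0 := by
  set m := IsLocalRing.maximalIdeal L with hm
  have h1 : Algebra.EssFiniteType L (IsLocalRing.ResidueField L) := by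
    have : Algebra.FiniteType L (IsLocalRing.ResidueField L) :=
      Algebra.FiniteType.of_surjective (Algebra.ofId L (IsLocalRing.ResidueField L))
        (IsLocalRing.residue_surjective)
    infer_instance
  have h2 : Algebra.EssFiniteType ℤ (IsLocalRing.ResidueField L) :=
    Algebra.EssFiniteType.comp ℤ L (IsLocalRing.ResidueField L)
  have h3 : Algebra.EssFiniteType ℚ (IsLocalRing.ResidueField L) :=
    Algebra.EssFiniteType.of_comp ℤ ℚ (IsLocalRing.ResidueField L)
  have h4 : Algebra.FormallySmooth ℚ (IsLocalRing.ResidueField L) :=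
    Algebra.FormallySmooth.of_perfectField
  let g : (L ⧸ m ^ (n + 1)) →ₐ[ℚ] IsLocalRing.ResidueField L :=
    Ideal.Quotient.liftₐ (m ^ (n + 1)) (IsScalarTower.toAlgHom ℚ L (IsLocalRing.ResidueField L))
      (by
        intro a ha
        have h5 : a ∈ m := Ideal.pow_le_self (Nat.succ_ne_zero n) ha
        exact (IsLocalRing.residue_eq_zero_iff a).2 h5)
  have hg1 : ∀ x : L, g (Ideal.Quotient.mk _ x) = IsLocalRing.residue L x := fun x => rfl
  have hg : Function.Surjective g := by
    intro y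
    obtain ⟨x, rfl⟩ := IsLocalRing.residue_surjective y
    exact ⟨Ideal.Quotient.mk _ x, rfl⟩
  have hk : ∀ x, g x = 0 → ∃ a ∈ m, x = Ideal.Quotient.mk _ a := by
    intro x hx
    obtain ⟨a, rfl⟩ := Ideal.Quotient.mk_surjective x
    rw [hg1] at hx
    exact ⟨a, (IsLocalRing.residue_eq_zero_iff a).1 hx, rfl⟩
  have hn : RingHom.ker (g : (L ⧸ m ^ (n + 1)) →+* IsLocalRing.ResidueField L) ^ (n + 1) = ⊥ := by
    have h5 : RingHom.ker (g : (L ⧸ m ^ (n + 1)) →+* IsLocalRing.ResidueField L) ≤
        m.map (Ideal.Quotient.mk (m ^ (n + 1))) := by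
      intro x hx
      obtain ⟨a, ha, rfl⟩ := hk x hx
      exact Ideal.mem_map_of_mem _ ha
    rw [eq_bot_iff]
    refine (Ideal.pow_right_mono h5 (n + 1)).trans ?_
    rw [← Ideal.map_pow, Ideal.map_quotient_self]
  let s := Algebra.FormallySmooth.liftOfSurjective (AlgHom.id ℚ (IsLocalRing.ResidueField L)) g hg
    ⟨n + 1, hn⟩
  have hs : ∀ y, g (s y) = y := fun y =>
    Algebra.FormallySmooth.liftOfSurjective_apply (AlgHom.id ℚ (IsLocalRing.ResidueField L)) g hg
      ⟨n + 1, hn⟩ y
  refine ⟨⟨(s : IsLocalRing.ResidueField L →+* (L ⧸ m ^ (n + 1))).comp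
    (g : (L ⧸ m ^ (n + 1)) →+* IsLocalRing.ResidueField L), ?_, n + 1, ?_⟩, ?_⟩
  · intro x
    show s (g (s (g x))) = s (g x)
    rw [hs]
  · have h5 : RingHom.ker ((s : IsLocalRing.ResidueField L →+* (L ⧸ m ^ (n + 1))).comp
        (g : (L ⧸ m ^ (n + 1)) →+* IsLocalRing.ResidueField L)) =
        RingHom.ker (g : (L ⧸ m ^ (n + 1)) →+* IsLocalRing.ResidueField L) := by
      ext x
      rw [RingHom.mem_ker, RingHom.mem_ker]
      show s (g x) = 0 ↔ g x = 0
      constructor
      · intro h
        rw [← hs (g x), h, map_zero]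
      · intro h
        rw [h, map_zero]
    rw [h5, hn]
  · intro x hx
    show s (g (Ideal.Quotient.mk _ x)) = 0
    rw [hg1, (IsLocalRing.residue_eq_zero_iff x).2 hx, map_zero]

theorem exists_tn [Algebra.FiniteType ℤ A] (P : Ideal A) [hp : P.IsPrime]
    (hP : CharZero (A ⧸ P)) (n : ℕ) :
    ∃ D : Tn A, (∀ a ∈ P, D.P.σ (D.f a) = 0) ∧ (∀ a, D.f a = 0 →
      algebraMap A (Localization.AtPrime P) a ∈
        IsLocalRing.maximalIdeal (Localization.AtPrime P) ^ (n + 1)) := by
  have h1 : ∀ n : ℤ, n ≠ 0 → IsUnit (n : Localization.AtPrime P) := by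
    intro n hn
    have h2 : IsUnit (algebraMap A (Localization.AtPrime P) (n : A)) := by
      rw [IsLocalization.AtPrime.isUnit_to_map_iff (Localization.AtPrime P) P]
      intro h3
      have h4 := Ideal.Quotient.eq_zero_iff_mem.2 h3
      rw [map_intCast] at h4
      exact hn (Int.cast_eq_zero.1 h4)
    rwa [map_intCast] at h2
  obtain ⟨ρ⟩ := exists_rat h1
  let _ : Algebra ℚ (Localization.AtPrime P) := ρ.toAlgebra
  have h2 : Algebra.EssFiniteType ℤ (Localization.AtPrime P) :=
    Algebra.EssFiniteType.comp ℤ A (Localization.AtPrime P)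
  have h2' : @Algebra.EssFiniteType ℤ (Localization.AtPrime P) _ _ (Ring.toIntAlgebra _) := by
    convert h2
    exact Subsingleton.elim _ _
  obtain ⟨S, hS⟩ := exists_spl h2' n
  have hnt : Nontrivial (Localization.AtPrime P ⧸
      IsLocalRing.maximalIdeal (Localization.AtPrime P) ^ (n + 1)) := by
    apply Ideal.Quotient.nontrivial_iff.2
    intro h
    have h3 := Ideal.pow_le_self (I := IsLocalRing.maximalIdeal (Localization.AtPrime P))
      (Nat.succ_ne_zero n)
    rw [h, top_le_iff] at h3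
    exact (IsLocalRing.maximalIdeal.isMaximal _).ne_top h3
  have hloc : IsLocalRing (Localization.AtPrime P ⧸
      IsLocalRing.maximalIdeal (Localization.AtPrime P) ^ (n + 1)) :=
    IsLocalRing.of_surjective' (Ideal.Quotient.mk _) Ideal.Quotient.mk_surjective
  refine ⟨⟨_, inferInstance, inferInstance, inferInstance, S, (Ideal.Quotient.mk _).comp
    (algebraMap A (Localization.AtPrime P))⟩, ?_, ?_⟩
  · intro a ha
    apply hS
    exact (IsLocalization.AtPrime.to_map_mem_maximal_iff (Localization.AtPrime P) P a).2 ha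
  · intro a ha
    exact Ideal.Quotient.eq_zero_iff_mem.1 ha

theorem tors_of_loc [IsNoetherianRing A] (x : A)
    (hx : ∀ (P : Ideal A) [P.IsPrime], CharZero (A ⧸ P) → ∀ n : ℕ,
      algebraMap A (Localization.AtPrime P) x ∈
        IsLocalRing.maximalIdeal (Localization.AtPrime P) ^ (n + 1)) :
    ∃ m : ℕ, 0 < m ∧ (m : A) * x = 0 := by
  by_contra hcon
  push Not at hcon
  let S : Submonoid A := (nonZeroDivisors ℤ).map (Int.castRingHom A)
  let J : Ideal A := Ideal.span {x} |>.annihilator
  have hJ : ∀ a, a ∈ J ↔ a * x = 0 := fun a => by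
    rw [Submodule.mem_annihilator_span_singleton, smul_eq_mul]
  have hd : Disjoint (J : Set A) (S : Set A) := by
    rw [Set.disjoint_left]
    rintro a ha ⟨n, hn, rfl⟩
    have hn0 : n ≠ 0 := nonZeroDivisors.ne_zero hn
    have h1 := (hJ _).1 ha
    apply hcon n.natAbs (Int.natAbs_pos.2 hn0)
    rw [eq_intCast] at h1
    rcases Int.natAbs_eq n with h2 | h2
    · rw [h2, Int.cast_natCast] at h1
      exact h1
    · rw [h2, Int.cast_neg, Int.cast_natCast, neg_mul, neg_eq_zero] at h1
      exact h1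
  obtain ⟨P, hP, hJP, hPS⟩ := Ideal.exists_le_prime_disjoint J S hd
  have hc : CharZero (A ⧸ P) := by
    apply charZero_of_inj_zero
    intro n hn
    by_contra hn0
    have h1 : ((n : ℤ) : A) ∈ P := by
      apply Ideal.Quotient.eq_zero_iff_mem.1
      rw [map_intCast, Int.cast_natCast]
      exact hn
    exact (Set.disjoint_left.1 hPS) h1 ⟨(n : ℤ), mem_nonZeroDivisors_of_ne_zero
      (by exact_mod_cast hn0), rfl⟩
  have h2 : algebraMap A (Localization.AtPrime P) x ≠ 0 := by
    intro h3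
    obtain ⟨⟨s, hs⟩, h4⟩ := (IsLocalization.map_eq_zero_iff P.primeCompl _ x).1 h3
    exact hs (hJP ((hJ s).2 h4))
  have hN : IsNoetherianRing (Localization.AtPrime P) :=
    IsLocalization.isNoetherianRing P.primeCompl _ inferInstance
  have h3 := Ideal.iInf_pow_eq_bot_of_isLocalRing
    (IsLocalRing.maximalIdeal (Localization.AtPrime P)) (IsLocalRing.maximalIdeal.isMaximal _).ne_top
  apply h2
  rw [← Ideal.mem_bot, ← h3, Ideal.mem_iInf]
  intro n
  exact Ideal.pow_le_pow_right (Nat.le_succ n) (hx P hc n)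

end ex

end

end Pool.Agent.E14.CP
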