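import Pool.Agent.E14.CP.Lau
import Pool.Agent.Y69.Tra
import Pool.Agent.Y69.TK.Dsc

/-!
# The residue traces on `K₁` of a group ring over Laurent series
-/

open Matrix

namespace Pool.Agent.E14.CP

open H970SH MonoidAlgebra Pool.Agent.Y490.SL Pool.Agent.Y69 Pool.Agent.Y69.Tra
open H842 hiding ps psHom ps_of ps_th

noncomputable section

/-- a nilpotent extension of `K` with a derivation and a trace which lift to torsion-free data -/
structure Thk (K Λ : Type) [CommRing K] [AddCommGroup Λ] where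
  /-- the nilpotent extension -/
  S : Type
  rS : CommRing S
  /-- the lift -/
  T : Type
  rT : CommRing T
  /-- the torsion-free values -/
  M : Type
  gM : AddCommGroup M
  D : DT S Λ
  DH : DT T M
  F : DT.Hom DH D
  hF : Function.Surjective F.f
  hM : ∀ (n : ℕ) (x : M), (n + 1) • x = 0 → x = 0
  /-- the reduction -/
  π : S →+* K
  hπ : Function.Surjective π
  hN : ∃ N : ℕ, RingHom.ker π ^ N = ⊥

attribute [instance] Thk.rS Thk.rT Thk.gM

variable {K Λ : Type} [CommRing K] [AddCommGroup Λ] (X : Thk K Λ)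

/-- the reduction on group rings -/
def pG (G : Type) [Group G] : MonoidAlgebra X.S G →+* MonoidAlgebra K G := mapRingHom G X.π

theorem pG_surjective (G : Type) [Group G] : Function.Surjective (pG X G) :=
  MonoidAlgebra.map_surjective (X.π : X.S →+ K) X.hπ

theorem pG_nil (G : Type) [Group G] : NilKer (pG X G) :=
  nilKer_monoidAlgebra X.π X.hN G

section

variable {G : Type} [Group G] (h : G → ℤ) (hh : ∀ x y, h (x * y) = h (y * x))

/-- the data -/
abbrev DD : DT (MonoidAlgebra X.S G) Λ := DTG X.D h hh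

theorem DD_uni (ι : Type) [Fintype ι] [DecidableEq ι]
    (M : (Matrix ι ι (MonoidAlgebra X.S G))ˣ)
    (hM : mapUnit (pG X G) M = 1) : (DD X h hh).L (cl M) = 0 := by
  rw [DT.L_cl]
  have hsur : Function.Surjective ((homG X.F h hh).mat ι).f := by
    intro N
    have h1 : Function.Surjective (homG (G := G) X.F h hh).f :=
      MonoidAlgebra.map_surjective (X.F.f : X.T →+ X.S) X.hF
    choose g hg using h1
    refine ⟨N.map g, ?_⟩
    ext i j : 1
    exact hg (N i j)
  apply DT.logd_uni ((homG X.F h hh).mat ι) hsur X.hM M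
  apply nilKer_ι (pG_nil X G)
  have h2 := congrArg Units.val hM
  rw [mapUnit_val] at h2
  have h3 : ((M : Matrix ι ι (MonoidAlgebra X.S G)) - 1).map (pG X G) =
      (M : Matrix ι ι (MonoidAlgebra X.S G)).map (pG X G) -
        (1 : Matrix ι ι (MonoidAlgebra X.S G)).map (pG X G) :=
    Matrix.map_sub _ (map_sub _) _ _
  rw [h3, h2, Matrix.map_one _ (map_zero _) (map_one _), Units.val_one, sub_self]

theorem exists_TG : ∃ T : K1 (MonoidAlgebra K G) →+ Λ,
    ∀ (ι : Type) [Fintype ι] [DecidableEq ι] (M : (Matrix ι ι (MonoidAlgebra X.S G))ˣ),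
      T (cl (mapUnit (pG X G) M)) = ((DD X h hh).mat ι).logd M := by
  obtain ⟨T, hT⟩ := exists_desc (pG_surjective X G) (pG_nil X G) (DD X h hh).L
    (DD_uni X h hh)
  refine ⟨T, fun ι _ _ M => ?_⟩
  rw [hT, DT.L_cl]

/-- **The residue trace.** -/
def TG : K1 (MonoidAlgebra K G) →+ Λ := (exists_TG X h hh).choose

theorem TG_lift {ι : Type} [Fintype ι] [DecidableEq ι] (M : (Matrix ι ι (MonoidAlgebra X.S G))ˣ) :
    TG X h hh (cl (mapUnit (pG X G) M)) = ((DD X h hh).mat ι).logd M :=
  (exists_TG X h hh).choose_spec ι M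

theorem exists_lift (x : K1 (MonoidAlgebra K G)) :
    ∃ (m : ℕ) (M : (Matrix (Fin m) (Fin m) (MonoidAlgebra X.S G))ˣ),
      x = cl (mapUnit (pG X G) M) := by
  obtain ⟨m, M, rfl⟩ := K1_exists x
  obtain ⟨M', rfl⟩ := lift_unit (pG_surjective X G) (pG_nil X G) M
  exact ⟨m, M', rfl⟩

theorem TG_map {H : Type} [Group H] (φ : H →* G) (x : K1 (MonoidAlgebra K H)) :
    TG X h hh (K1map (mapDomainRingHom K φ) x) =
      TG X (fun x => h (φ x)) (fun x y => by rw [map_mul, map_mul, hh]) x := by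
  obtain ⟨m, M, rfl⟩ := exists_lift X x
  rw [TG_lift, K1map_cl]
  have h1 : mapUnit (mapDomainRingHom K φ) (mapUnit (pG X H) M) =
      mapUnit (pG X G) (mapUnit (mapDomainRingHom X.S φ) M) := by
    rw [TK.Dsc.mapUnit_mapUnit, TK.Dsc.mapUnit_mapUnit]
    congr 1
    exact (TK.Dsc.mapRing_mapDomain X.π φ).symm
  rw [h1, TG_lift]
  exact DT.Hom.logd ((homφ X.D φ h hh).mat (Fin m)) M

theorem tau_congr {S Λ : Type} [CommRing S] [AddCommGroup Λ] (t : S →+ Λ) {h h' : G → ℤ}
    (e : ∀ g, h g = h' g) : tau t h = tau t h' := by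
  have : h = h' := funext e
  rw [this]

theorem tau_zero {S Λ : Type} [CommRing S] [AddCommGroup Λ] (t : S →+ Λ) {h : G → ℤ}
    (h0 : ∀ g, h g = 0) (y : MonoidAlgebra S G) : tau t h y = 0 := by
  induction y using MonoidAlgebra.induction_linear with
  | zero => exact map_zero _
  | add a b ha hb => rw [map_add, ha, hb, add_zero]
  | single g s => rw [tau_single, h0, zero_smul]

theorem TG_zero (h0 : ∀ g, h g = 0) (x : K1 (MonoidAlgebra K G)) :
    TG X h hh x = 0 := by
  obtain ⟨m, M, rfl⟩ := exists_lift X x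
  rw [TG_lift]
  unfold DT.logd
  rw [DT.mat_t]
  refine Finset.sum_eq_zero fun i _ => ?_
  rw [DTG_t, tau_zero _ h0]

theorem TG_congr {h' : G → ℤ} (hh' : ∀ x y, h' (x * y) = h' (y * x)) (e : ∀ g, h g = h' g)
    (x : K1 (MonoidAlgebra K G)) : TG X h hh x = TG X h' hh' x := by
  have : h = h' := funext e
  subst this
  rfl

end

/-! ### abelian groups -/

section comm

variable {C : Type} [CommGroup C]

/-- the traces of abelian groups -/
def TC (h : C → ℤ) : K1 (MonoidAlgebra K C) →+ Λ :=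
  TG X h (fun x y => by rw [mul_comm])

/-- the trace datum -/
abbrev DC (h : C → ℤ) : DT (MonoidAlgebra X.S C) (Λ) :=
  DD X h (fun x y => by rw [mul_comm])

theorem TC_lift (h : C → ℤ) {ι : Type} [Fintype ι] [DecidableEq ι]
    (M : (Matrix ι ι (MonoidAlgebra X.S C))ˣ) :
    TC X h (cl (mapUnit (pG X C) M)) = ((DC X h).mat ι).logd M :=
  TG_lift X h _ M

theorem detU_map {R S : Type} [CommRing R] [CommRing S] (f : R →+* S) {ι : Type} [Fintype ι]
    [DecidableEq ι] (M : (Matrix ι ι R)ˣ) :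
    DT.detU (mapUnit f M) = Units.map (f : R →* S) (DT.detU M) := by
  apply Units.ext
  show ((mapUnit f M : (Matrix ι ι S)ˣ) : Matrix ι ι S).det = f (M : Matrix ι ι R).det
  rw [RingHom.map_det, mapUnit_val]
  rfl

theorem TC_det (h : C → ℤ) {ι : Type} [Fintype ι] [DecidableEq ι]
    (M : (Matrix ι ι (MonoidAlgebra K C))ˣ) :
    TC X h (cl M) = TC X h (cl (unit1 (DT.detU M))) := by
  obtain ⟨M', rfl⟩ := lift_unit (pG_surjective X C) (pG_nil X C) M
  rw [TC_lift, DT.logd_det, ← DT.logd_unit1, ← TC_lift, detU_map, TK.Dsc.mapUnit_unit1]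

/-- lifting of units -/
theorem exists_unit_lift (v : (MonoidAlgebra K C)ˣ) :
    ∃ w : (MonoidAlgebra X.S C)ˣ,
      Units.map (pG X C : MonoidAlgebra X.S C →*
        MonoidAlgebra K C) w = v := by
  obtain ⟨M', hM⟩ := lift_unit (pG_surjective X C) (pG_nil X C) (unit1 v)
  refine ⟨DT.detU M', ?_⟩
  rw [← detU_map, hM]
  apply Units.ext
  show (Matrix.of fun _ _ => (v : MonoidAlgebra K C) :
    Matrix Unit Unit (MonoidAlgebra K C)).det = _
  rw [Matrix.det_unique]
  rfl

theorem TC_unit (h : C → ℤ) (w : (MonoidAlgebra X.S C)ˣ) :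
    TC X h (cl (unit1 (Units.map (pG X C : MonoidAlgebra X.S C →*
        MonoidAlgebra K C) w))) = (DC X h).logd w := by
  rw [← TK.Dsc.mapUnit_unit1, TC_lift, DT.logd_unit1]

/-- the indicator function -/
def dlt (c : C) : C → ℤ := by
  classical
  exact fun x => if x = c then 1 else 0

theorem dlt_self (c : C) : dlt c c = 1 := by
  unfold dlt
  rw [if_pos rfl]

theorem dlt_ne {c x : C} (h : x ≠ c) : dlt c x = 0 := by
  unfold dlt
  rw [if_neg h]

theorem tau_dlt {S Λ : Type} [CommRing S] [AddCommGroup Λ] (t : S →+ Λ) (c : C)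
    (x : MonoidAlgebra S C) : tau t (dlt c) x = t (x.coeff c) := by
  induction x using MonoidAlgebra.induction_linear with
  | zero => simp
  | add a b ha hb => rw [map_add, ha, hb, coeff_add, Finsupp.add_apply, map_add]
  | single g s =>
    rw [tau_single, coeff_single]
    by_cases h : g = c
    · subst h
      rw [dlt_self, one_smul, Finsupp.single_eq_same]
    · rw [dlt_ne h, zero_smul, Finsupp.single_eq_of_ne' h, map_zero]

theorem tau_sum {S Λ : Type} [CommRing S] [AddCommGroup Λ] (t : S →+ Λ) [Fintype C] (h : C → ℤ)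
    (x : MonoidAlgebra S C) : tau t h x = ∑ c, h c • tau t (dlt c) x := by
  induction x using MonoidAlgebra.induction_linear with
  | zero => simp
  | add a b ha hb =>
    rw [map_add, ha, hb, ← Finset.sum_add_distrib]
    refine Finset.sum_congr rfl fun c _ => ?_
    rw [map_add, smul_add]
  | single g s =>
    rw [Finset.sum_eq_single g]
    · rw [tau_single, tau_single, dlt_self, one_smul]
    · intro c _ hc
      rw [tau_single, dlt_ne (Ne.symm hc), zero_smul, smul_zero]
    · intro h; exact absurd (Finset.mem_univ _) h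

/-- the character function of a unit -/
def bt (v : (MonoidAlgebra K C)ˣ) (c : C) : Λ :=
  TC X (dlt c) (cl (unit1 v))

theorem bt_lift (w : (MonoidAlgebra X.S C)ˣ) (c : C) :
    bt X (Units.map (pG X C : MonoidAlgebra X.S C →*
        MonoidAlgebra K C) w) c =
      X.D.t ((((w⁻¹ : (MonoidAlgebra X.S C)ˣ) :
        MonoidAlgebra X.S C) * cw X.D.d
          (w : MonoidAlgebra X.S C)).coeff c) := by
  unfold bt
  rw [TC_unit]
  unfold DT.logd
  rw [DTG_t, tau_dlt]
  rfl

theorem TC_sum [Fintype C] (h : C → ℤ) (v : (MonoidAlgebra K C)ˣ) :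
    TC X h (cl (unit1 v)) = ∑ c, h c • bt X v c := by
  obtain ⟨w, rfl⟩ := exists_unit_lift X v
  rw [TC_unit]
  unfold DT.logd
  rw [DTG_t, tau_sum]
  refine Finset.sum_congr rfl fun c _ => ?_
  rw [bt_lift, tau_dlt]
  rfl

theorem bt_mul (v w : (MonoidAlgebra K C)ˣ) (c : C) :
    bt X (v * w) c = bt X v c + bt X w c := by
  unfold bt
  rw [Main.unit1_mul', cl_mul, map_add]

theorem bt_map {D : Type} [CommGroup D] (f : C →* D) (hf : Function.Injective f)
    (v : (MonoidAlgebra K C)ˣ) (c : C) :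
    bt X (Units.map (mapDomainRingHom K f :
      MonoidAlgebra K C →* MonoidAlgebra K D) v) (f c) =
      bt X v c := by
  unfold bt TC
  rw [← TK.Dsc.mapUnit_unit1, ← K1map_cl, TG_map]
  apply TG_congr
  intro x
  by_cases h : x = c
  · subst h
    rw [dlt_self, dlt_self]
  · rw [dlt_ne h, dlt_ne (fun h2 => h (hf h2))]

theorem bt_map_not {D : Type} [CommGroup D] (f : C →* D)
    (v : (MonoidAlgebra K C)ˣ) (d : D) (hd : d ∉ Set.range f) :
    bt X (Units.map (mapDomainRingHom K f :
      MonoidAlgebra K C →* MonoidAlgebra K D) v) d = 0 := by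
  unfold bt TC
  rw [← TK.Dsc.mapUnit_unit1, ← K1map_cl, TG_map]
  apply TG_zero
  intro x
  exact dlt_ne (fun h => hd ⟨x, h⟩)

/-! ### restriction to a subgroup -/

theorem cw_ps {S : Type} [CommRing S] (f : S →+ S) (D : Subgroup C) [Fintype (C ⧸ D)]
    [DecidableEq (C ⧸ D)] (x : MonoidAlgebra S C) :
    (ps S D x).map (cw f) = ps S D (cw f x) := by
  induction x using MonoidAlgebra.induction_linear with
  | zero => ext i j : 2; simp
  | add a b ha hb =>
    rw [map_add, map_add, map_add, ← ha, ← hb]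
    ext i j : 1
    rw [Matrix.map_apply, Matrix.add_apply, map_add, Matrix.add_apply, Matrix.map_apply,
      Matrix.map_apply]
  | single c a =>
    rw [cw_single, ps_single, ps_single]
    ext i j : 1
    rw [Matrix.map_apply, Matrix.smul_apply, Matrix.smul_apply]
    show cw f (a • (if h : c • j = i then MonoidAlgebra.of S D _ else 0)) =
      f a • (if h : c • j = i then MonoidAlgebra.of S D _ else 0)
    by_cases h : c • j = i
    · rw [dif_pos h, MonoidAlgebra.of_apply, MonoidAlgebra.smul_single, MonoidAlgebra.smul_single,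
        cw_single, smul_eq_mul,
        smul_eq_mul, mul_one, mul_one]
    · rw [dif_neg h, smul_zero, smul_zero, map_zero]

theorem bt_nrm (D : Subgroup C) [Fintype (C ⧸ D)] [DecidableEq (C ⧸ D)]
    (v : (MonoidAlgebra K C)ˣ) (d : D) :
    bt X (Units.map (nrm K D) v) d =
      (Fintype.card (C ⧸ D)) • bt X v (d : C) := by
  obtain ⟨w, rfl⟩ := exists_unit_lift X v
  have h1 : Units.map (nrm K D) (Units.map (pG X C :
      MonoidAlgebra X.S C →* MonoidAlgebra K C) w) =
      Units.map (pG X D : MonoidAlgebra X.S D →*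
        MonoidAlgebra K D) (Units.map (nrm X.S D) w) := by
    apply Units.ext
    exact nrm_map X.S D X.π _
  rw [h1]
  unfold bt
  rw [TC_unit, TC_unit]
  have h2 : Units.map (nrm X.S D) w =
      DT.detU (Units.map (ps X.S D).toMonoidHom w) := rfl
  rw [h2, ← DT.logd_det]
  unfold DT.logd
  rw [DT.mat_t, DT.mat_d]
  have h3 : (((Units.map (ps X.S D).toMonoidHom w)⁻¹ :
      (Matrix (C ⧸ D) (C ⧸ D) (MonoidAlgebra X.S D))ˣ) :
        Matrix (C ⧸ D) (C ⧸ D) (MonoidAlgebra X.S D)) =
      ps X.S D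
        ((w⁻¹ : (MonoidAlgebra X.S C)ˣ) :
          MonoidAlgebra X.S C) := rfl
  have h4 : ((Units.map (ps X.S D).toMonoidHom w :
      (Matrix (C ⧸ D) (C ⧸ D) (MonoidAlgebra X.S D))ˣ) :
        Matrix (C ⧸ D) (C ⧸ D) (MonoidAlgebra X.S D)).map
          (DC X (dlt d)).d = ps X.S D
            ((DC X (dlt (d : C))).d (w : MonoidAlgebra X.S C)) :=
    cw_ps X.D.d D _
  rw [h3, h4, ← map_mul]
  generalize ((w⁻¹ : (MonoidAlgebra X.S C)ˣ) :
          MonoidAlgebra X.S C) *
        (DC X (dlt (d : C))).d (w : MonoidAlgebra X.S C) = z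
  rw [← map_sum, DTG_t, DTG_t, tau_dlt, tau_dlt]
  have h5 := trace_ps X.S D z d
  have h6 : (∑ i, ps X.S D z i i).coeff d =
      (Fintype.card (C ⧸ D)) • z.coeff (d : C) := by
    rw [nsmul_eq_mul]
    exact h5
  rw [h6, map_nsmul]

end comm

end

end Pool.Agent.E14.CP
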