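import Pool.Agent.H842R2.K1

/-!
# Classes in `K₁` of block triangular matrices
-/

open Matrix

namespace Pool.Agent.E14.CP

open H970SH H842

noncomputable section

variable {S : Type} [Ring S] {κ : Type} [Fintype κ] [DecidableEq κ]

/-- the columns of level less than `k` -/
def cut (a : κ → ℕ) (N : Matrix κ κ S) (k : ℕ) : Matrix κ κ S :=
  Matrix.of fun x y => if a y < k then N x y else 0

/-- the columns of level `k` -/
def lev (a : κ → ℕ) (N : Matrix κ κ S) (k : ℕ) : Matrix κ κ S :=
  Matrix.of fun x y => if a y = k then N x y else 0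

theorem lev_mul_cut (a : κ → ℕ) (N : Matrix κ κ S) (h : ∀ x y, ¬ a x < a y → N x y = 0) (k l : ℕ)
    (hl : l ≤ k + 1) : lev a N k * cut a N l = 0 := by
  ext x y
  rw [Matrix.mul_apply, Matrix.zero_apply]
  refine Finset.sum_eq_zero fun z _ => ?_
  unfold lev cut
  rw [Matrix.of_apply, Matrix.of_apply]
  by_cases h1 : a z = k
  · by_cases h2 : a y < l
    · rw [h z y (by omega), ite_self, mul_zero]
    · rw [if_neg h2, mul_zero]
  · rw [if_neg h1, zero_mul]

theorem lev_mul_lev (a : κ → ℕ) (N : Matrix κ κ S) (h : ∀ x y, ¬ a x < a y → N x y = 0) (k : ℕ) :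
    lev a N k * lev a N k = 0 := by
  ext x y
  rw [Matrix.mul_apply, Matrix.zero_apply]
  refine Finset.sum_eq_zero fun z _ => ?_
  unfold lev
  rw [Matrix.of_apply, Matrix.of_apply]
  by_cases h1 : a z = k
  · by_cases h2 : a y = k
    · rw [h z y (by omega), ite_self, mul_zero]
    · rw [if_neg h2, mul_zero]
  · rw [if_neg h1, zero_mul]

theorem cut_succ (a : κ → ℕ) (N : Matrix κ κ S) (k : ℕ) :
    cut a N (k + 1) = cut a N k + lev a N k := by
  ext x y
  rw [Matrix.add_apply]
  unfold cut lev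
  rw [Matrix.of_apply, Matrix.of_apply, Matrix.of_apply]
  by_cases h1 : a y < k
  · rw [if_pos (by omega), if_pos h1, if_neg (by omega), add_zero]
  · by_cases h2 : a y = k
    · rw [if_pos (by omega), if_neg h1, if_pos h2, zero_add]
    · rw [if_neg (by omega), if_neg h1, if_neg h2, add_zero]

/-- the unit `1 + N` where `N` has columns of level `k` and rows of smaller level -/
theorem cl_lev (a : κ → ℕ) (N : Matrix κ κ S) (h : ∀ x y, ¬ a x < a y → N x y = 0) (k : ℕ) :
    ∃ U : (Matrix κ κ S)ˣ, (U : Matrix κ κ S) = 1 + lev a N k ∧ cl U = 0 := by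
  have h0 := lev_mul_lev a N h k
  let U : (Matrix κ κ S)ˣ :=
    { val := 1 + lev a N k
      inv := 1 - lev a N k
      val_inv := by
        rw [add_mul, mul_sub, mul_sub, h0]
        noncomm_ring
      inv_val := by
        rw [sub_mul, mul_add, mul_add, h0]
        noncomm_ring }
  refine ⟨U, rfl, ?_⟩
  have h1 : lev a N k * (Matrix.diagonal fun x => if a x = k then (1 : S) else 0) = lev a N k := by
    ext x y
    rw [Matrix.mul_diagonal]
    unfold lev
    rw [Matrix.of_apply]
    by_cases h2 : a y = k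
    · rw [if_pos h2, if_pos h2, mul_one]
    · rw [if_neg h2, if_neg h2, mul_zero]
  have h2 : (Matrix.diagonal fun x => if a x = k then (1 : S) else 0) * lev a N k = 0 := by
    ext x y
    rw [Matrix.diagonal_mul]
    unfold lev
    rw [Matrix.of_apply, Matrix.zero_apply]
    by_cases h2 : a x = k
    · by_cases h3 : a y = k
      · rw [h x y (by omega), ite_self, mul_zero]
      · rw [if_neg h3, mul_zero]
    · rw [if_neg h2, zero_mul]
  rw [← cl_one (R := S) (ι := κ)]
  apply cl_one_add_mul_comm (lev a N k) (Matrix.diagonal fun x => if a x = k then (1 : S) else 0)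
  · rw [h1]
  · rw [h2, add_zero]
    rfl

theorem cl_cut (a : κ → ℕ) (N : Matrix κ κ S) (h : ∀ x y, ¬ a x < a y → N x y = 0) (k : ℕ) :
    ∃ U : (Matrix κ κ S)ˣ, (U : Matrix κ κ S) = 1 + cut a N k ∧ cl U = 0 := by
  induction k with
  | zero =>
    refine ⟨1, ?_, cl_one⟩
    ext x y
    simp [cut]
  | succ k ih =>
    obtain ⟨U, hU, h1⟩ := ih
    obtain ⟨V, hV, h2⟩ := cl_lev a N h k
    refine ⟨V * U, ?_, by rw [cl_mul, h1, h2, add_zero]⟩
    rw [Units.val_mul, hU, hV, cut_succ, add_mul, mul_add, mul_add,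
      lev_mul_cut a N h k k (Nat.le_succ k)]
    noncomm_ring

/-- `1 + N` with `N` strictly triangular -/
theorem cl_uni (a : κ → ℕ) (N : Matrix κ κ S) (h : ∀ x y, ¬ a x < a y → N x y = 0)
    (U : (Matrix κ κ S)ˣ) (hU : (U : Matrix κ κ S) = 1 + N) : cl U = 0 := by
  obtain ⟨V, hV, h1⟩ := cl_cut a N h (Finset.univ.sup a + 1)
  rw [← h1]
  congr 1
  apply Units.ext
  rw [hU, hV]
  congr 1
  ext x y
  have := Finset.le_sup (f := a) (Finset.mem_univ y)
  unfold cut
  rw [Matrix.of_apply, if_pos (by omega)]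

/-- the diagonal part -/
def dg (a : κ → ℕ) (M : Matrix κ κ S) : Matrix κ κ S :=
  Matrix.of fun x y => if a x = a y then M x y else 0

theorem dg_mul (a : κ → ℕ) (M N : Matrix κ κ S) (hM : ∀ x y, a y < a x → M x y = 0)
    (hN : ∀ x y, a y < a x → N x y = 0) : dg a (M * N) = dg a M * dg a N := by
  ext x y
  unfold dg
  rw [Matrix.of_apply, Matrix.mul_apply, Matrix.mul_apply]
  by_cases h1 : a x = a y
  · rw [if_pos h1]
    refine Finset.sum_congr rfl fun z _ => ?_
    rw [Matrix.of_apply, Matrix.of_apply]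
    by_cases h2 : a x = a z
    · rw [if_pos h2, if_pos (h2.symm.trans h1)]
    · rw [if_neg h2, zero_mul]
      rcases lt_or_gt_of_ne h2 with h3 | h3
      · rw [hN z y (by omega), mul_zero]
      · rw [hM x z h3, zero_mul]
  · rw [if_neg h1]
    symm
    refine Finset.sum_eq_zero fun z _ => ?_
    rw [Matrix.of_apply, Matrix.of_apply]
    by_cases h2 : a x = a z
    · rw [if_neg (fun h3 => h1 (h2.trans h3)), mul_zero]
    · rw [if_neg h2, zero_mul]

theorem dg_one (a : κ → ℕ) : dg a (1 : Matrix κ κ S) = 1 := by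
  ext x y
  unfold dg
  rw [Matrix.of_apply]
  by_cases h : x = y
  · subst h; rw [if_pos rfl]
  · rw [Matrix.one_apply_ne h, ite_self]

/-- conjugate matrices over different index types -/
theorem cl_rect {α β : Type} [Fintype α] [DecidableEq α] [Fintype β] [DecidableEq β]
    (U : (Matrix α α S)ˣ) (V : (Matrix β β S)ˣ) (A : Matrix α β S) (B : Matrix β α S)
    (h1 : A * B = 1) (h2 : B * A = 1)
    (h3 : (U : Matrix α α S) * A = A * (V : Matrix β β S)) : cl U = cl V := by
  apply cl_one_add_mul_comm A (((V : Matrix β β S) - 1) * B)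
  · rw [← Matrix.mul_assoc, Matrix.mul_sub, ← h3, Matrix.mul_one, Matrix.sub_mul, Matrix.mul_assoc,
      h1, Matrix.mul_one]
    abel
  · rw [Matrix.mul_assoc, h2, Matrix.mul_one]
    abel

/-- **Block triangular matrices.** -/
theorem cl_tri (a : κ → ℕ) (M : (Matrix κ κ S)ˣ)
    (hM : ∀ x y, a y < a x → (M : Matrix κ κ S) x y = 0)
    (hM' : ∀ x y, a y < a x → ((M⁻¹ : (Matrix κ κ S)ˣ) : Matrix κ κ S) x y = 0) :
    ∃ D : (Matrix κ κ S)ˣ, (D : Matrix κ κ S) = dg a (M : Matrix κ κ S) ∧ cl M = cl D := by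
  let D : (Matrix κ κ S)ˣ :=
    { val := dg a (M : Matrix κ κ S)
      inv := dg a ((M⁻¹ : (Matrix κ κ S)ˣ) : Matrix κ κ S)
      val_inv := by rw [← dg_mul a _ _ hM hM', M.mul_inv, dg_one]
      inv_val := by rw [← dg_mul a _ _ hM' hM, M.inv_mul, dg_one] }
  refine ⟨D, rfl, ?_⟩
  have h1 : cl (D⁻¹ * M) = 0 := by
    apply cl_uni a (((D⁻¹ : (Matrix κ κ S)ˣ) : Matrix κ κ S) *
      ((M : Matrix κ κ S) - (D : Matrix κ κ S)))
    · intro x y hxy
      rw [Matrix.mul_apply]
      refine Finset.sum_eq_zero fun z _ => ?_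
      show (if a x = a z then _ else 0) * ((M : Matrix κ κ S) z y - (if a z = a y then _ else 0)) = 0
      by_cases h2 : a x = a z
      · by_cases h3 : a z = a y
        · rw [if_pos h3, sub_self, mul_zero]
        · rw [if_neg h3, hM z y (by omega), sub_zero, mul_zero]
      · rw [if_neg h2, zero_mul]
    · rw [Units.val_mul, mul_sub, Units.inv_mul]
      abel
  rw [cl_mul, cl_inv] at h1
  exact (neg_add_eq_zero.1 h1).symm

/-- an upper and a lower block triangular matrix with conjugate diagonal blocks -/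
theorem cl_two (a : κ → ℕ) (M N E : (Matrix κ κ S)ˣ)
    (hM : ∀ x y, a y < a x → (M : Matrix κ κ S) x y = 0)
    (hM' : ∀ x y, a y < a x → ((M⁻¹ : (Matrix κ κ S)ˣ) : Matrix κ κ S) x y = 0)
    (hN : ∀ x y, a x < a y → (N : Matrix κ κ S) x y = 0)
    (hN' : ∀ x y, a x < a y → ((N⁻¹ : (Matrix κ κ S)ˣ) : Matrix κ κ S) x y = 0)
    (hE : dg a (M : Matrix κ κ S) * (E : Matrix κ κ S) =
      (E : Matrix κ κ S) * dg a (N : Matrix κ κ S)) : cl M = cl N := by
  have hle : ∀ x, a x ≤ Finset.univ.sup a := fun x => Finset.le_sup (f := a) (Finset.mem_univ x)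
  obtain ⟨D1, i1, t1⟩ := cl_tri a M hM hM'
  obtain ⟨D2, i2, t2⟩ := cl_tri (fun x => Finset.univ.sup a - a x) N
    (fun x y hxy => hN x y (by have := hle x; have := hle y; omega))
    (fun x y hxy => hN' x y (by have := hle x; have := hle y; omega))
  have h1 : dg (fun x => Finset.univ.sup a - a x) (N : Matrix κ κ S) =
      dg a (N : Matrix κ κ S) := by
    ext x y
    unfold dg
    rw [Matrix.of_apply, Matrix.of_apply]
    have h4 : a x = a y ↔ Finset.univ.sup a - a x = Finset.univ.sup a - a y := by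
      have := hle x; have := hle y; omega
    by_cases h5 : a x = a y
    · rw [if_pos h5, if_pos (h4.1 h5)]
    · rw [if_neg h5, if_neg (fun h => h5 (h4.2 h))]
  have h2 : D1 * E = E * D2 := by
    apply Units.ext
    rw [Units.val_mul, Units.val_mul, i1, i2, h1, hE]
  have h4 := congrArg cl h2
  rw [cl_mul, cl_mul, add_comm] at h4
  rw [t1, t2]
  exact add_left_cancel h4

end

end Pool.Agent.E14.CP
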