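import Pool.Agent.E14.CP.Lg4
import Pool.Agent.E14.CP.Main
import Pool.Agent.Y69.Thy

/-!
# Systems of values and their traces
-/

open Matrix

namespace Pool.Agent.E14.CP

open H970SH MonoidAlgebra Pool.Agent.Y69 Pool.Agent.Y69.Main Pool.Agent.Y69.TK.Dsc
  Pool.Agent.Y69.StepC Pool.Agent.Y69.Thy Pool.Agent.Y69.Uni Pool.Agent.Y69.Tra
open H842 hiding ps psHom ps_of ps_th

noncomputable section

/-- a system of values of the units of the group rings of finite abelian groups which is the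
restriction of traces on `K₁` -/
structure Val (A : Type) [CommRing A] (E : ℕ) where
  Λ : Type
  rΛ : CommRing Λ
  b : ∀ {C : Type} [CommGroup C], (MonoidAlgebra A C)ˣ → C → Λ
  b_mul : ∀ {C : Type} [CommGroup C] [Finite C], Nat.card C ∣ E →
    ∀ (u v : (MonoidAlgebra A C)ˣ) (c : C), b (u * v) c = b u c + b v c
  b_map : ∀ {C D : Type} [CommGroup C] [CommGroup D] [Finite C] [Finite D], Nat.card D ∣ E →
    ∀ (f : C →* D), Function.Injective f → ∀ (u : (MonoidAlgebra A C)ˣ) (c : C),
      b (Units.map (mapDomainRingHom A f : MonoidAlgebra A C →* MonoidAlgebra A D) u) (f c) = b u c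
  b_map_not : ∀ {C D : Type} [CommGroup C] [CommGroup D] [Finite C] [Finite D], Nat.card D ∣ E →
    ∀ (f : C →* D), Function.Injective f → ∀ (u : (MonoidAlgebra A C)ˣ) (d : D),
      d ∉ Set.range f →
      b (Units.map (mapDomainRingHom A f : MonoidAlgebra A C →* MonoidAlgebra A D) u) d = 0
  b_nrm : ∀ {C : Type} [CommGroup C] [Finite C], Nat.card C ∣ E → ∀ (D : Subgroup C)
    [Fintype (C ⧸ D)] [DecidableEq (C ⧸ D)] (u : (MonoidAlgebra A C)ˣ) (d : D),
      b (Units.map (nrm A D) u) d = (Fintype.card (C ⧸ D) : Λ) * b u (d : C)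
  T : ∀ {G : Type} [Group G] (h : G → ℤ), (∀ x y, h (x * y) = h (y * x)) →
    K1 (MonoidAlgebra A G) →+ Λ
  T_unit : ∀ {G : Type} [Group G] (h : G → ℤ) (hh : ∀ x y, h (x * y) = h (y * x)) {C : Type}
    [CommGroup C] [Fintype C], Nat.card C ∣ E → ∀ (φ : C →* G) (u : (MonoidAlgebra A C)ˣ),
      T h hh (cl (mapUnit (mapDomainRingHom A φ) (unit1 u))) = ∑ c, b u c * ((h (φ c) : ℤ) : Λ)
  T_sk : ∀ {G : Type} [Group G] (h : G → ℤ) (hh : ∀ x y, h (x * y) = h (y * x)) {C : Type}
    [CommGroup C] [Finite C] (φ : C →* G) {ι : Type} [Fintype ι] [DecidableEq ι]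
    (M : (Matrix ι ι (MonoidAlgebra A C))ˣ), DT.detU M = 1 →
      T h hh (cl (mapUnit (mapDomainRingHom A φ) M)) = 0

attribute [instance] Val.rΛ

theorem cl_sk {R : Type} [CommRing R] [Finite (MaximalSpectrum R)] {C : Type} [CommGroup C]
    [Finite C] {ι : Type} [Fintype ι] [DecidableEq ι] (M : (Matrix ι ι (MonoidAlgebra R C))ˣ)
    (hM : DT.detU M = 1) : cl M = 0 := by
  rw [cl_det (K1_groupRing R C) M, hM]
  have : (unit1 (1 : (MonoidAlgebra R C)ˣ)) = 1 := by
    apply Units.ext
    ext i j : 1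
    show (1 : MonoidAlgebra R C) = (1 : Matrix Unit Unit (MonoidAlgebra R C)) () ()
    rw [Matrix.one_apply_eq]
  rw [this, cl_one]

/-- change of rings and classes of determinant one -/
theorem sk_map {A R : Type} [CommRing A] [CommRing R] [Finite (MaximalSpectrum R)] (f : A →+* R)
    {G : Type} [Group G] {C : Type} [CommGroup C] [Finite C] (φ : C →* G) {ι : Type} [Fintype ι]
    [DecidableEq ι] (M : (Matrix ι ι (MonoidAlgebra A C))ˣ) (hM : DT.detU M = 1) :
    K1map (mapRingHom G f) (cl (mapUnit (mapDomainRingHom A φ) M)) = 0 := by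
  rw [K1map_cl, mapUnit_mapUnit, mapRing_mapDomain, ← mapUnit_mapUnit, ← K1map_cl, cl_sk, map_zero]
  rw [detU_map, hM, map_one]

section chg

variable {A : Type} [CommRing A] {B : Type} [CommRing B] (f : A →+* B)

theorem units_nrm {C : Type} [CommGroup C] (D : Subgroup C)
    [Fintype (C ⧸ D)] [DecidableEq (C ⧸ D)] (u : (MonoidAlgebra A C)ˣ) :
    Units.map (mapRingHom D f : MonoidAlgebra A D →* MonoidAlgebra B D)
      (Units.map (nrm A D) u) = Units.map (nrm B D)
        (Units.map (mapRingHom C f : MonoidAlgebra A C →* MonoidAlgebra B C) u) := by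
  apply Units.ext
  exact (nrm_map A D f _).symm

theorem units_map {C D : Type} [CommGroup C] [CommGroup D] (g : C →* D)
    (u : (MonoidAlgebra A C)ˣ) :
    Units.map (mapRingHom D f : MonoidAlgebra A D →* MonoidAlgebra B D)
      (Units.map (mapDomainRingHom A g : MonoidAlgebra A C →* MonoidAlgebra A D) u) =
        Units.map (mapDomainRingHom B g : MonoidAlgebra B C →* MonoidAlgebra B D)
        (Units.map (mapRingHom C f : MonoidAlgebra A C →* MonoidAlgebra B C) u) := by
  apply Units.ext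
  exact RingHom.congr_fun (mapRing_mapDomain f g) _

theorem map_unit1' {G : Type} [Group G] {C : Type} [CommGroup C] (φ : C →* G)
    (u : (MonoidAlgebra A C)ˣ) :
    K1map (mapRingHom G f) (cl (mapUnit (mapDomainRingHom A φ) (unit1 u))) =
      K1map (mapDomainRingHom B φ) (cl (unit1 (Units.map (mapRingHom C f : MonoidAlgebra A C →*
        MonoidAlgebra B C) u))) := by
  rw [K1map_cl, mapUnit_mapUnit, mapRing_mapDomain, ← mapUnit_mapUnit, ← K1map_cl, mapUnit_unit1]

end chg

section log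

variable {A : Type} [CommRing A] {B : Type} [CommRing B] [Algebra ℚ B]
  [Finite (MaximalSpectrum B)] (P : Spl B) (f : A →+* B) (E : ℕ)

/-- the logarithmic values -/
def valL : Val A E where
  Λ := B
  rΛ := inferInstance
  b {C} _ u c := bl P (Units.map (mapRingHom C f : MonoidAlgebra A C →* MonoidAlgebra B C) u) c
  b_mul {C} _ _ _ u v c := by rw [map_mul, bl_mul]
  b_map {C D} _ _ _ _ _ g hg u c := by rw [units_map, bl_map P g hg]
  b_map_not {C D} _ _ _ _ _ g hg u d hd := by rw [units_map, bl_map_not P g _ d hd]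
  b_nrm {C} _ _ _ D _ _ u d := by rw [units_nrm, bl_nrm, nsmul_eq_mul]
  T {G} _ h hh := (LG P h hh).comp (K1map (mapRingHom G f))
  T_unit {G} _ h hh {C} _ _ _ φ u := by
    rw [AddMonoidHom.comp_apply, map_unit1', LG_map]
    refine (LC_sum P (fun c => h (φ c)) _).trans ?_
    refine Finset.sum_congr rfl fun c _ => ?_
    rw [zsmul_eq_mul, mul_comm]
  T_sk {G} _ h hh {C} _ _ φ {ι} _ _ M hM := by
    rw [AddMonoidHom.comp_apply, sk_map f φ M hM, map_zero]

end log

section charp

variable {A : Type} [CommRing A] (p : ℕ) [hp : Fact p.Prime] (E : ℕ)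

theorem detU_blow {K : Type} [CommRing K] {m : Type} [Fintype m] [DecidableEq m]
    (ψ : A →+* Matrix m m K) {C : Type} [CommGroup C] {ι : Type} [Fintype ι] [DecidableEq ι]
    (M : (Matrix ι ι (MonoidAlgebra A C))ˣ) :
    DT.detU (blow (Psi ψ C) M) = Nu ψ (DT.detU M) := by
  apply Units.ext
  show (blow (Psi ψ C) M : Matrix (ι × m) (ι × m) (MonoidAlgebra K C)).det =
    (Psi ψ C ((M : Matrix ι ι (MonoidAlgebra A C)).det)).det
  rw [Matrix.det_det]
  rfl

/-- the residue values -/
def valP (d : ℕ) (ψ : A →+* Matrix (Fin d) (Fin d) (LaurentSeries (Fb p))) (n : ℕ) : Val A E where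
  Λ := On p (Fb p) n
  rΛ := inferInstance
  b u c := bt (XL p (Fb p) n) (Nu ψ u) c
  b_mul {C} _ _ _ u v c := by rw [map_mul, bt_mul]
  b_map {C D} _ _ _ _ _ g hg u c := by rw [Nu_map, bt_map _ g hg]
  b_map_not {C D} _ _ _ _ _ g hg u d hd := by rw [Nu_map, bt_map_not _ g _ d hd]
  b_nrm {C} _ _ _ D _ _ u d := by rw [Nu_nrm, bt_nrm, nsmul_eq_mul]
  T {G} _ h hh := TP (XL p (Fb p) n) ψ h hh
  T_unit {G} _ h hh {C} _ _ _ φ u := by
    rw [TP_unit]
    refine Finset.sum_congr rfl fun c _ => ?_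
    rw [zsmul_eq_mul, mul_comm]
  T_sk {G} _ h hh {C} _ _ φ {ι} _ _ M hM := by
    unfold TP
    rw [AddMonoidHom.comp_apply, K1blow_cl]
    have h1 : blow (Psi ψ G) (mapUnit (mapDomainRingHom A φ) M) =
        mapUnit (mapDomainRingHom (LaurentSeries (Fb p)) φ) (blow (Psi ψ C) M) := by
      apply Units.ext
      ext ⟨i, a⟩ ⟨j, b⟩ : 1
      rw [blow_apply, mapUnit_val, mapUnit_val, Matrix.map_apply, Matrix.map_apply, blow_apply]
      exact Psi_map ψ φ _ a b
    rw [h1, ← K1map_cl, cl_sk, map_zero, map_zero]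
    rw [detU_blow, hM, map_one]

end charp

section padic

variable {A : Type} [CommRing A] {q : ℕ} [hq : Fact q.Prime] (hodd : Odd q) (j : A →+* ℤ_[q])

include hodd in
theorem exists_TQ {G : Type} [Group G] (h : G → ℤ) (hh : ∀ x y, h (x * y) = h (y * x)) :
    ∃ T : K1 (MonoidAlgebra A G) →+ Lam q,
      (∀ (C : Type) [CommGroup C] [Fintype C] (_ : Nat.card C ∣ q - 1) (φ : C →* G)
        (u : (MonoidAlgebra A C)ˣ),
        T (cl (mapUnit (mapDomainRingHom A φ) (unit1 u))) =
          ∑ c, Thy.bb j (Additive.ofMul u) c * ((h (φ c) : ℤ) : Lam q)) ∧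
      (∀ (C : Type) [CommGroup C] [Finite C] (φ : C →* G) (ι : Type) [Fintype ι] [DecidableEq ι]
        (M : (Matrix ι ι (MonoidAlgebra A C))ˣ), DT.detU M = 1 →
        T (cl (mapUnit (mapDomainRingHom A φ) M)) = 0) := by
  obtain ⟨T, hT, -⟩ := exists_TK (G := G) (RingHom.id ℤ_[q]) hodd h hh
  refine ⟨T.comp (K1map (mapRingHom G j)), ?_, ?_⟩
  · intro C _ _ hC φ u
    rw [AddMonoidHom.comp_apply, map_unit1', K1map_cl]
    refine (hT C hC φ (Additive.ofMul (Units.map (mapRingHom C j :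
      MonoidAlgebra A C →* MonoidAlgebra ℤ_[q] C) u))).trans ?_
    refine Finset.sum_congr rfl fun c _ => ?_
    congr 1
    funext n
    unfold Thy.bb
    congr 4
    show mapRingHom C (RingHom.id ℤ_[q]) (mapRingHom C j (u : MonoidAlgebra A C)) =
      mapRingHom C j (u : MonoidAlgebra A C)
    rw [mapRingHom_id]
    rfl
  · intro C _ _ φ ι _ _ M hM
    rw [AddMonoidHom.comp_apply, sk_map j φ M hM, map_zero]

include hodd in
/-- the p-adic values -/
def valQ {E : ℕ} (hE : E ∣ q - 1) : Val A E where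
  Λ := Lam q
  rΛ := inferInstance
  b u c := Thy.bb j (Additive.ofMul u) c
  b_mul {C} _ _ hC u v c := by
    have := bb_add j (hC.trans hE) (Additive.ofMul u) (Additive.ofMul v)
    exact congrFun this c
  b_map {C D} _ _ _ _ hD g hg u c := by
    funext n
    show PadicInt.toZModPow (n + 1) _ = PadicInt.toZModPow (n + 1) _
    have h1 := eta_umap j ((card_dvd_of_inj g hg).trans (hD.trans hE)) g (Additive.ofMul u) n
    have h2 : (((umap A g (Additive.ofMul u)).toMul : (MonoidAlgebra A D)ˣ) : MonoidAlgebra A D) =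
      ((Units.map (mapDomainRingHom A g : MonoidAlgebra A C →* MonoidAlgebra A D) u :
        (MonoidAlgebra A D)ˣ) : MonoidAlgebra A D) := rfl
    rw [h2] at h1
    rw [toMul_ofMul, h1, mapDomainRingHom_apply,
      mapDomain, coeff_ofCoeff, Finsupp.mapDomain_apply hg]
  b_map_not {C D} _ _ _ _ hD g hg u d hd := by
    funext n
    show PadicInt.toZModPow (n + 1) _ = 0
    have h1 := eta_umap j ((card_dvd_of_inj g hg).trans (hD.trans hE)) g (Additive.ofMul u) n
    have h2 : (((umap A g (Additive.ofMul u)).toMul : (MonoidAlgebra A D)ˣ) : MonoidAlgebra A D) =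
      ((Units.map (mapDomainRingHom A g : MonoidAlgebra A C →* MonoidAlgebra A D) u :
        (MonoidAlgebra A D)ˣ) : MonoidAlgebra A D) := rfl
    rw [h2] at h1
    rw [toMul_ofMul, h1, mapDomainRingHom_apply,
      mapDomain, coeff_ofCoeff, Finsupp.mapDomain_of_notMem_range _ _ hd, map_zero]
  b_nrm {C} _ _ hC D _ _ u d := by
    funext n
    show PadicInt.toZModPow (n + 1) ((eta q n (mapRingHom D j (nrm A D
      (u : MonoidAlgebra A C)))).coeff d) = _
    rw [← nrm_map, eta_nrm D (pow_p (hC.trans hE)) (ju_mul j u)]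
    rfl
  T {G} _ h hh := (exists_TQ hodd j h hh).choose
  T_unit {G} _ h hh {C} _ _ hC φ u :=
    (exists_TQ hodd j h hh).choose_spec.1 C (hC.trans hE) φ u
  T_sk {G} _ h hh {C} _ _ φ {ι} _ _ M hM :=
    (exists_TQ hodd j h hh).choose_spec.2 C φ ι M hM

end padic

end

end Pool.Agent.E14.CP
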