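import Pool.Agent.E14.CP.Psi

/-!
# The data of Laurent series over truncated Witt vectors; characters
-/

open Matrix

namespace Pool.Agent.E14.CP

open H970SH MonoidAlgebra Pool.Agent.Y69
open H842 hiding ps psHom ps_of ps_th

noncomputable section

section defX

variable (p : ℕ) [hp : Fact p.Prime] (k : Type) [Field k] [CharP k p] (n : ℕ)

/-- the thick data -/
def XL : Thk (LaurentSeries k) (On p k n) where
  S := LaurentSeries (On p k n)
  rS := inferInstance
  T := LaurentSeries (OO p k)
  rT := inferInstance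
  M := OO p k
  gM := inferInstance
  D := DTL (On p k n)
  DH := DTL (OO p k)
  F :=
    { f := mapL (Ideal.Quotient.mk _)
      g := (Ideal.Quotient.mk ((II p k) ^ (n + 1))).toAddMonoidHom
      hd := mapL_dL _
      ht := fun _ => rfl }
  hF := mapL_surjective _ Ideal.Quotient.mk_surjective
  hM := OO_torsionfree p k
  π := mapL (pn p k n)
  hπ := mapL_surjective _ (pn_surjective p k n)
  hN := mapL_nil _ (pn_nil p k n)

end defX

/-! ### characters -/

section chr

variable {K Λ : Type} [CommRing K] [CommRing Λ] (X : Thk K Λ) (j : Λ →+* X.S)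
  (hd : ∀ a x, X.D.d (j a * x) = j a * X.D.d x) (ht : ∀ a x, X.D.t (j a * x) = a * X.D.t x)
  {C : Type} [CommGroup C] (χ : C →* Λ)

/-- evaluation at a character -/
def eps : MonoidAlgebra X.S C →+* X.S :=
  MonoidAlgebra.liftNCRingHom (RingHom.id X.S) ((j : Λ →* X.S).comp χ)
    (fun _ _ => Commute.all _ _)

theorem eps_single (c : C) (s : X.S) : eps X j χ (MonoidAlgebra.single c s) = s * j (χ c) := by
  unfold eps
  rw [MonoidAlgebra.liftNCRingHom_single]
  rfl

include hd in
theorem eps_d (x : MonoidAlgebra X.S C) : X.D.d (eps X j χ x) = eps X j χ (cw X.D.d x) := by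
  induction x using MonoidAlgebra.induction_linear with
  | zero => simp
  | add a b ha hb => rw [map_add, map_add, ha, hb, map_add, map_add]
  | single c s => rw [cw_single, eps_single, eps_single, mul_comm, hd, mul_comm]

include ht in
theorem eps_t [Fintype C] (x : MonoidAlgebra X.S C) :
    X.D.t (eps X j χ x) = ∑ c, χ c * tau X.D.t (dlt c) x := by
  induction x using MonoidAlgebra.induction_linear with
  | zero => simp
  | add a b ha hb =>
    rw [map_add, map_add, ha, hb, ← Finset.sum_add_distrib]
    refine Finset.sum_congr rfl fun c _ => ?_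
    rw [map_add, mul_add]
  | single c s =>
    rw [eps_single, mul_comm, ht, Finset.sum_eq_single c]
    · rw [tau_single, dlt_self, one_smul]
    · intro c' _ hc
      rw [tau_single, dlt_ne (Ne.symm hc), zero_smul, mul_zero]
    · intro h; exact absurd (Finset.mem_univ _) h

include hd ht in
theorem logd_eps [Fintype C] (w : (MonoidAlgebra X.S C)ˣ) :
    X.D.logd (Units.map (eps X j χ : MonoidAlgebra X.S C →* X.S) w) =
      ∑ c, χ c * bt X (Units.map (pG X C : MonoidAlgebra X.S C →* MonoidAlgebra K C) w) c := by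
  have h1 : X.D.logd (Units.map (eps X j χ : MonoidAlgebra X.S C →* X.S) w) =
      X.D.t (eps X j χ (((w⁻¹ : (MonoidAlgebra X.S C)ˣ) : MonoidAlgebra X.S C) *
        cw X.D.d (w : MonoidAlgebra X.S C))) := by
    rw [map_mul, ← eps_d X j hd χ]
    rfl
  rw [h1, eps_t X j ht χ]
  refine Finset.sum_congr rfl fun c _ => ?_
  rw [bt_lift, tau_dlt]

/-- the logarithmic derivative depends only on the reduction -/
theorem logd_red (z w : (X.S)ˣ) (h : X.π (z : X.S) = X.π (w : X.S)) : X.D.logd z = X.D.logd w := by
  have h1 : X.D.logd (z * w⁻¹) = 0 := by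
    apply DT.logd_uni X.F X.hF X.hM
    obtain ⟨N, hN⟩ := X.hN
    refine ⟨N, ?_⟩
    have h2 : ((z * w⁻¹ : (X.S)ˣ) : X.S) - 1 ∈ RingHom.ker X.π := by
      rw [RingHom.mem_ker, map_sub, map_one, Units.val_mul, map_mul, h, ← map_mul, Units.mul_inv,
        map_one, sub_self]
    have h3 := Ideal.pow_mem_pow h2 N
    rw [hN] at h3
    exact h3
  have h2 : z = z * w⁻¹ * w := by rw [inv_mul_cancel_right]
  rw [h2, DT.logd_mul, h1, zero_add]

variable {χ} in
include hd ht in
/-- vanishing of the character function implies vanishing of logarithmic derivatives -/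
theorem logd_zero [Fintype C] (e : MonoidAlgebra K C →+* K)
    (he : ∀ c s, e (MonoidAlgebra.single c s) = s * X.π (j (χ c)))
    (v : (MonoidAlgebra K C)ˣ) (hv : ∀ c, bt X v c = 0) (z : (X.S)ˣ)
    (hz : X.π (z : X.S) = e (v : MonoidAlgebra K C)) : X.D.logd z = 0 := by
  obtain ⟨w, rfl⟩ := exists_unit_lift X v
  have h1 : ∀ y : MonoidAlgebra X.S C, X.π (eps X j χ y) = e (pG X C y) := by
    intro y
    induction y using MonoidAlgebra.induction_linear with
    | zero => simp
    | add a b ha hb => rw [map_add, map_add, ha, hb, map_add, map_add]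
    | single c s =>
      rw [eps_single, map_mul]
      show _ = e (mapRingHom C X.π (MonoidAlgebra.single c s))
      rw [mapRingHom_single, he]
  rw [logd_red X z (Units.map (eps X j χ : MonoidAlgebra X.S C →* X.S) w) (by
    rw [hz]
    exact (h1 _).symm), logd_eps X j hd ht χ]
  refine Finset.sum_eq_zero fun c _ => ?_
  rw [hv, mul_zero]

end chr

/-! ### Laurent series -/

section lau

variable (p : ℕ) [hp : Fact p.Prime] (k : Type) [Field k] [CharP k p] (n : ℕ)

theorem C_coeff {Q : Type} [CommRing Q] (a : Q) (x : LaurentSeries Q) (m : ℤ) :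
    (HahnSeries.C a * x).coeff m = a * x.coeff m := by
  rw [HahnSeries.C_mul_eq_smul, HahnSeries.coeff_smul, smul_eq_mul]

/-- constants -/
def jC : On p k n →+* (XL p k n).S := (HahnSeries.C : On p k n →+* LaurentSeries (On p k n))

theorem dL_C {Q : Type} [CommRing Q] (a : Q) (x : LaurentSeries Q) :
    dL (HahnSeries.C a * x) = HahnSeries.C a * dL x := by
  apply HahnSeries.ext
  funext m
  rw [dL_coeff, C_coeff, C_coeff, dL_coeff, mul_smul_comm]

theorem res0_C {Q : Type} [CommRing Q] (a : Q) (x : LaurentSeries Q) :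
    res0 (HahnSeries.C a * x) = a * res0 x := C_coeff a x 0

theorem XL_hd (a : On p k n) (x : (XL p k n).S) :
    (XL p k n).D.d (jC p k n a * x) = jC p k n a * (XL p k n).D.d x := dL_C a x

theorem XL_ht (a : On p k n) (x : (XL p k n).S) :
    (XL p k n).D.t (jC p k n a * x) = a * (XL p k n).D.t x := res0_C a x

/-- the variable -/
def xU {Q : Type} [CommRing Q] : (LaurentSeries Q)ˣ where
  val := HahnSeries.single 1 1
  inv := HahnSeries.single (-1) 1
  val_inv := by
    rw [HahnSeries.single_mul_single, mul_one]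
    rfl
  inv_val := by
    rw [HahnSeries.single_mul_single, mul_one]
    rfl

theorem logd_x {Q : Type} [CommRing Q] : (DTL Q).logd xU = 1 := by
  show ((HahnSeries.single (-1) 1 : LaurentSeries Q) * dL (HahnSeries.single 1 1)).coeff 0 = 1
  rw [dL_single, HahnSeries.single_mul_single, one_smul, mul_one]
  show (HahnSeries.single (-1 + 1) (1 : Q)).coeff 0 = 1
  rw [neg_add_cancel, HahnSeries.coeff_single_same]

theorem logd_pow {B Λ : Type} [Ring B] [AddCommGroup Λ] (D : DT B Λ) (u : Bˣ) (d : ℕ) :
    D.logd (u ^ d) = d • D.logd u := by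
  induction d with
  | zero => rw [pow_zero, DT.logd_one, zero_smul]
  | succ d ih => rw [pow_succ, DT.logd_mul, ih, succ_nsmul]

/-- The Teichmüller lift of a character -/
def teich {C : Type} [CommGroup C] (χ : C →* k) : C →* On p k n :=
  ((Ideal.Quotient.mk ((II p k) ^ (n + 1)) : OO p k →* On p k n).comp
    (WittVector.teichmuller p)).comp χ

theorem teich_red {C : Type} [CommGroup C] (χ : C →* k) (c : C) :
    (XL p k n).π (jC p k n (teich p k n χ c)) = (HahnSeries.C (χ c) : LaurentSeries k) := by
  show mapL (pn p k n) (HahnSeries.single 0 _) = HahnSeries.single 0 _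
  rw [mapL_single]
  congr 1

/-- if the value of a character on `v` is `X ^ d` and the character function vanishes, then
`d = 0` -/
theorem d_zero {C : Type} [CommGroup C] [Fintype C] (χ : C →* k)
    (e : MonoidAlgebra (LaurentSeries k) C →+* LaurentSeries k)
    (he : ∀ c s, e (MonoidAlgebra.single c s) = s * HahnSeries.C (χ c))
    (v : (MonoidAlgebra (LaurentSeries k) C)ˣ) (hv : ∀ c, bt (XL p k n) v c = 0) (d : ℕ)
    (hd : e (v : MonoidAlgebra (LaurentSeries k) C) = (HahnSeries.single 1 1) ^ d) :
    (d : On p k n) = 0 := by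
  have h1 := logd_zero (XL p k n) (jC p k n) (XL_hd p k n) (XL_ht p k n) (χ := teich p k n χ) e
    (fun c s => by rw [he, teich_red]) v hv (xU ^ d) (by
      rw [hd]
      show mapL (pn p k n) ((HahnSeries.single 1 1) ^ d) = _
      rw [map_pow, mapL_single, map_one])
  have h2 : (DTL (On p k n)).logd (xU ^ d) = 0 := h1
  rw [logd_pow, logd_x, nsmul_eq_mul, mul_one] at h2
  exact h2

end lau

end

end Pool.Agent.E14.CP
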